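import Pool.Agent.H783.HM.Stm
import Pool.Agent.H783.HL.Extract2

/-!
# The bound for stable polynomials
-/

set_option autoImplicit false

namespace Pool.Agent.H783.HM

open MvPolynomial Filter Topology
open Pool.Agent.H783.HL

/-- M4. The bound for stable polynomials. -/
def M_Bound : Prop :=
  ∀ (σ : Type) [Fintype σ] (Ω : Set (σ → ℝ)) (e w : σ → ℝ) (p : MvPolynomial σ ℝ) (m : ℕ),
    1 ≤ m → OCone Ω → e ∈ Ω → (0 : σ → ℝ) ∉ Ω → Star Ω e w → p.IsHomogeneous (2 * m) →
    Stab p e → (∀ v ∈ closure Ω, v ≠ 0 → 0 < eval v p) →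
    0 ≤ eval e (lap w p) ∧
      eval e ((lap w)^[m] p) / m.factorial * (m : ℝ) ^ m * eval e p ^ (m - 1) ≤
        eval e (lap w p) ^ m

/-- the coefficients of the flow on the line -/
noncomputable def cj (m : ℕ) (G : ℕ → ℕ → ℝ) (a : ℝ) (j : ℕ) : ℝ :=
  ∑ i ∈ Finset.range (2 * m + 1), ∑ k ∈ Finset.range (2 * m + 1),
    if i + k = j then a ^ k / (i.factorial * k.factorial) * G i k else 0

theorem cj_cont (m : ℕ) (G : ℕ → ℕ → ℝ) (j : ℕ) : Continuous fun a => cj m G a j := by
  unfold cj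
  refine continuous_finsetSum _ fun i _ => continuous_finsetSum _ fun k _ => ?_
  split_ifs
  · fun_prop
  · fun_prop

theorem cj_zero (m : ℕ) (G : ℕ → ℕ → ℝ) {j : ℕ} (hj : j ≤ m) :
    cj m G 0 j = G j 0 / j.factorial := by
  unfold cj
  rw [Finset.sum_eq_single j, Finset.sum_eq_single 0]
  · simp only [add_zero, if_true, pow_zero, Nat.factorial_zero, Nat.cast_one, mul_one]
    ring
  · intro k _ hk
    rw [if_neg (by omega)]
  · intro h
    exact absurd (Finset.mem_range.2 (by omega)) h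
  · intro i _ hi
    refine Finset.sum_eq_zero fun k _ => ?_
    split_ifs with h
    · have : k ≠ 0 := by
        rintro rfl
        exact hi (by omega)
      rw [zero_pow this]
      ring
    · rfl
  · intro h
    exact absurd (Finset.mem_range.2 (by omega)) h

theorem cj_c0 (m : ℕ) (G : ℕ → ℕ → ℝ) (a : ℝ) : cj m G a 0 = G 0 0 := by
  unfold cj
  rw [Finset.sum_eq_single 0, Finset.sum_eq_single 0]
  · simp
  · intro k _ hk
    rw [if_neg (by omega)]
  · intro h
    exact absurd (Finset.mem_range.2 (by omega)) h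
  · intro i _ hi
    refine Finset.sum_eq_zero fun k _ => ?_
    rw [if_neg (by omega)]
  · intro h
    exact absurd (Finset.mem_range.2 (by omega)) h

theorem cj_sum (m : ℕ) (G : ℕ → ℕ → ℝ) (a : ℝ) (z : ℂ) :
    ∑ j ∈ Finset.range (m + 1), (-1) ^ j * (cj m G a j : ℂ) * z ^ (2 * (m - j)) =
      ∑ i ∈ Finset.range (2 * m + 1), ∑ k ∈ Finset.range (2 * m + 1),
        if i + k ≤ m then (-1) ^ (i + k) * ((a ^ k / (i.factorial * k.factorial) * G i k : ℝ) : ℂ) *
          z ^ (2 * (m - (i + k))) else 0 := by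
  unfold cj
  have h1 : ∀ j ∈ Finset.range (m + 1), (-1 : ℂ) ^ j *
      ((∑ i ∈ Finset.range (2 * m + 1), ∑ k ∈ Finset.range (2 * m + 1),
        if i + k = j then a ^ k / (i.factorial * k.factorial) * G i k else 0 : ℝ) : ℂ) *
        z ^ (2 * (m - j)) =
      ∑ i ∈ Finset.range (2 * m + 1), ∑ k ∈ Finset.range (2 * m + 1),
        if i + k = j then (-1) ^ (i + k) *
          ((a ^ k / (i.factorial * k.factorial) * G i k : ℝ) : ℂ) *
          z ^ (2 * (m - (i + k))) else 0 := by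
    intro j _
    rw [Complex.ofReal_sum, Finset.mul_sum, Finset.sum_mul]
    refine Finset.sum_congr rfl fun i _ => ?_
    rw [Complex.ofReal_sum, Finset.mul_sum, Finset.sum_mul]
    refine Finset.sum_congr rfl fun k _ => ?_
    split_ifs with h
    · rw [h]
    · simp
  rw [Finset.sum_congr rfl h1, Finset.sum_comm]
  refine Finset.sum_congr rfl fun i _ => ?_
  rw [Finset.sum_comm]
  refine Finset.sum_congr rfl fun k _ => ?_
  split_ifs with h
  · rw [Finset.sum_eq_single (i + k)]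
    · rw [if_pos rfl]
    · intro j _ hj
      rw [if_neg (Ne.symm hj)]
    · intro h2
      exact absurd (Finset.mem_range.2 (by omega)) h2
  · refine Finset.sum_eq_zero fun j hj => ?_
    rw [if_neg]
    intro h2
    have := Finset.mem_range.1 hj
    omega

/-- the flow on the complex line spanned by `e` -/
theorem flow_line {σ : Type} [Fintype σ] (e w : σ → ℝ) (p : MvPolynomial σ ℝ) (m : ℕ) (a : ℝ)
    (hp : p.IsHomogeneous (2 * m)) (z : ℂ) :
    aeval (fun k => z * ((e k : ℝ) : ℂ)) (flow2 e w (2 * m) a 1 1 p) =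
      ∑ j ∈ Finset.range (m + 1), (-1) ^ j *
        (cj m (fun i k => eval e (g2 e w p i k)) a j : ℂ) * z ^ (2 * (m - j)) := by
  rw [cj_sum]
  unfold flow2
  rw [map_sum]
  refine Finset.sum_congr rfl fun i _ => ?_
  rw [map_sum]
  refine Finset.sum_congr rfl fun k _ => ?_
  obtain ⟨h1, h2⟩ := ExtractN2.hom_gg2 e w hp i k
  rw [map_mul, aeval_C]
  split_ifs with h
  · rw [ExtractN2.hom_aeval2 _ _ h1]
    have h3 : 2 * m - 2 * (i + k) = 2 * (m - (i + k)) := by omega
    rw [h3]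
    have h5 : ∀ r : ℝ, (algebraMap ℝ ℂ) r = (r : ℂ) := fun r => rfl
    rw [h5]
    push_cast
    ring
  · rw [h2 (by omega)]
    simp

theorem bound_pre (hU : M_Uni) {σ : Type} [Fintype σ] (e w : σ → ℝ) (p : MvPolynomial σ ℝ)
    (m : ℕ) (hm : 1 ≤ m) (a : ℝ) (hp : p.IsHomogeneous (2 * m)) (hpos : 0 < eval e p)
    (hstab : Stab (flow2 e w (2 * m) a 1 1 p) e) :
    0 ≤ cj m (fun i k => eval e (g2 e w p i k)) a 1 ∧
      cj m (fun i k => eval e (g2 e w p i k)) a m * (m : ℝ) ^ m *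
        cj m (fun i k => eval e (g2 e w p i k)) a 0 ^ (m - 1) ≤
        cj m (fun i k => eval e (g2 e w p i k)) a 1 ^ m := by
  refine hU m (cj m (fun i k => eval e (g2 e w p i k)) a) hm ?_ ?_
  · rw [cj_c0]
    exact hpos
  · intro z hz
    have key : ∀ u : ℂ, 0 < u.im → ∑ j ∈ Finset.range (m + 1), (-1) ^ j *
        (cj m (fun i k => eval e (g2 e w p i k)) a j : ℂ) * u ^ (2 * (m - j)) ≠ 0 := by
      intro u hu
      rw [← flow_line e w p m a hp u]
      have h1 := hstab (fun k => u.re * e k) u.im hu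
      have h2 : (cp (fun k => u.re * e k) fun k => u.im * e k : σ → ℂ) =
          fun k => u * ((e k : ℝ) : ℂ) := by
        funext k
        simp only [cp]
        push_cast
        conv_rhs => rw [← Complex.re_add_im u]
        ring
      rw [h2] at h1
      exact h1
    rcases lt_or_gt_of_ne hz with h | h
    · have h1 := key (-z) (by simpa using h)
      have h2 : ∀ j, (-z) ^ (2 * (m - j)) = z ^ (2 * (m - j)) := fun j =>
        (even_two_mul _).neg_pow z
      simp only [h2] at h1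
      exact h1
    · exact key z h

/-- **The bound.** -/
theorem bound (hU : M_Uni) (hMain : S2_Main) (hReg : S2_Reg) (hRC : S2_RegCont) : M_Bound := by
  intro σ _ Ω e w p m hm hΩ he h0Ω hstar hp hst hpos
  have hene : ∃ k, e k ≠ 0 := by
    by_contra hcon
    push Not at hcon
    apply h0Ω
    have : e = 0 := funext hcon
    rw [← this]
    exact he
  obtain ⟨hR1, hR2, hR4, hR3⟩ := hReg σ e w p (2 * m) hene hp hst
  obtain ⟨hC1, hC2⟩ := hRC σ e p (2 * m)
  -- positivity on the cone for small parameters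
  have hcpt : IsCompact (closure Ω ∩ Metric.sphere (0 : σ → ℝ) 1) :=
    (isCompact_sphere 0 1).inter_left isClosed_closure
  have hev : ∀ᶠ δ : ℝ in 𝓝 0, ∀ v ∈ closure Ω ∩ Metric.sphere (0 : σ → ℝ) 1,
      0 < eval v (reg e (2 * m) δ p) := by
    refine hcpt.eventually_forall_of_forall_eventually
      (P := fun δ v => 0 < eval v (reg e (2 * m) δ p)) ?_
    intro v hv
    have h1 : 0 < eval v (reg e (2 * m) 0 p) := by
      rw [reg_zero]
      refine hpos v hv.1 ?_
      rintro rfl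
      simpa using hv.2
    exact hC2.continuousAt.eventually (lt_mem_nhds h1)
  have hposΩ : ∀ᶠ δ : ℝ in 𝓝 0, ∀ v ∈ Ω, 0 < eval v (reg e (2 * m) δ p) := by
    filter_upwards [hev] with δ hδ v hv
    have hv0 : v ≠ 0 := by
      rintro rfl
      exact h0Ω hv
    have hn : 0 < ‖v‖ := norm_pos_iff.2 hv0
    have h1 := hδ (fun k => ‖v‖⁻¹ * v k) ⟨subset_closure (hΩ.cone _ (inv_pos.2 hn) v hv), ?_⟩
    · have h2 := eval_scale (hR1 δ) ‖v‖ (fun k => ‖v‖⁻¹ * v k)
      have h3 : (fun k => ‖v‖ * (‖v‖⁻¹ * v k)) = v := by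
        funext k
        field_simp
      rw [h3] at h2
      rw [h2]
      positivity
    · have h2 : (fun k => ‖v‖⁻¹ * v k) = ‖v‖⁻¹ • v := rfl
      rw [h2, mem_sphere_zero_iff_norm, norm_smul, norm_inv, norm_norm]
      exact inv_mul_cancel₀ hn.ne'
  -- the inequality for small positive parameters
  have hbox : ∀ᶠ δ : ℝ in 𝓝[>] 0, 0 ≤ eval e ((lap w)^[1] (reg e (2 * m) δ p)) ∧
      eval e ((lap w)^[m] (reg e (2 * m) δ p)) / m.factorial * (m : ℝ) ^ m *
        eval e ((lap w)^[0] (reg e (2 * m) δ p)) ^ (m - 1) ≤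
        eval e ((lap w)^[1] (reg e (2 * m) δ p)) ^ m := by
    filter_upwards [hposΩ.filter_mono nhdsWithin_le_nhds, self_mem_nhdsWithin] with δ hδ hδ0
    have hδ0' : (0 : ℝ) < δ := hδ0
    have hstab : ∀ a : ℝ, 0 < a →
        Stab (flow2 e w (2 * m) a 1 1 (reg e (2 * m) δ p)) e := fun a ha =>
      hMain σ Ω e w _ (2 * m) a hΩ he hstar ha (hR1 δ) hδ (hR4 δ hδ0')
        (fun τ => hR3 δ a τ hδ0'.le ha.le) 1 zero_le_one 1
    have hsum := fun (a : ℝ) (ha : 0 < a) =>
      bound_pre hU e w (reg e (2 * m) δ p) m hm a (hR1 δ) (hδ e he) (hstab a ha)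
    have hlim : ∀ j ≤ m, Tendsto
        (fun a => cj m (fun i k => eval e (g2 e w (reg e (2 * m) δ p) i k)) a j) (𝓝[>] 0)
        (𝓝 (eval e ((lap w)^[j] (reg e (2 * m) δ p)) / j.factorial)) := by
      intro j hj
      have h1 := ((cj_cont m (fun i k => eval e (g2 e w (reg e (2 * m) δ p) i k)) j).tendsto
        0).mono_left (nhdsWithin_le_nhds (s := Set.Ioi (0 : ℝ)))
      rw [cj_zero m _ hj] at h1
      exact h1
    have h0 := hlim 0 (Nat.zero_le _)
    have h1 := hlim 1 hm
    have h2 := hlim m le_rfl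
    simp only [Nat.factorial_zero, Nat.factorial_one, Nat.cast_one, div_one] at h0 h1
    refine ⟨ge_of_tendsto h1 (eventually_nhdsWithin_of_forall fun a ha => (hsum a ha).1), ?_⟩
    exact le_of_tendsto_of_tendsto ((h2.mul_const _).mul (h0.pow _)) (h1.pow m)
      (eventually_nhdsWithin_of_forall fun a ha => (hsum a ha).2)
  have hlim : ∀ j, Tendsto (fun δ => eval e ((lap w)^[j] (reg e (2 * m) δ p))) (𝓝[>] 0)
      (𝓝 (eval e ((lap w)^[j] p))) := by
    intro j
    have hL := hC1 ((aeval e : MvPolynomial σ ℝ →ₐ[ℝ] ℝ).toLinearMap ∘ₗ (lapL w ^ j))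
    have hL2 : ∀ δ, ((aeval e : MvPolynomial σ ℝ →ₐ[ℝ] ℝ).toLinearMap ∘ₗ (lapL w ^ j))
        (reg e (2 * m) δ p) = eval e ((lap w)^[j] (reg e (2 * m) δ p)) := by
      intro δ
      rw [LinearMap.comp_apply, lapL_pow, AlgHom.toLinearMap_apply]
      exact congrFun (congrArg DFunLike.coe (coe_aeval_eq_eval e)) _
    simp only [hL2] at hL
    have h1 : Tendsto (fun δ => eval e ((lap w)^[j] (reg e (2 * m) δ p))) (𝓝[>] 0)
        (𝓝 (eval e ((lap w)^[j] (reg e (2 * m) 0 p)))) :=
      (hL.tendsto 0).mono_left nhdsWithin_le_nhds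
    rwa [reg_zero] at h1
  have h0 := hlim 0
  have h1 := hlim 1
  have h2 := hlim m
  refine ⟨ge_of_tendsto h1 (hbox.mono fun δ h => h.1), ?_⟩
  exact le_of_tendsto_of_tendsto (((h2.div_const _).mul_const _).mul (h0.pow _)) (h1.pow m)
    (hbox.mono fun δ h => h.2)

theorem hm_bound (hU : M_Uni) : M_Bound :=
  bound hU hl_main (reg2 slice2 rrSub rrSimple (rrExp rrSub uniLower)) regCont2

end Pool.Agent.H783.HM
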