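import Pool.Agent.H783.HM.Stm2

/-!
# Limits of points with nonnegative coordinates
-/

set_option autoImplicit false

namespace Pool.Agent.H783.HM

open Filter Topology

theorem closedN : N_Closed := by
  intro m α X F hF Φ g g0 M hΦ hg hev
  classical
  let r : α → Fin m → ℝ := fun a =>
    if h : ∃ r : Fin m → ℝ, (∀ i, 0 ≤ r i ∧ r i ≤ M) ∧ ∀ x, g a x = Φ x r then h.choose
    else fun _ => 0
  have hr : ∀ᶠ a in F, (∀ i, 0 ≤ r a i ∧ r a i ≤ M) ∧ ∀ x, g a x = Φ x (r a) := by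
    filter_upwards [hev] with a ha
    have h1 : r a = ha.choose := by
      simp only [r]
      rw [dif_pos ha]
    rw [h1]
    exact ha.choose_spec
  let K : Set (Fin m → ℝ) := Set.pi Set.univ fun _ => Set.Icc (0 : ℝ) M
  have hK : IsCompact K := isCompact_univ_pi fun _ => isCompact_Icc
  let U : Ultrafilter α := Ultrafilter.of F
  have hU : (U : Filter α) ≤ F := Ultrafilter.of_le F
  have hrU : ∀ᶠ a in (U : Filter α), (∀ i, 0 ≤ r a i ∧ r a i ≤ M) ∧ ∀ x, g a x = Φ x (r a) :=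
    hr.filter_mono hU
  have hKU : ∀ᶠ a in (U : Filter α), r a ∈ K := by
    filter_upwards [hrU] with a ha
    intro i _
    exact ⟨(ha.1 i).1, (ha.1 i).2⟩
  have hmap : K ∈ (U.map r : Ultrafilter (Fin m → ℝ)) := hKU
  obtain ⟨r0, hr0K, hr0⟩ := hK.ultrafilter_le_nhds (U.map r) (by
    rw [le_principal_iff]
    exact hmap)
  have hlim : Tendsto r (U : Filter α) (𝓝 r0) := hr0
  refine ⟨r0, fun i => (hr0K i (Set.mem_univ i)).1, fun x => ?_⟩
  have h1 : Tendsto (fun a => Φ x (r a)) (U : Filter α) (𝓝 (Φ x r0)) :=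
    ((hΦ x).tendsto r0).comp hlim
  have h2 : Tendsto (fun a => g a x) (U : Filter α) (𝓝 (g0 x)) := (hg x).mono_left hU
  have h3 : Tendsto (fun a => Φ x (r a)) (U : Filter α) (𝓝 (g0 x)) := by
    refine h2.congr' ?_
    filter_upwards [hrU] with a ha
    exact ha.2 x
  exact tendsto_nhds_unique h3 h1

end Pool.Agent.H783.HM
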