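import Pool.Agent.H783.HL.Defs
import Pool.Graph.R_seed8.Y519.HB.Defs

/-!
# Definitions: the cone, products of planes, Einstein tensors
-/

set_option autoImplicit false

namespace Pool.Agent.H783.HM

open Pool.Agent.H783.HL
open Pool.Agent.W666.GB Pool.Agent.W669.HD Pool.Agent.Y519.HB

section defs

variable {V : Type} [NormedAddCommGroup V] [InnerProductSpace ℝ V] {m : ℕ}

/-- `S` is the pullback `f^* T`, under a linear map `f : V → V'`, of an algebraic curvature tensor `T`
on a Euclidean space `V'` whose curvature operator of the second kind is nonpositive on the symmetric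
tensors which are traceless with respect to some inner product of `V'` (`SecondOn`). -/
def SecondPull (S : V → V → V → V → ℝ) : Prop :=
  ∃ (V' : Type) (_ : NormedAddCommGroup V') (_ : InnerProductSpace ℝ V')
    (_ : FiniteDimensional ℝ V') (f : V →ₗ[ℝ] V') (T : V' → V' → V' → V' → ℝ),
    SecondOn ⊤ T ∧ ∀ x y z w, S x y z w = T (f x) (f y) (f z) (f w)

/-- `R` lies in the convex cone generated by the Gauss tensors of causal forms (of all codimensions)
and the pullbacks of tensors with nonpositive curvature operator of the second kind. -/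
def NegCone (R : V → V → V → V → ℝ) : Prop :=
  ∃ (r : ℕ) (S : Fin r → V → V → V → V → ℝ),
    (∀ i, (∃ N, CausalT N (S i)) ∨ SecondPull (S i)) ∧
    ∀ x y z w, R x y z w = ∑ i, S i x y z w

/-- The curvature tensor of a product of `m` planes with curvatures `-k_1, …, -k_m`: the plane of
the factor `a` is spanned by `e (a, false)` and `e (a, true)`. -/
noncomputable def planes (e : OrthonormalBasis (Fin m × Bool) ℝ V) (k : Fin m → ℝ)
    (x y z w : V) : ℝ :=
  - ∑ a, k a * sqDec (e (a, false)) (e (a, true)) x y z w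

/-- `R + t (constant curvature one)` -/
noncomputable def shiftT (R : V → V → V → V → ℝ) (t : ℝ) (x y z w : V) : ℝ :=
  R x y z w + t * unitT x y z w

/-- `|R|²` -/
noncomputable def normSq (e : OrthonormalBasis (Fin m × Bool) ℝ V) (R : V → V → V → V → ℝ) : ℝ :=
  ∑ i, ∑ j, ∑ k, ∑ l, R (e i) (e j) (e k) (e l) ^ 2

/-- `|Ric|²` -/
noncomputable def ricSq (e : OrthonormalBasis (Fin m × Bool) ℝ V) (R : V → V → V → V → ℝ) : ℝ :=
  ∑ j, ∑ l, (∑ i, R (e i) (e j) (e i) (e l)) ^ 2

/-- the Ricci tensor of `R` is `(2 m - 1) κ` times the metric -/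
def Einstein (e : OrthonormalBasis (Fin m × Bool) ℝ V) (R : V → V → V → V → ℝ) (κ : ℝ) : Prop :=
  ∀ y w : V, ∑ i, R (e i) y (e i) w = (2 * m - 1) * κ * inner ℝ y w

end defs

/-- The value of `(-1)^m gbc` on the sum of a product of `m` planes with curvature `-a` and the tensor
of constant curvature `-δ`. -/
noncomputable def upGB (m : ℕ) (a δ : ℝ) : ℝ :=
  (∑ j ∈ Finset.range (m + 1), m.choose j * (2 * a) ^ j *
    ((2 * (m - j)).factorial / (m - j).factorial) * δ ^ (m - j)) / (4 * Real.pi) ^ m

/-- A lower bound for `(-1)^m gbc`: the value on the sum of a plane of curvature `-m a`, a flat factor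
and the tensor of constant curvature `-δ`. -/
noncomputable def lowGB (m : ℕ) (a δ : ℝ) : ℝ :=
  roundGB m 1 * (δ ^ (m - 1) * (δ + m * a / (2 * m - 1)))

end Pool.Agent.H783.HM
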