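import Pool.Agent.H783.HM.Spec
import Pool.Agent.H783.HM.Defs
import Pool.Agent.H783.HL.Final

/-!
# The spectrum of a curvature tensor in the cone
-/

set_option autoImplicit false
set_option linter.unusedSectionVars false
set_option linter.unusedVariables false

namespace Pool.Agent.H783.HM

open Filter Topology
open Pool.Agent.H783.HL
open Pool.Agent.W666.GB Pool.Agent.W669.HD Pool.Agent.Y519.HB
open Pool.Agent.H783.Hopf (qf gbc_of_forms vec)

section defs

variable {V : Type} [NormedAddCommGroup V] [InnerProductSpace ℝ V] {m : ℕ}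

/-- `r` is the spectrum of `R` -/
def Spec (e : OrthonormalBasis (Fin m × Bool) ℝ V) (R : V → V → V → V → ℝ)
    (r : Fin m → ℝ) : Prop :=
  (∀ i, 0 ≤ r i) ∧ - scal e R = es r 1 ∧
    (2 ≤ m → normSq e R - 4 * ricSq e R + scal e R ^ 2 = 2 * es r 2) ∧
    ∀ s, (-1) ^ m * gbc e (shiftT R (-s)) = gpoly m (es r) s / (4 * Real.pi) ^ m

end defs

section forms

variable {V : Type} [NormedAddCommGroup V] [InnerProductSpace ℝ V] {m : ℕ}
  {ι K : Type} [Fintype ι] [Fintype K] [DecidableEq ι] [DecidableEq K]

theorem forms_gbc (e : OrthonormalBasis (Fin m × Bool) ℝ V) (R : V → V → V → V → ℝ)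
    (B : ι × Option K → Fin m × Bool → Fin m × Bool → ℝ)
    (h : ∀ i j k l, R (e i) (e j) (e k) (e l) =
      -((∑ o, pw o * (B o i k * B o j l)) - ∑ o, pw o * (B o i l * B o j k))) (s : ℝ) :
    (-1) ^ m * gbc e (shiftT R (-s)) = 1 / ((4 * Real.pi) ^ m * m.factorial) * YY B s := by
  unfold YY
  refine gbc_of_forms e _ _ fun i j k l => ?_
  unfold shiftT
  rw [h, cp_unit]
  unfold unitCurv
  ring

theorem forms_scal (e : OrthonormalBasis (Fin m × Bool) ℝ V) (R : V → V → V → V → ℝ)
    (B : ι × Option K → Fin m × Bool → Fin m × Bool → ℝ)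
    (h : ∀ i j k l, R (e i) (e j) (e k) (e l) =
      -((∑ o, pw o * (B o i k * B o j l)) - ∑ o, pw o * (B o i l * B o j k))) :
    - scal e R = S1 B := by
  unfold scal S1
  simp only [h]
  simp only [Finset.sum_neg_distrib, neg_neg, Finset.sum_sub_distrib, mul_sub]
  congr 1
  · have h1 : ∀ o, pw o * (∑ i, B o i i) ^ 2 = ∑ i, ∑ j, pw o * (B o i i * B o j j) := by
      intro o
      rw [sq, Finset.sum_mul_sum, Finset.mul_sum]
      exact Finset.sum_congr rfl fun i _ => by rw [Finset.mul_sum]
    simp only [h1]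
    refine Eq.trans ?_ Finset.sum_comm
    exact Finset.sum_congr rfl fun i _ => Finset.sum_comm
  · have h1 : ∀ o, pw o * ∑ i, ∑ j, B o i j * B o j i = ∑ i, ∑ j, pw o * (B o i j * B o j i) := by
      intro o
      rw [Finset.mul_sum]
      exact Finset.sum_congr rfl fun i _ => by rw [Finset.mul_sum]
    simp only [h1]
    refine Eq.trans ?_ Finset.sum_comm
    exact Finset.sum_congr rfl fun i _ => Finset.sum_comm

theorem spec_of_forms (e : OrthonormalBasis (Fin m × Bool) ℝ V) (R : V → V → V → V → ℝ)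
    (B : ι × Option K → Fin m × Bool → Fin m × Bool → ℝ)
    (h : ∀ i j k l, R (e i) (e j) (e k) (e l) =
      -((∑ o, pw o * (B o i k * B o j l)) - ∑ o, pw o * (B o i l * B o j k))) {r : Fin m → ℝ}
    (hr : ∀ i, 0 ≤ r i) (h1 : S1 B = es r 1) (h0 : 2 ≤ m → H4 B = 2 * es r 2)
    (h2 : ∀ s, YY B s = m.factorial * gpoly m (es r) s) : Spec e R r := by
  refine ⟨hr, ?_, fun h2m => ?_, fun s => ?_⟩
  · rw [forms_scal e R B h, h1]
  · rw [← h0 h2m]
    have h3 : ∀ i j k l, R (e i) (e j) (e k) (e l) = R4 pw B i j k l := h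
    unfold normSq ricSq scal H4
    simp only [h3]
  · rw [forms_gbc e R B h, h2]
    have h3 : (m.factorial : ℝ) ≠ 0 := by positivity
    have h4 : (4 * Real.pi) ^ m ≠ 0 := by
      have := Real.pi_pos
      positivity
    field_simp

end forms

section causal

variable {V : Type} [NormedAddCommGroup V] [InnerProductSpace ℝ V] {m : ℕ}

/-- the spectrum of a sum of causal Gauss tensors -/
theorem causal_spec (hR' : N_Roots) (hN : N_Closed) (hP : N_Split) (hS' : M_Star) (hD : M_Second)
    (hF : P_Fourth) (hQ : P_Quad) (hm : 1 ≤ m) (e : OrthonormalBasis (Fin m × Bool) ℝ V) {r : ℕ} {N : Fin r → ℕ}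
    {S : Fin r → V → V → V → V → ℝ} (hS : ∀ i, CausalT (N i) (S i)) :
    ∃ r, Spec e (fun x y z w => ∑ i, S i x y z w) r := by
  classical
  choose b β hb hβ hc hSe using hS
  have hY := causal_YY hR' hN hP hS' hD hF hQ
    (famB (fun _ _ => (0 : ℝ)) (fun _ _ _ => 0)
      (fun a i j => b a (e i) (e j)) (fun a p i j => β a p (e i) (e j))) hm ?_ ?_
  · obtain ⟨r', hr', h1, h0, h2⟩ := hY
    refine ⟨r', spec_of_forms e _ _ (fun i j k l => ?_) hr' h1 h0 h2⟩
    rw [famB_sum, famB_sum]
    have h2 : ∀ a, S a (e i) (e j) (e k) (e l) =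
        -((b a (e i) (e k) * b a (e j) (e l) - ∑ p, β a p (e i) (e k) * β a p (e j) (e l)) -
          (b a (e i) (e l) * b a (e j) (e k) - ∑ p, β a p (e i) (e l) * β a p (e j) (e k))) := by
      intro a
      rw [hSe, Finset.sum_sub_distrib]
      ring
    have h3 : ∑ a, S a (e i) (e j) (e k) (e l) =
        -(∑ a, (b a (e i) (e k) * b a (e j) (e l) -
            ∑ p, β a p (e i) (e k) * β a p (e j) (e l)) -
          ∑ a, (b a (e i) (e l) * b a (e j) (e k) -
            ∑ p, β a p (e i) (e l) * β a p (e j) (e k))) := by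
      rw [← Finset.sum_sub_distrib, ← Finset.sum_neg_distrib]
      exact Finset.sum_congr rfl fun a _ => h2 a
    rw [h3]
    simp only [mul_zero, Finset.sum_const_zero]
    ring
  · rintro ⟨a, o⟩ i j
    cases a with
    | none =>
      cases o with
      | none => rfl
      | some p =>
        cases p with
        | inl p => rfl
        | inr q => rfl
    | some a =>
      cases o with
      | none => exact (hb a).symm _ _
      | some p =>
        cases p with
        | inl p =>
          show (if p.1 = a then β p.1 p.2 (e i) (e j) else 0) =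
            if p.1 = a then β p.1 p.2 (e j) (e i) else 0
          rw [(hβ p.1 p.2).symm]
        | inr q => rfl
  · intro a y
    cases a with
    | none =>
      have h1 : ∀ o, famB (fun _ _ => (0 : ℝ)) (fun _ _ _ => 0)
          (fun a i j => b a (e i) (e j)) (fun a p i j => β a p (e i) (e j)) (none, o) =
          fun _ _ => 0 := by
        intro o
        cases o with
        | none => rfl
        | some p =>
          cases p with
          | inl p => rfl
          | inr q => rfl
      simp only [h1, qf_zero']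
      simp
    | some a =>
      have h0 : qf (famB (fun _ _ => (0 : ℝ)) (fun _ _ _ => 0)
            (fun a i j => b a (e i) (e j)) (fun a p i j => β a p (e i) (e j))
            (some a, none)) y = b a (vec e y) (vec e y) := qf_bform (hb a) e y
      rw [h0]
      refine ⟨(hc a _).1, ?_⟩
      rw [Fintype.sum_sum_type]
      have h1 : ∀ q : (Fin m × Bool) × (Fin m × Bool), qf (famB (fun _ _ => (0 : ℝ))
          (fun _ _ _ => 0) (fun a i j => b a (e i) (e j)) (fun a p i j => β a p (e i) (e j))
          (some a, some (Sum.inr q))) y ^ 2 = 0 := by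
        intro p
        show qf (fun _ _ => (0 : ℝ)) y ^ 2 = 0
        rw [qf_zero']
        ring
      simp only [h1, Finset.sum_const_zero, add_zero]
      rw [sum_sigma_one a]
      · refine le_trans (le_of_eq ?_) (hc a (vec e y)).2
        refine Finset.sum_congr rfl fun k _ => ?_
        rw [← qf_bform (hβ a k) e y]
        congr 2
        funext i j
        show (if a = a then β a k (e i) (e j) else 0) = _
        rw [if_pos rfl]
      · intro p hp
        have h2 : famB (fun _ _ => (0 : ℝ)) (fun _ _ _ => 0)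
          (fun a i j => b a (e i) (e j)) (fun a p i j => β a p (e i) (e j))
          (some a, some (Sum.inl p)) = fun _ _ => 0 := by
          funext i j
          show (if p.1 = a then β p.1 p.2 (e i) (e j) else 0) = 0
          rw [if_neg hp]
        rw [h2, qf_zero']
        ring

theorem bform_comap {V' : Type} [NormedAddCommGroup V'] [InnerProductSpace ℝ V'] {h : V' → V' → ℝ}
    (hh : BForm h) (f : V →ₗ[ℝ] V') : BForm (fun x y => h (f x) (f y)) :=
  ⟨fun x y => hh.symm _ _, fun x x' y => by rw [map_add]; exact hh.add _ _ _,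
    fun t x y => by rw [map_smul]; exact hh.smul _ _ _⟩

theorem causal_comap {V' : Type} [NormedAddCommGroup V'] [InnerProductSpace ℝ V'] {N : ℕ}
    {S : V' → V' → V' → V' → ℝ} (h : CausalT N S) (f : V →ₗ[ℝ] V') :
    CausalT N (fun x y z w => S (f x) (f y) (f z) (f w)) := by
  obtain ⟨b, β, hb, hβ, hc, hS⟩ := h
  exact ⟨fun x y => b (f x) (f y), fun k x y => β k (f x) (f y), bform_comap hb f,
    fun k => bform_comap (hβ k) f, fun x => hc (f x), fun x y z w => hS _ _ _ _⟩

theorem approx_comap {V' : Type} [NormedAddCommGroup V'] [InnerProductSpace ℝ V']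
    {S : V' → V' → V' → V' → ℝ} (h : Approx S) (f : V →ₗ[ℝ] V') :
    Approx (fun x y z w => S (f x) (f y) (f z) (f w)) := by
  obtain ⟨g, hg, h1⟩ := h
  refine ⟨fun x y => g (f x) (f y), bform_comap hg f, fun ε hε => ?_⟩
  obtain ⟨N, h2⟩ := h1 ε hε
  exact ⟨N, causal_comap h2 f⟩

theorem curv_comap {V' : Type} [NormedAddCommGroup V'] [InnerProductSpace ℝ V']
    {T : V' → V' → V' → V' → ℝ} (h : AlgCurv T) (f : V →ₗ[ℝ] V') :
    AlgCurv (fun x y z w => T (f x) (f y) (f z) (f w)) where
  add x x' y z w := by rw [map_add]; exact h.add _ _ _ _ _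
  smul t x y z w := by rw [map_smul]; exact h.smul _ _ _ _ _
  anti x y z w := h.anti _ _ _ _
  pair x y z w := h.pair _ _ _ _
  bianchi x y z w := h.bianchi _ _ _ _

theorem SecondPull.approx {S : V → V → V → V → ℝ} (h : SecondPull S) : Approx S := by
  obtain ⟨V', _, _, _, f, T, hT, hS⟩ := h
  have h1 : S = fun x y z w => T (f x) (f y) (f z) (f w) := by
    funext x y z w
    exact hS x y z w
  rw [h1]
  exact approx_comap (second_approx hT) f

theorem SecondPull.curv {S : V → V → V → V → ℝ} (h : SecondPull S) : AlgCurv S := by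
  obtain ⟨V', _, _, _, f, T, hT, hS⟩ := h
  have h1 : S = fun x y z w => T (f x) (f y) (f z) (f w) := by
    funext x y z w
    exact hS x y z w
  rw [h1]
  exact curv_comap hT.1 f

/-- the cone is preserved by pullbacks, in particular by the restriction to subspaces -/
theorem NegCone.comap {V' : Type} [NormedAddCommGroup V'] [InnerProductSpace ℝ V']
    {R : V' → V' → V' → V' → ℝ} (h : NegCone R) (f : V →ₗ[ℝ] V') :
    NegCone (fun x y z w => R (f x) (f y) (f z) (f w)) := by
  obtain ⟨n, S, hS, hR⟩ := h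
  refine ⟨n, fun i x y z w => S i (f x) (f y) (f z) (f w), fun i => ?_, fun x y z w => hR _ _ _ _⟩
  rcases hS i with ⟨N, h1⟩ | ⟨U, i1, i2, i3, g, T, hT, h1⟩
  · exact Or.inl ⟨N, causal_comap h1 f⟩
  · exact Or.inr ⟨U, i1, i2, i3, g ∘ₗ f, T, hT, fun x y z w => h1 _ _ _ _⟩

/-- the spectrum of a sum of limits of causal Gauss tensors -/
theorem approx_spec (hR' : N_Roots) (hN : N_Closed) (hP : N_Split) (hS' : M_Star) (hD : M_Second)
    (hF : P_Fourth) (hQ : P_Quad) (hm : 1 ≤ m) (e : OrthonormalBasis (Fin m × Bool) ℝ V) {r : ℕ}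
    {S : Fin r → V → V → V → V → ℝ} (hS : ∀ i, Approx (S i)) :
    ∃ r, Spec e (fun x y z w => ∑ i, S i x y z w) r := by
  choose h hh hC using hS
  obtain ⟨T, hT⟩ : ∃ T : ℝ → V → V → V → V → ℝ, T = fun ε x y z w =>
      ∑ i, (S i x y z w - ε * (h i x z * h i y w - h i x w * h i y z)) := ⟨_, rfl⟩
  have hT0 : T 0 = fun x y z w => ∑ i, S i x y z w := by
    rw [hT]
    simp only [zero_mul, sub_zero]
  have h1 : ∀ ε : ℝ, 0 < ε → ∃ r, Spec e (T ε) r := by
    intro ε hε
    choose N hC using fun i => hC i ε hε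
    rw [hT]
    exact causal_spec hR' hN hP hS' hD hF hQ hm e hC
  have hc : ∀ x y z w, Continuous fun ε => T ε x y z w := by
    intro x y z w
    rw [hT]
    fun_prop
  rw [← hT0]
  clear hT0 hT
  have hlim : ∀ f : ℝ → ℝ, Continuous f → Tendsto f (𝓝[>] 0) (𝓝 (f 0)) := fun f hf =>
    (hf.tendsto 0).mono_left nhdsWithin_le_nhds
  have c1 : Continuous fun ε => - scal e (T ε) := by
    unfold scal
    fun_prop
  have c2 : Continuous fun ε => normSq e (T ε) - 4 * ricSq e (T ε) + scal e (T ε) ^ 2 := by
    unfold normSq ricSq scal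
    fun_prop
  have c3 : ∀ s, Continuous fun ε => (-1) ^ m * gbc e (shiftT (T ε) (-s)) := by
    intro s
    unfold gbc shiftT
    fun_prop
  have g1 : ∀ x : Option (Option ℝ), Continuous fun r : Fin m → ℝ =>
      (x.elim (es r 1) fun y => y.elim (if 2 ≤ m then 2 * es r 2 else 0) fun s =>
        gpoly m (es r) s / (4 * Real.pi) ^ m : ℝ) := by
    intro x
    rcases x with _ | _ | s
    · exact es_cont 1
    · simp only [Option.elim_some, Option.elim_none]
      split_ifs
      · exact (es_cont 2).const_mul _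
      · exact continuous_const
    · exact (gpoly_cont s).div_const _
  have g2 : ∀ x : Option (Option ℝ), Tendsto (fun ε : ℝ => (x.elim (- scal e (T ε)) fun y =>
      y.elim (if 2 ≤ m then normSq e (T ε) - 4 * ricSq e (T ε) + scal e (T ε) ^ 2 else 0) fun s =>
        (-1) ^ m * gbc e (shiftT (T ε) (-s)) : ℝ)) (𝓝[>] 0)
      (𝓝 (x.elim (- scal e (T 0)) fun y =>
      y.elim (if 2 ≤ m then normSq e (T 0) - 4 * ricSq e (T 0) + scal e (T 0) ^ 2 else 0) fun s =>
        (-1) ^ m * gbc e (shiftT (T 0) (-s)) : ℝ)) := by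
    intro x
    rcases x with _ | _ | s
    · exact hlim _ c1
    · simp only [Option.elim_some, Option.elim_none]
      split_ifs
      · exact hlim _ c2
      · exact tendsto_const_nhds
    · exact hlim _ (c3 s)
  have g3 : ∀ᶠ ε : ℝ in 𝓝[>] 0, ∃ r : Fin m → ℝ,
      (∀ i, 0 ≤ r i ∧ r i ≤ - scal e (T 0) + 1) ∧
      ∀ x : Option (Option ℝ), (x.elim (- scal e (T ε)) fun y =>
      y.elim (if 2 ≤ m then normSq e (T ε) - 4 * ricSq e (T ε) + scal e (T ε) ^ 2 else 0) fun s =>
        (-1) ^ m * gbc e (shiftT (T ε) (-s)) : ℝ) =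
        x.elim (es r 1) fun y => y.elim (if 2 ≤ m then 2 * es r 2 else 0) fun s =>
        gpoly m (es r) s / (4 * Real.pi) ^ m := by
    filter_upwards [(hlim _ c1).eventually (gt_mem_nhds (lt_add_one _)), self_mem_nhdsWithin]
      with ε hε hε0
    obtain ⟨r, hr, h6, h8, h7⟩ := h1 ε hε0
    refine ⟨r, fun i => ⟨hr i, (le_es_one hr i).trans ?_⟩, fun x => ?_⟩
    · rw [← h6]
      exact hε.le
    · rcases x with _ | _ | s
      · exact h6
      · simp only [Option.elim_some, Option.elim_none]
        split_ifs with h9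
        · exact h8 h9
        · rfl
      · exact h7 s
  obtain ⟨r, hr, h6⟩ := hN m ℝ (Option (Option ℝ)) (𝓝[>] 0) _ _ _ _ g1 g2 g3
  refine ⟨r, hr, h6 none, fun h2m => ?_, fun s => h6 (some (some s))⟩
  have h7 := h6 (some none)
  simp only [Option.elim_some, Option.elim_none, if_pos h2m] at h7
  exact h7

/-- **The spectrum of a tensor of the cone.** -/
theorem cone_spec (hR' : N_Roots) (hN : N_Closed) (hP : N_Split) (hS' : M_Star) (hD : M_Second)
    (hF : P_Fourth) (hQ : P_Quad) (hm : 1 ≤ m) (e : OrthonormalBasis (Fin m × Bool) ℝ V)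
    {R : V → V → V → V → ℝ} (h : NegCone R) : ∃ r, Spec e R r := by
  obtain ⟨n, S, hS, hR⟩ := h
  have h1 : ∀ i, Approx (S i) := by
    intro i
    rcases hS i with ⟨N, h1⟩ | h1
    · exact h1.approx
    · exact h1.approx
  have h2 : R = fun x y z w => ∑ i, S i x y z w := by
    funext x y z w
    exact hR x y z w
  rw [h2]
  exact approx_spec hR' hN hP hS' hD hF hQ hm e h1

end causal

end Pool.Agent.H783.HM
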