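import Pool.Agent.H783.HM.Final

/-!
# Einstein tensors; integrated forms
-/

set_option autoImplicit false
set_option linter.unusedSectionVars false
set_option linter.unusedVariables false

namespace Pool.Agent.H783.HM

open Filter Topology MeasureTheory
open Pool.Agent.H783.HL
open Pool.Agent.W666.GB Pool.Agent.W669.HD Pool.Agent.Y519.HB

section point

variable {V : Type} [NormedAddCommGroup V] [InnerProductSpace ℝ V] {m : ℕ}

/-- tensors of the cone are algebraic curvature tensors -/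
theorem NegCone.curv {R : V → V → V → V → ℝ} (h : NegCone R) : AlgCurv R := by
  obtain ⟨n, S, hS, hR⟩ := h
  have h1 : R = fun x y z w => ∑ i, S i x y z w := by
    funext x y z w
    exact hR x y z w
  rw [h1]
  refine sum_curv fun i => ?_
  rcases hS i with ⟨N, h1⟩ | h1
  · exact h1.curv
  · exact h1.curv

/-- **Submanifolds.** -/
theorem submanifold_cone {W : Type} [NormedAddCommGroup W] [InnerProductSpace ℝ W]
    [FiniteDimensional ℝ W] (E : Submodule ℝ V) {c δ : ℝ} (hc : δ ≤ c)
    {R : V → V → V → V → ℝ} (hR : NegCone (shiftT R c)) {β : E → E → W} (hs : SecondFF β)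
    (hβ : ∀ x, ‖β x x‖ ^ 2 ≤ (c - δ) * ‖x‖ ^ 4) :
    NegCone (shiftT (fun x y z w : E => R x y z w +
      inner ℝ (β x z) (β y w) - inner ℝ (β x w) (β y z)) δ) := by
  obtain ⟨n, S, hS, h1⟩ := hR.comap E.subtype
  refine ⟨n + 1, Fin.cons (Pool.Agent.N565.LZ.gaussT (c - δ) β) S, fun i => ?_,
    fun x y z w => ?_⟩
  · refine Fin.cases ?_ (fun i => ?_) i
    · exact Or.inl ⟨_, bounded_causal hs (by linarith) hβ⟩
    · exact hS i
  · rw [Fin.sum_univ_succ]
    simp only [Fin.cons_zero, Fin.cons_succ]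
    rw [← h1]
    unfold Pool.Agent.N565.LZ.gaussT shiftT unitT
    simp only [Submodule.coe_inner, Submodule.subtype_apply]
    ring

theorem einstein_shift (e : OrthonormalBasis (Fin m × Bool) ℝ V) {R : V → V → V → V → ℝ}
    {κ : ℝ} (h : Einstein e R κ) (t : ℝ) : Einstein e (shiftT R t) (κ + t) := by
  intro y w
  unfold shiftT
  rw [Finset.sum_add_distrib, h y w, ← Finset.mul_sum]
  have h1 : ∑ i, unitT (e i) y (e i) w = (2 * m - 1) * inner ℝ y w := by
    unfold unitT
    rw [Finset.sum_sub_distrib]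
    have h2 : ∀ i, inner ℝ (e i) (e i) = (1 : ℝ) := by
      intro i
      rw [orthonormal_iff_ite.mp e.orthonormal i i, if_pos rfl]
    have h3 : ∑ i, inner ℝ (e i) w * inner ℝ y (e i) = (inner ℝ y w : ℝ) := by
      rw [← e.sum_inner_mul_inner y w]
      exact Finset.sum_congr rfl fun i _ => by ring
    simp only [h2, one_mul]
    rw [h3, Finset.sum_const, Finset.card_univ, Fintype.card_prod, Fintype.card_fin,
      Fintype.card_bool, nsmul_eq_mul]
    push_cast
    ring
  rw [h1]
  ring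

/-- the norm of a shifted tensor -/
theorem norm_shift (e : OrthonormalBasis (Fin m × Bool) ℝ V) {R : V → V → V → V → ℝ}
    (hR : AlgCurv R) (t : ℝ) : normSq e (shiftT R t) =
      normSq e R + 4 * t * scal e R + 4 * m * (2 * m - 1) * t ^ 2 := by
  have h0 : ∀ i j k l, shiftT R t (e i) (e j) (e k) (e l) ^ 2 =
      R (e i) (e j) (e k) (e l) ^ 2 + (2 * t) * (unitCurv i j k l * R (e i) (e j) (e k) (e l)) +
        t ^ 2 * (unitCurv i j k l * unitCurv i j k l) := by
    intro i j k l
    unfold shiftT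
    rw [cp_unit]
    ring
  have h1 : ∀ (F : Fin m × Bool → Fin m × Bool → ℝ) (i j : Fin m × Bool),
      ∑ k, ∑ l, unitCurv i j k l * F k l = F i j - F j i := by
    intro F i j
    unfold unitCurv
    simp only [sub_mul, Finset.sum_sub_distrib]
    congr 1
    · rw [Finset.sum_eq_single i]
      · rw [Finset.sum_eq_single j]
        · simp
        · intro l _ hl
          rw [if_neg (Ne.symm hl)]
          ring
        · simp
      · intro k _ hk
        refine Finset.sum_eq_zero fun l _ => ?_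
        rw [if_neg (Ne.symm hk)]
        ring
      · simp
    · rw [Finset.sum_eq_single j]
      · rw [Finset.sum_eq_single i]
        · simp
        · intro l _ hl
          rw [if_neg (Ne.symm hl)]
          ring
        · simp
      · intro k _ hk
        refine Finset.sum_eq_zero fun l _ => ?_
        rw [if_neg (Ne.symm hk)]
        ring
      · simp
  unfold normSq
  simp only [h0, Finset.sum_add_distrib, ← Finset.mul_sum]
  have h2 : ∑ i, ∑ j, ∑ k, ∑ l, unitCurv i j k l * R (e i) (e j) (e k) (e l) =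
      2 * scal e R := by
    have h3 : ∀ i j, ∑ k, ∑ l, unitCurv i j k l * R (e i) (e j) (e k) (e l) =
        2 * R (e i) (e j) (e i) (e j) := by
      intro i j
      rw [h1 (fun k l => R (e i) (e j) (e k) (e l)) i j]
      have h4 : R (e i) (e j) (e j) (e i) = - R (e i) (e j) (e i) (e j) := by
        rw [hR.pair, hR.anti, hR.pair]
      rw [h4]
      ring
    simp only [h3, ← Finset.mul_sum]
    rfl
  have h3 : ∑ i : Fin m × Bool, ∑ j, ∑ k, ∑ l, unitCurv i j k l * unitCurv i j k l =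
      4 * m * (2 * m - 1) := by
    have h4 : ∀ i j : Fin m × Bool, ∑ k, ∑ l, unitCurv i j k l * unitCurv i j k l =
        2 - 2 * (if i = j then (1 : ℝ) else 0) := by
      intro i j
      rw [h1 (fun k l => unitCurv i j k l) i j]
      unfold unitCurv
      by_cases hij : i = j
      · subst hij
        simp
      · simp [hij, Ne.symm hij]
        norm_num
    simp only [h4, Finset.sum_sub_distrib, ← Finset.mul_sum]
    have h5 : ∀ i : Fin m × Bool, ∑ j, (if i = j then (1 : ℝ) else 0) = 1 := by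
      intro i
      simp
    simp only [h5, Finset.sum_const, Finset.card_univ, Fintype.card_prod, Fintype.card_fin,
      Fintype.card_bool, nsmul_eq_mul]
    push_cast
    ring
  rw [h2, h3]
  ring

/-- **The Weyl curvature of Einstein tensors.** -/
theorem weyl_bound (hm : 2 ≤ m) (e : OrthonormalBasis (Fin m × Bool) ℝ V)
    {R : V → V → V → V → ℝ} {κ δ : ℝ} (h : NegCone (shiftT R δ)) (hE : Einstein e R (-κ)) :
    normSq e (shiftT R κ) ≤ 8 * m * (m - 1) * (2 * m - 1) * (κ - δ) ^ 2 := by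
  have h1 := einstein_shift e hE δ
  obtain ⟨h2, h3⟩ := einstein_ric e h1
  have h4 := norm_bound (by omega) e h hm
  have h5 := norm_shift e h.curv (κ - δ)
  have h6 : shiftT (shiftT R δ) (κ - δ) = shiftT R κ := by
    funext x y z w
    unfold shiftT
    ring
  rw [h6] at h5
  rw [h5, h2]
  rw [h2, h3] at h4
  have hm0 : (0 : ℝ) < m := by
    have : 0 < m := by omega
    exact_mod_cast this
  have h7 : (2 * m * (2 * m - 1) * (-κ + δ)) ^ 2 / (m : ℝ) =
      4 * m * ((2 * m - 1) * (-κ + δ)) ^ 2 := by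
    field_simp
    ring
  rw [h7] at h4
  nlinarith [h4]

/-- Einstein tensors: the integrand -/
theorem einstein_point (hm : 1 ≤ m) (e : OrthonormalBasis (Fin m × Bool) ℝ V)
    {R : V → V → V → V → ℝ} {κ δ : ℝ} (hδ : 0 ≤ δ) (h : NegCone (shiftT R δ))
    (hE : Einstein e R (-κ)) :
    roundGB m 1 * (δ ^ (m - 1) * (m * κ - (m - 1) * δ)) ≤ (-1) ^ m * gbc e R ∧
      (-1) ^ m * gbc e R ≤ upGB m ((2 * m - 1) * (κ - δ)) δ := by
  have h1 := (comparison hm e hδ h (a := (2 * m - 1) * (κ - δ)) (by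
    rw [(einstein_ric e hE).1]
    ring)).2
  have h2 : lowGB m ((2 * m - 1) * (κ - δ)) δ =
      roundGB m 1 * (δ ^ (m - 1) * (m * κ - (m - 1) * δ)) := by
    have hm1 : (1 : ℝ) ≤ m := by exact_mod_cast hm
    have h9 : (2 * (m : ℝ) - 1) ≠ 0 := by linarith
    have h3 : (m : ℝ) * ((2 * m - 1) * (κ - δ)) / (2 * m - 1) = m * (κ - δ) := by
      rw [div_eq_iff h9]
      ring
    unfold lowGB
    rw [h3]
    ring
  rw [h2] at h1
  exact h1

theorem einstein_negT (e : OrthonormalBasis (Fin m × Bool) ℝ V) {R : V → V → V → V → ℝ}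
    {κ : ℝ} (h : Einstein e R κ) : Einstein e (negT R) (-κ) := by
  intro y w
  unfold negT
  rw [Finset.sum_neg_distrib, h y w]
  ring

/-- Einstein tensors of positive scalar curvature: the integrand -/
theorem einstein_point_pos (hm : 1 ≤ m) (e : OrthonormalBasis (Fin m × Bool) ℝ V)
    {R : V → V → V → V → ℝ} {κ δ : ℝ} (hδ : 0 ≤ δ) (h : NegCone (shiftT (negT R) δ))
    (hE : Einstein e R κ) : roundGB m 1 * (δ ^ (m - 1) * (m * κ - (m - 1) * δ)) ≤ gbc e R ∧
      gbc e R ≤ upGB m ((2 * m - 1) * (κ - δ)) δ := by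
  have h1 := einstein_point hm e hδ h (einstein_negT e hE)
  rw [gbc_neg] at h1
  exact h1

/-- the bound by the scalar curvature -/
theorem neg_bound (hm : 1 ≤ m) (e : OrthonormalBasis (Fin m × Bool) ℝ V)
    {R : V → V → V → V → ℝ} (h : NegCone R) :
    0 ≤ (-1) ^ m * gbc e R ∧
      (-1) ^ m * gbc e R ≤ (- scal e R / (4 * Real.pi * m)) ^ m := by
  have hpi := Real.pi_pos
  have hm0 : (0 : ℝ) < m := by exact_mod_cast hm
  have h0 : shiftT R 0 = R := shiftT_zero R
  obtain ⟨h1, h2, h3⟩ := comparison hm e (R := R) (δ := 0) (a := - scal e R / (2 * m)) le_rfl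
    (by rw [h0]; exact h) (by field_simp; ring)
  rw [upGB_zero hm] at h3
  have hm1 : (1 : ℝ) ≤ m := by exact_mod_cast hm
  have h4 : 0 ≤ lowGB m (- scal e R / (2 * m)) 0 := by
    have h5 : (0 : ℝ) ≤ m * (- scal e R / (2 * m)) / (2 * m - 1) :=
      div_nonneg (mul_nonneg hm0.le h1) (by linarith)
    have h6 := roundGB_nonneg (m := m) zero_le_one
    unfold lowGB
    positivity
  refine ⟨h4.trans h2, h3.trans (le_of_eq ?_)⟩
  congr 1
  field_simp
  ring

end point

section integral

variable {m : ℕ} {M : Type} [MeasurableSpace M]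

/-- the integrated bound -/
theorem int_bound (hm : 1 ≤ m) (μ : Measure M) (K : CurvField m M)
    (h : ∀ p, NegCone (K.R p))
    (hi : Integrable (fun p => (- scal (K.e p) (K.R p) / (4 * Real.pi * m)) ^ m) μ) :
    0 ≤ (-1) ^ m * ∫ p, K.gb p ∂μ ∧ (-1) ^ m * ∫ p, K.gb p ∂μ ≤
      ∫ p, (- scal (K.e p) (K.R p) / (4 * Real.pi * m)) ^ m ∂μ := by
  rw [← integral_const_mul]
  have h1 := fun p => neg_bound hm (K.e p) (h p)
  refine ⟨integral_nonneg fun p => (h1 p).1, ?_⟩
  exact integral_mono_of_nonneg (Filter.Eventually.of_forall fun p => (h1 p).1) hi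
    (Filter.Eventually.of_forall fun p => (h1 p).2)

/-- **Einstein metrics of negative scalar curvature.** -/
theorem einstein_neg (hm : 1 ≤ m) (μ : Measure M) [IsFiniteMeasure μ] (K : CurvField m M)
    (hi : Integrable K.gb μ) {κ δ : ℝ} (hδ : 0 ≤ δ)
    (h : ∀ p, NegCone (shiftT (K.R p) δ) ∧ Einstein (K.e p) (K.R p) (-κ)) :
    roundGB m 1 * (δ ^ (m - 1) * (m * κ - (m - 1) * δ)) * μ.real Set.univ ≤
        (-1) ^ m * ∫ p, K.gb p ∂μ ∧
      (-1) ^ m * ∫ p, K.gb p ∂μ ≤ upGB m ((2 * m - 1) * (κ - δ)) δ * μ.real Set.univ := by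
  rw [← integral_const_mul]
  have h1 := fun p => einstein_point hm (K.e p) hδ (h p).1 (h p).2
  have h2 : ∀ c : ℝ, c * μ.real Set.univ = ∫ _, c ∂μ := fun c => by
    rw [integral_const, smul_eq_mul, mul_comm]
  rw [h2, h2]
  exact ⟨integral_mono (integrable_const _) (hi.const_mul _) fun p => (h1 p).1,
    integral_mono (hi.const_mul _) (integrable_const _) fun p => (h1 p).2⟩

/-- **Einstein metrics of positive scalar curvature.** -/
theorem einstein_pos (hm : 1 ≤ m) (μ : Measure M) [IsFiniteMeasure μ] (K : CurvField m M)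
    (hi : Integrable K.gb μ) {κ δ : ℝ} (hδ : 0 ≤ δ)
    (h : ∀ p, NegCone (shiftT (negT (K.R p)) δ) ∧ Einstein (K.e p) (K.R p) κ) :
    roundGB m 1 * (δ ^ (m - 1) * (m * κ - (m - 1) * δ)) * μ.real Set.univ ≤ ∫ p, K.gb p ∂μ ∧
      ∫ p, K.gb p ∂μ ≤ upGB m ((2 * m - 1) * (κ - δ)) δ * μ.real Set.univ := by
  have h1 := fun p => einstein_point_pos hm (K.e p) hδ (h p).1 (h p).2
  have h2 : ∀ c : ℝ, c * μ.real Set.univ = ∫ _, c ∂μ := fun c => by
    rw [integral_const, smul_eq_mul, mul_comm]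
  rw [h2, h2]
  exact ⟨integral_mono (integrable_const _) hi fun p => (h1 p).1,
    integral_mono hi (integrable_const _) fun p => (h1 p).2⟩

/-- **Einstein metrics of positive scalar curvature, with the volume bound of Bishop.** -/
theorem einstein_bishop (hm : 1 ≤ m) (μ : Measure M) [IsFiniteMeasure μ] (K : CurvField m M)
    (hi : Integrable K.gb μ) {κ : ℝ} (hκ : 0 < κ)
    (h : ∀ p, NegCone (negT (K.R p)) ∧ Einstein (K.e p) (K.R p) κ)
    (hvol : κ ^ m * μ.real Set.univ ≤ 2 ^ (2 * m + 1) * Real.pi ^ m * m.factorial /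
      (2 * m).factorial) :
    ∫ p, K.gb p ∂μ ≤ 2 ^ (m + 1) * (2 * m - 1) ^ m * m.factorial / (2 * m).factorial := by
  have h1 := (einstein_pos hm μ K hi (κ := κ) (δ := 0) le_rfl fun p => ⟨by
    rw [shiftT_zero]; exact (h p).1, (h p).2⟩).2
  rw [sub_zero, upGB_zero hm] at h1
  refine h1.trans ?_
  have hpi := Real.pi_pos
  have hm1 : (1 : ℝ) ≤ m := by exact_mod_cast hm
  have h0 : (0 : ℝ) ≤ (2 * m - 1) / (2 * Real.pi) := by
    apply div_nonneg <;> linarith
  calc ((2 * m - 1) * κ / (2 * Real.pi)) ^ m * μ.real Set.univ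
      = ((2 * m - 1) / (2 * Real.pi)) ^ m * (κ ^ m * μ.real Set.univ) := by
        rw [mul_div_right_comm, mul_pow]
        ring
    _ ≤ ((2 * m - 1) / (2 * Real.pi)) ^ m * (2 ^ (2 * m + 1) * Real.pi ^ m * m.factorial /
          (2 * m).factorial) := mul_le_mul_of_nonneg_left hvol (pow_nonneg h0 m)
    _ = _ := by
        rw [div_pow, mul_pow, pow_succ 2 (2 * m), pow_succ 2 m, pow_mul, show (2 : ℝ) ^ 2 = 2 * 2 by
          norm_num, mul_pow 2 2 m]
        field_simp

/-- **Products of planes have minimal volume.** -/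
theorem minimal_volume (hm : 1 ≤ m) {M' : Type} [MeasurableSpace M'] (μ : Measure M)
    [IsFiniteMeasure μ] (μ' : Measure M') [IsFiniteMeasure μ'] (K : CurvField m M)
    (K' : CurvField m M') (hi : Integrable K.gb μ) {κ : ℝ} (hκ : 0 < κ)
    (h : ∀ p, NegCone (K.R p) ∧ Einstein (K.e p) (K.R p) (-κ))
    (h' : ∀ p, K'.R p = planes (K'.e p) fun _ => (2 * m - 1) * κ)
    (hχ : ∫ p, K.gb p ∂μ = ∫ p, K'.gb p ∂μ') : μ'.real Set.univ ≤ μ.real Set.univ := by
  have hm1 : (1 : ℝ) ≤ m := by exact_mod_cast hm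
  have ha : 0 < (2 * m - 1) * κ := mul_pos (by linarith) hκ
  have h1 := (einstein_neg hm μ K hi (κ := κ) (δ := 0) le_rfl fun p => ⟨by
    rw [shiftT_zero]; exact (h p).1, (h p).2⟩).2
  rw [sub_zero] at h1
  have h2 : ∀ p, (-1) ^ m * K'.gb p = upGB m ((2 * m - 1) * κ) 0 := by
    intro p
    have h3 := upGB_planes (K'.e p) ha.le 0
    rw [neg_zero, shiftT_zero, ← h' p] at h3
    exact h3
  rw [hχ, ← integral_const_mul] at h1
  simp only [h2, integral_const, smul_eq_mul] at h1
  have h3 : 0 < upGB m ((2 * m - 1) * κ) 0 := by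
    rw [upGB_zero hm]
    have hpi := Real.pi_pos
    positivity
  rw [mul_comm (μ'.real Set.univ)] at h1
  exact le_of_mul_le_mul_left h1 h3

end integral

end Pool.Agent.H783.HM
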