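import Pool.Agent.H783.HM.Stm3

/-!
# The fourth derivatives of the determinant at the identity (helper93 for helper783)
-/

set_option autoImplicit false

namespace Pool.Agent.H783.HM

namespace F93

open MvPolynomial

section jac

variable {R J : Type} [CommRing R] [Algebra ℝ R] [Fintype J] [DecidableEq J]

theorem der_prod (D : Derivation ℝ R R) {ι : Type} [DecidableEq ι] (s : Finset ι) (f : ι → R) :
    D (∏ i ∈ s, f i) = ∑ i ∈ s, (∏ j ∈ s.erase i, f j) * D (f i) := by
  induction s using Finset.induction_on with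
  | empty => simp
  | insert a s ha ih =>
    rw [Finset.prod_insert ha, D.leibniz, ih, Finset.sum_insert ha, Finset.erase_insert ha,
      smul_eq_mul, smul_eq_mul, Finset.mul_sum, add_comm]
    congr 1
    refine Finset.sum_congr rfl fun i hi => ?_
    have hai : a ≠ i := fun h => ha (h ▸ hi)
    have h1 : (insert a s).erase i = insert a (s.erase i) := Finset.erase_insert_of_ne hai
    have h2 : a ∉ s.erase i := fun h => ha (Finset.mem_of_mem_erase h)
    rw [h1, Finset.prod_insert h2, mul_assoc]

/-- the entrywise derivative -/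
def dm (D : Derivation ℝ R R) (M : Matrix J J R) : Matrix J J R := Matrix.of fun i j => D (M i j)

omit [DecidableEq J] in
theorem dm_mul (D : Derivation ℝ R R) (M N : Matrix J J R) :
    dm D (M * N) = dm D M * N + M * dm D N := by
  ext i j
  simp only [dm, Matrix.of_apply, Matrix.mul_apply, Matrix.add_apply, map_sum, Derivation.leibniz,
    smul_eq_mul]
  rw [← Finset.sum_add_distrib]
  refine Finset.sum_congr rfl fun k _ => ?_
  ring

omit [Fintype J] in
theorem dm_smul_one (D : Derivation ℝ R R) (c : R) :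
    dm D (c • (1 : Matrix J J R)) = (D c) • (1 : Matrix J J R) := by
  ext i j
  simp only [dm, Matrix.of_apply, Matrix.smul_apply, smul_eq_mul]
  by_cases h : i = j
  · subst h; simp
  · simp [Matrix.one_apply_ne h]

omit [Fintype J] [DecidableEq J] in
theorem dm_add (D : Derivation ℝ R R) (M N : Matrix J J R) : dm D (M + N) = dm D M + dm D N := by
  ext i j
  simp [dm]

omit [DecidableEq J] in
theorem tr_dm (D : Derivation ℝ R R) (M : Matrix J J R) : D M.trace = (dm D M).trace := by
  simp [dm, Matrix.trace, map_sum]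

/-- Jacobi's formula for a derivation -/
theorem jacobi (D : Derivation ℝ R R) (M : Matrix J J R) :
    D M.det = (M.adjugate * dm D M).trace := by
  have h1 : D M.det = ∑ i, (M.updateCol i (fun k => D (M k i))).det := by
    rw [Matrix.det_apply', map_sum]
    simp only [Matrix.det_apply']
    rw [Finset.sum_comm]
    refine Finset.sum_congr rfl fun σ _ => ?_
    have h2 : D (((Equiv.Perm.sign σ : ℤ) : R)) = 0 := by
      have : (((Equiv.Perm.sign σ : ℤ) : R)) = algebraMap ℝ R (((Equiv.Perm.sign σ : ℤ) : ℝ)) := by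
        rw [map_intCast]
      rw [this]
      exact D.map_algebraMap _
    rw [D.leibniz, h2, smul_zero, add_zero, smul_eq_mul, der_prod, Finset.mul_sum]
    refine Finset.sum_congr rfl fun i _ => ?_
    congr 1
    rw [← Finset.mul_prod_erase Finset.univ _ (Finset.mem_univ i), mul_comm]
    congr 1
    · simp
    · refine Finset.prod_congr rfl fun j hj => ?_
      rw [Matrix.updateCol_ne (Finset.ne_of_mem_erase hj)]
  rw [h1]
  unfold Matrix.trace
  refine Finset.sum_congr rfl fun i _ => ?_
  rw [← Matrix.cramer_apply, Matrix.cramer_eq_adjugate_mulVec, Matrix.diag_apply, Matrix.mul_apply]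
  rfl

end jac

section main

variable {κ J : Type} [Fintype κ] [DecidableEq κ] [Fintype J] [DecidableEq J]

/-- the matrix of polynomials -/
noncomputable def MM (B : κ → J → J → ℝ) : Matrix J J (MvPolynomial κ ℝ) :=
  Matrix.of fun i j => ∑ o, X o * C (B o i j)

/-- constant matrices -/
noncomputable def KK (N : J → J → ℝ) : Matrix J J (MvPolynomial κ ℝ) := Matrix.of fun i j => C (N i j)

omit [Fintype J] [DecidableEq J] in
theorem dm_MM (B : κ → J → J → ℝ) (o : κ) : dm (pderiv o) (MM B) = KK (B o) := by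
  ext i j : 2
  simp only [dm, MM, KK, Matrix.of_apply, map_sum]
  rw [Finset.sum_eq_single o]
  · rw [Derivation.leibniz, pderiv_X_self, pderiv_C]
    simp
  · intro b _ hb
    rw [Derivation.leibniz, pderiv_X_of_ne hb, pderiv_C]
    simp
  · intro h
    exact absurd (Finset.mem_univ o) h

omit [Fintype κ] [DecidableEq κ] [Fintype J] [DecidableEq J] in
theorem dm_KK (N : J → J → ℝ) (o : κ) : dm (pderiv o) (KK N : Matrix J J (MvPolynomial κ ℝ)) = 0 := by
  ext i j : 2
  simp only [dm, KK, Matrix.of_apply, pderiv_C]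
  rfl

omit [Fintype κ] [DecidableEq κ] in
theorem ev_smul_one (e : κ → ℝ) (c : MvPolynomial κ ℝ) :
    (eval e).mapMatrix (c • (1 : Matrix J J (MvPolynomial κ ℝ))) = (eval e c) • (1 : Matrix J J ℝ) := by
  ext i j
  rw [RingHom.mapMatrix_apply, Matrix.map_apply, Matrix.smul_apply, Matrix.smul_apply, smul_eq_mul,
    smul_eq_mul, map_mul]
  by_cases h : i = j
  · subst h; simp
  · simp [Matrix.one_apply_ne h]

omit [Fintype κ] [DecidableEq κ] in
theorem ev_KK (e : κ → ℝ) (N : J → J → ℝ) :
    (eval e).mapMatrix (KK N : Matrix J J (MvPolynomial κ ℝ)) = Matrix.of N := by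
  ext i j
  simp [KK, RingHom.mapMatrix_apply]

omit [Fintype κ] [DecidableEq κ] in
theorem ev_trace (e : κ → ℝ) (N : Matrix J J (MvPolynomial κ ℝ)) :
    eval e N.trace = ((eval e).mapMatrix N).trace := by
  simp [Matrix.trace, map_sum, RingHom.mapMatrix_apply]

end main

end F93

open MvPolynomial in
open Pool.Agent.H783.HL in
open F93 in
theorem fourth : P_Fourth := by
  intro κ J _ _ _ _ B e he _ o o'
  set M : Matrix J J (MvPolynomial κ ℝ) := MM B with hMdef
  set A := M.adjugate with hA
  set D1 : Derivation ℝ (MvPolynomial κ ℝ) (MvPolynomial κ ℝ) := pderiv o' with hD1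
  set D2 : Derivation ℝ (MvPolynomial κ ℝ) (MvPolynomial κ ℝ) := pderiv o with hD2
  set XX : Matrix J J (MvPolynomial κ ℝ) := KK (B o) with hXX
  set YY : Matrix J J (MvPolynomial κ ℝ) := KK (B o') with hYY
  have hp : dpoly B = M.det := rfl
  have d1M : dm D1 M = YY := dm_MM B o'
  have d2M : dm D2 M = XX := dm_MM B o
  have d1Y : dm D1 YY = 0 := dm_KK _ _
  have d2Y : dm D2 YY = 0 := dm_KK _ _
  have d2X : dm D2 XX = 0 := dm_KK _ _
  set p := M.det with hpdef
  set A1 := dm D1 A with hA1
  set A2 := dm D2 A with hA2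
  set A21 := dm D2 A1 with hA21
  set A22 := dm D2 A2 with hA22
  set A221 := dm D2 A21 with hA221
  -- the equations
  have E0 : M * A = p • (1 : Matrix J J (MvPolynomial κ ℝ)) := Matrix.mul_adjugate M
  have E1 : YY * A + M * A1 = (D1 p) • (1 : Matrix J J (MvPolynomial κ ℝ)) := by
    have := congrArg (dm D1) E0
    rwa [dm_mul, dm_smul_one, d1M] at this
  have E2 : XX * A + M * A2 = (D2 p) • (1 : Matrix J J (MvPolynomial κ ℝ)) := by
    have := congrArg (dm D2) E0
    rwa [dm_mul, dm_smul_one, d2M] at this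
  have E21 : YY * A2 + (XX * A1 + M * A21) =
      (D2 (D1 p)) • (1 : Matrix J J (MvPolynomial κ ℝ)) := by
    have := congrArg (dm D2) E1
    rwa [dm_add, dm_mul, dm_mul, dm_smul_one, d2M, d2Y, zero_mul, zero_add] at this
  have E22 : XX * A2 + (XX * A2 + M * A22) =
      (D2 (D2 p)) • (1 : Matrix J J (MvPolynomial κ ℝ)) := by
    have := congrArg (dm D2) E2
    rwa [dm_add, dm_mul, dm_mul, dm_smul_one, d2M, d2X, zero_mul, zero_add] at this
  have E221 : YY * A22 + (XX * A21 + (XX * A21 + M * A221)) =
      (D2 (D2 (D1 p))) • (1 : Matrix J J (MvPolynomial κ ℝ)) := by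
    have := congrArg (dm D2) E21
    rwa [dm_add, dm_add, dm_mul, dm_mul, dm_mul, dm_smul_one, d2M, d2X, d2Y, zero_mul, zero_mul,
      zero_add, zero_add] at this
  -- the traces
  have T1 : D1 p = (A * YY).trace := by rw [hpdef, jacobi, d1M]
  have T2 : D2 p = (A * XX).trace := by rw [hpdef, jacobi, d2M]
  have T21 : D2 (D1 p) = (A2 * YY).trace := by
    rw [T1, tr_dm, dm_mul, d2Y, mul_zero, add_zero]
  have T22 : D2 (D2 p) = (A2 * XX).trace := by
    rw [T2, tr_dm, dm_mul, d2X, mul_zero, add_zero]
  have T221 : D2 (D2 (D1 p)) = (A22 * YY).trace := by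
    rw [T21, tr_dm, dm_mul, d2Y, mul_zero, add_zero]
  have T2211 : D2 (D2 (D1 (D1 p))) = (A221 * YY).trace := by
    have h1 : D1 (D1 p) = (A1 * YY).trace := by
      rw [T1, tr_dm, dm_mul, d1Y, mul_zero, add_zero]
    rw [h1, tr_dm, dm_mul, d2Y, mul_zero, add_zero, tr_dm, dm_mul, d2Y, mul_zero, add_zero]
  -- evaluation
  set Φ := (eval e).mapMatrix (m := J) with hΦ
  set x := Matrix.of (B o) with hx
  set y := Matrix.of (B o') with hy
  have fX : Φ XX = x := ev_KK e (B o)
  have fY : Φ YY = y := ev_KK e (B o')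
  have fM : Φ M = 1 := by
    ext i j
    rw [hΦ, RingHom.mapMatrix_apply, Matrix.map_apply, hMdef]
    simp only [MM, Matrix.of_apply, map_sum, map_mul, eval_X, eval_C]
    rw [he i j, Matrix.one_apply]
  have fp : eval e p = 1 := by
    rw [hpdef, RingHom.map_det]
    change (Φ M).det = 1
    rw [fM, Matrix.det_one]
  have fA : Φ A = 1 := by
    have := congrArg Φ E0
    rwa [map_mul, fM, one_mul, ev_smul_one, fp, one_smul] at this
  set p1 := eval e (D1 p) with hp1
  set p2 := eval e (D2 p) with hp2
  set p21 := eval e (D2 (D1 p)) with hp21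
  set p22 := eval e (D2 (D2 p)) with hp22
  set p221 := eval e (D2 (D2 (D1 p))) with hp221
  have f1 : Φ A1 = p1 • 1 - y := by
    have := congrArg Φ E1
    rw [map_add, map_mul, map_mul, fM, one_mul, ev_smul_one, fA, fY, mul_one] at this
    rw [← this]; abel
  have f2 : Φ A2 = p2 • 1 - x := by
    have := congrArg Φ E2
    rw [map_add, map_mul, map_mul, fM, one_mul, ev_smul_one, fA, fX, mul_one] at this
    rw [← this]; abel
  have f21 : Φ A21 = p21 • 1 - y * (p2 • 1 - x) - x * (p1 • 1 - y) := by
    have := congrArg Φ E21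
    rw [map_add, map_add, map_mul, map_mul, map_mul, fM, one_mul, ev_smul_one, fY, fX, f1, f2] at this
    rw [← this]; abel
  have f22 : Φ A22 = p22 • 1 - x * (p2 • 1 - x) - x * (p2 • 1 - x) := by
    have := congrArg Φ E22
    rw [map_add, map_add, map_mul, map_mul, fM, one_mul, ev_smul_one, fX, f2] at this
    rw [← this]; abel
  have f221 : Φ A221 = p221 • 1 - y * Φ A22 - x * Φ A21 - x * Φ A21 := by
    have := congrArg Φ E221
    rw [map_add, map_add, map_add, map_mul, map_mul, map_mul, fM, one_mul, ev_smul_one, fY, fX] at this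
    rw [← this]; abel
  have g1 : p1 = y.trace := by
    rw [hp1, T1, ev_trace]
    change (Φ (A * YY)).trace = _
    rw [map_mul, fA, fY, one_mul]
  have g2 : p2 = x.trace := by
    rw [hp2, T2, ev_trace]
    change (Φ (A * XX)).trace = _
    rw [map_mul, fA, fX, one_mul]
  have g21 : p21 = x.trace * y.trace - (x * y).trace := by
    rw [hp21, T21, ev_trace]
    change (Φ (A2 * YY)).trace = _
    rw [map_mul, f2, fY, g2, sub_mul, smul_mul_assoc, one_mul, Matrix.trace_sub,
      Matrix.trace_smul, smul_eq_mul]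
  have g22 : p22 = x.trace ^ 2 - (x * x).trace := by
    rw [hp22, T22, ev_trace]
    change (Φ (A2 * XX)).trace = _
    rw [map_mul, f2, fX, g2, sub_mul, smul_mul_assoc, one_mul, Matrix.trace_sub,
      Matrix.trace_smul, smul_eq_mul]
    ring
  have g221 : p221 = (x.trace ^ 2 - (x * x).trace) * y.trace - 2 * (x.trace * (x * y).trace) +
      2 * (x * x * y).trace := by
    rw [hp221, T221, ev_trace]
    change (Φ (A22 * YY)).trace = _
    rw [map_mul, f22, fY, g2, g22]
    simp only [sub_mul, mul_sub, smul_mul_assoc, mul_smul_comm, one_mul, mul_one, Matrix.trace_sub,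
      Matrix.trace_smul, smul_eq_mul]
    ring
  have hgoal : eval e (dd o (dd o' (dpoly B))) = (Φ A221 * y).trace := by
    have h1 : dd o (dd o' (dpoly B)) = D2 (D2 (D1 (D1 p))) := by
      rw [hp]; rfl
    rw [h1, T2211, ev_trace]
    change (Φ (A221 * YY)).trace = _
    rw [map_mul, fY]
  rw [hgoal, f221, f22, f21, g221, g22, g21, g1, g2]
  have c1 : (y * x * y).trace = (x * y * y).trace := by
    rw [Matrix.trace_mul_cycle, Matrix.trace_mul_cycle]
  have c2 : (y * x * x * y).trace = (x * x * y * y).trace := by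
    calc (y * x * x * y).trace = (y * (x * x * y)).trace := by simp only [mul_assoc]
      _ = ((x * x * y) * y).trace := Matrix.trace_mul_comm _ _
  unfold F4
  simp only [sub_mul, mul_sub, smul_mul_assoc, mul_smul_comm, one_mul, mul_one, Matrix.trace_sub,
    Matrix.trace_smul, smul_eq_mul, ← mul_assoc]
  rw [c1, c2]
  ring

end Pool.Agent.H783.HM
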