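import Pool.Agent.H783.HM.Stm3

set_option autoImplicit false

namespace Pool.Agent.H783.HM

namespace NewtAux

theorem esymm_cons (a : ℝ) (s : Multiset ℝ) (n : ℕ) :
    (a ::ₘ s).esymm (n + 1) = s.esymm (n + 1) + a * s.esymm n := by
  unfold Multiset.esymm
  rw [Multiset.powersetCard_cons, Multiset.map_add, Multiset.sum_add, Multiset.map_map]
  congr 1
  rw [← Multiset.sum_map_mul_left]
  congr 1
  refine Multiset.map_congr rfl (fun t _ => ?_)
  simp

theorem esymm_zero' (s : Multiset ℝ) : s.esymm 0 = 1 := by
  simp [Multiset.esymm]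

theorem esymm_one' (s : Multiset ℝ) : s.esymm 1 = s.sum := by
  induction s using Multiset.induction_on with
  | empty => simp [Multiset.esymm]
  | cons a s ih =>
    rw [esymm_cons, ih, esymm_zero', Multiset.sum_cons]
    ring

theorem esymm_two' (s : Multiset ℝ) :
    2 * s.esymm 2 = s.sum ^ 2 - (s.map (fun x => x ^ 2)).sum := by
  induction s using Multiset.induction_on with
  | empty => simp [Multiset.esymm]
  | cons a s ih =>
    rw [esymm_cons, mul_add, ih, esymm_one', Multiset.sum_cons, Multiset.map_cons,
      Multiset.sum_cons]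
    ring

theorem bern (x z : ℝ) (hx : 0 ≤ x) (hz : 0 ≤ z) (j : ℕ) :
    x ^ (j + 1) + (j + 1) * x ^ j * (z - x) ≤ z ^ (j + 1) := by
  induction j with
  | zero => simp
  | succ j ih =>
    have h1 : z * (x ^ (j + 1) + (j + 1) * x ^ j * (z - x)) ≤ z * z ^ (j + 1) :=
      mul_le_mul_of_nonneg_left ih hz
    have h2 : z ^ (j + 1 + 1) = z * z ^ (j + 1) := by ring
    rw [h2]
    refine le_trans ?_ h1
    have h3 : z * (x ^ (j + 1) + (j + 1) * x ^ j * (z - x)) -
        (x ^ (j + 1 + 1) + ((j + 1 : ℕ) + 1) * x ^ (j + 1) * (z - x)) =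
        (j + 1) * x ^ j * (z - x) ^ 2 := by
      push_cast
      ring
    have h4 : 0 ≤ (j + 1 : ℝ) * x ^ j * (z - x) ^ 2 := by positivity
    linarith

theorem mac (s : Multiset ℝ) (hs : ∀ x ∈ s, 0 ≤ x) (h0 : 0 < Multiset.card s) (j : ℕ) :
    s.esymm j ≤ (Multiset.card s).choose j * (s.sum / Multiset.card s) ^ j := by
  induction s using Multiset.induction_on generalizing j with
  | empty => simp at h0
  | cons a s ih =>
    have ha : 0 ≤ a := hs a (Multiset.mem_cons_self a s)
    have hs' : ∀ x ∈ s, 0 ≤ x := fun x hx => hs x (Multiset.mem_cons_of_mem hx)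
    cases j with
    | zero => simp [esymm_zero']
    | succ j =>
      rcases Nat.eq_zero_or_pos (Multiset.card s) with hc | hc
      · have : s = 0 := Multiset.card_eq_zero.1 hc
        subst this
        rw [esymm_cons]
        have e1 : ∀ n : ℕ, (0 : Multiset ℝ).esymm (n + 1) = 0 := by
          intro n
          simp [Multiset.esymm]
        rw [e1]
        cases j with
        | zero => simp [esymm_zero']
        | succ j =>
          rw [e1]
          simp
      · have i1 := ih hs' hc (j + 1)
        have i2 := ih hs' hc j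
        set N := Multiset.card s with hN
        have hNr : (0 : ℝ) < N := by exact_mod_cast hc
        set x := s.sum / N with hx
        have hx0 : 0 ≤ x := div_nonneg (Multiset.sum_nonneg hs') hNr.le
        have hsum : s.sum = N * x := by
          rw [hx]
          field_simp
        rw [esymm_cons, Multiset.card_cons, Multiset.sum_cons, ← hN]
        set z := (a + s.sum) / ((N + 1 : ℕ) : ℝ) with hz
        have hz0 : 0 ≤ z := by
          rw [hz, hsum]
          positivity
        have hzx : (N + 1 : ℝ) * (z - x) = a - x := by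
          rw [hz, hsum]
          push_cast
          field_simp
          ring
        have hb := bern x z hx0 hz0 j
        have c1 : ((N + 1 : ℕ).choose (j + 1) : ℝ) * (j + 1) = (N + 1) * (N.choose j : ℝ) := by
          have := Nat.add_one_mul_choose_eq N j
          have h : ((N + 1 : ℕ) : ℝ) * (N.choose j : ℝ) =
              ((N + 1).choose (j + 1) : ℝ) * ((j + 1 : ℕ) : ℝ) := by exact_mod_cast this
          push_cast at h
          linarith
        have c2 : ((N + 1 : ℕ).choose (j + 1) : ℝ) = N.choose j + N.choose (j + 1) := by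
          have := Nat.choose_succ_succ N j
          exact_mod_cast this
        have key : (N.choose (j + 1) : ℝ) * x ^ (j + 1) + a * (N.choose j * x ^ j) =
            ((N + 1 : ℕ).choose (j + 1) : ℝ) * (x ^ (j + 1) + (j + 1) * x ^ j * (z - x)) := by
          have e2 : ((N + 1 : ℕ).choose (j + 1) : ℝ) * ((j + 1) * x ^ j * (z - x)) =
              (N.choose j : ℝ) * x ^ j * (a - x) := by
            calc ((N + 1 : ℕ).choose (j + 1) : ℝ) * ((j + 1) * x ^ j * (z - x))
                = (((N + 1 : ℕ).choose (j + 1) : ℝ) * (j + 1)) * (x ^ j * (z - x)) := by ring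
              _ = ((N + 1) * (N.choose j : ℝ)) * (x ^ j * (z - x)) := by rw [c1]
              _ = (N.choose j : ℝ) * x ^ j * ((N + 1) * (z - x)) := by ring
              _ = _ := by rw [hzx]
          rw [mul_add, e2, c2]
          ring
        calc s.esymm (j + 1) + a * s.esymm j
            ≤ (N.choose (j + 1) : ℝ) * x ^ (j + 1) + a * (N.choose j * x ^ j) :=
              add_le_add i1 (mul_le_mul_of_nonneg_left i2 ha)
          _ = _ := key
          _ ≤ _ := mul_le_mul_of_nonneg_left hb (by positivity)

theorem es_eq {m : ℕ} (r : Fin m → ℝ) (j : ℕ) :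
    es r j = (Finset.univ.val.map r).esymm j := by
  rw [Finset.esymm_map_val]
  rfl

end NewtAux

open NewtAux in
theorem newt : P_Newton := by
  intro m r hm
  have h2 := esymm_two' (Finset.univ.val.map r)
  have h1 := esymm_one' (Finset.univ.val.map r)
  rw [← es_eq] at h1 h2
  rw [Multiset.map_map] at h2
  have e1 : (Finset.univ.val.map r).sum = ∑ i, r i := rfl
  have e2 : (Multiset.map ((fun x => x ^ 2) ∘ r) Finset.univ.val).sum = ∑ i, r i ^ 2 := rfl
  rw [e1] at h1 h2
  rw [e2] at h2
  have h3 := sq_sum_le_card_mul_sum_sq (s := (Finset.univ : Finset (Fin m))) (f := r)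
  rw [Finset.card_univ, Fintype.card_fin] at h3
  have hm' : (0 : ℝ) < m := by exact_mod_cast hm
  rw [h1]
  have h4 : (∑ i, r i) ^ 2 / m ≤ ∑ i, r i ^ 2 := by
    rw [div_le_iff₀ hm']
    linarith
  have h5 : (m - 1 : ℝ) / (2 * m) * (∑ i, r i) ^ 2 =
      ((∑ i, r i) ^ 2 - (∑ i, r i) ^ 2 / m) / 2 := by
    field_simp
  rw [h5]
  linarith

open NewtAux in
theorem macl : P_Maclaurin := by
  intro m r hm hr j _
  have h := mac (Finset.univ.val.map r) (by
    intro x hx
    rw [Multiset.mem_map] at hx
    obtain ⟨i, _, rfl⟩ := hx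
    exact hr i) (by
      rw [Multiset.card_map, Finset.card_val, Finset.card_univ, Fintype.card_fin]
      omega) j
  have h1 := esymm_one' (Finset.univ.val.map r)
  rw [← es_eq] at h h1
  rw [← h1] at h
  simpa using h

end Pool.Agent.H783.HM
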