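import Pool.Agent.H783.HM.Stm2
import Pool.Agent.H783.HL.Box2

/-!
# Iterated Laplacian of a product of squares
-/

set_option autoImplicit false

namespace Pool.Agent.H783.HM

open MvPolynomial Filter Topology
open Pool.Agent.H783.HL

namespace ProdPAux

theorem dbl {ι : Type} [DecidableEq ι] (s : Finset ι) (y : ι → ℝ) (j : ℕ) :
    ∑ a ∈ s, y a * ∑ t ∈ Finset.powersetCard j (s.erase a), ∏ i ∈ t, y i =
      (j + 1) * ∑ t ∈ Finset.powersetCard (j + 1) s, ∏ i ∈ t, y i := by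
  have h1 : (j + 1 : ℝ) * ∑ t ∈ Finset.powersetCard (j + 1) s, ∏ i ∈ t, y i =
      ∑ t ∈ Finset.powersetCard (j + 1) s, ∑ a ∈ t, ∏ i ∈ t, y i := by
    rw [Finset.mul_sum]
    refine Finset.sum_congr rfl fun t ht => ?_
    rw [Finset.sum_const, (Finset.mem_powersetCard.1 ht).2, nsmul_eq_mul]
    push_cast
    rfl
  rw [h1]
  have h2 : ∑ a ∈ s, y a * ∑ t ∈ Finset.powersetCard j (s.erase a), ∏ i ∈ t, y i =
      ∑ a ∈ s, ∑ t ∈ Finset.powersetCard j (s.erase a), ∏ i ∈ insert a t, y i := by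
    refine Finset.sum_congr rfl fun a _ => ?_
    rw [Finset.mul_sum]
    refine Finset.sum_congr rfl fun t ht => ?_
    rw [Finset.prod_insert]
    intro hat
    exact Finset.notMem_erase a s ((Finset.mem_powersetCard.1 ht).1 hat)
  rw [h2, Finset.sum_sigma', Finset.sum_sigma']
  refine Finset.sum_bij' (fun p _ => ⟨insert p.1 p.2, p.1⟩) (fun p _ => ⟨p.2, p.1.erase p.2⟩)
    ?_ ?_ ?_ ?_ ?_
  · rintro ⟨a, t⟩ h
    rw [Finset.mem_sigma, Finset.mem_powersetCard] at h
    obtain ⟨ha, ht, hc⟩ := h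
    have hat : a ∉ t := fun hat => Finset.notMem_erase a s (ht hat)
    rw [Finset.mem_sigma, Finset.mem_powersetCard]
    refine ⟨⟨?_, ?_⟩, Finset.mem_insert_self a t⟩
    · exact Finset.insert_subset ha (ht.trans (Finset.erase_subset a s))
    · rw [Finset.card_insert_of_notMem hat, hc]
  · rintro ⟨t, a⟩ h
    rw [Finset.mem_sigma, Finset.mem_powersetCard] at h
    obtain ⟨⟨ht, hc⟩, hat⟩ := h
    rw [Finset.mem_sigma, Finset.mem_powersetCard]
    refine ⟨ht hat, Finset.erase_subset_erase a ht, ?_⟩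
    rw [Finset.card_erase_of_mem hat, hc]
    rfl
  · rintro ⟨a, t⟩ h
    rw [Finset.mem_sigma, Finset.mem_powersetCard] at h
    obtain ⟨ha, ht, hc⟩ := h
    have hat : a ∉ t := fun hat => Finset.notMem_erase a s (ht hat)
    simp only [Finset.erase_insert hat]
  · rintro ⟨t, a⟩ h
    rw [Finset.mem_sigma] at h
    simp only [Finset.insert_erase h.2]
  · rintro ⟨a, t⟩ h
    rfl

variable {σ : Type} [Fintype σ] [DecidableEq σ] {m : ℕ}

noncomputable def P (o0 : σ) (o : Fin m → σ) (c : Fin m → ℝ) (s : Finset (Fin m)) :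
    MvPolynomial σ ℝ := ∏ a ∈ s, (X o0 + C (c a) * X (o a)) ^ 2

omit [Fintype σ] in
theorem pderiv_P_zero (o0 : σ) (o : Fin m → σ) (c : Fin m → ℝ) (s : Finset (Fin m)) (k : σ)
    (h0 : k ≠ o0) (h : ∀ a ∈ s, o a ≠ k) : pderiv k (P o0 o c s) = 0 := by
  unfold P
  induction s using Finset.induction_on with
  | empty => simp
  | insert a s ha ih =>
    rw [Finset.prod_insert ha, pderiv_mul, ih (fun b hb => h b (Finset.mem_insert_of_mem hb)),
      mul_zero, add_zero, pderiv_pow, map_add, pderiv_X_of_ne h0.symm, pderiv_C_mul,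
      pderiv_X_of_ne (h a (Finset.mem_insert_self a s)), mul_zero, add_zero, mul_zero, zero_mul]

omit [Fintype σ] in
theorem dd_P (o0 : σ) (o : Fin m → σ) (c : Fin m → ℝ) (ho : Function.Injective o)
    (h0 : ∀ a, o a ≠ o0) (s : Finset (Fin m)) (a : Fin m) (ha : a ∈ s) :
    dd (o a) (P o0 o c s) = C (2 * c a ^ 2) * P o0 o c (s.erase a) := by
  have h1 : P o0 o c s = (X o0 + C (c a) * X (o a)) ^ 2 * P o0 o c (s.erase a) := by
    unfold P
    rw [Finset.mul_prod_erase s (fun a => (X o0 + C (c a) * X (o a)) ^ 2) ha]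
  have h2 : pderiv (o a) (P o0 o c (s.erase a)) = 0 := by
    apply pderiv_P_zero _ _ _ _ _ (h0 a)
    intro b hb hba
    exact (Finset.mem_erase.1 hb).1 (ho hba)
  have h3 : pderiv (o a) (X o0 + C (c a) * X (o a) : MvPolynomial σ ℝ) = C (c a) := by
    rw [map_add, pderiv_X_of_ne (h0 a).symm, pderiv_C_mul, pderiv_X_self, mul_one, zero_add]
  unfold dd
  rw [h1, pderiv_mul, h2, mul_zero, add_zero, pderiv_mul, h2, mul_zero, add_zero]
  congr 1
  rw [pderiv_pow, h3]
  simp only [Nat.cast_ofNat, Nat.add_one_sub_one, pow_one]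
  rw [pderiv_mul, pderiv_mul, pderiv_C, h3]
  have h4 : pderiv (o a) (2 : MvPolynomial σ ℝ) = 0 := by
    have := pderiv_C (R := ℝ) (σ := σ) (a := (2 : ℝ)) (i := o a)
    rwa [map_ofNat] at this
  rw [h4]
  simp only [zero_mul, zero_add, mul_zero, add_zero, C_mul, C_pow, map_ofNat]
  ring

theorem lap_P (o0 : σ) (o : Fin m → σ) (c : Fin m → ℝ) (w : σ → ℝ) (ho : Function.Injective o)
    (h0 : ∀ a, o a ≠ o0) (hw0 : w o0 = 0) (hw : ∀ a, w (o a) = 1) (s : Finset (Fin m)) :
    lap w (P o0 o c s) = ∑ a ∈ s, (2 * c a ^ 2) • P o0 o c (s.erase a) := by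
  unfold lap
  have h1 : ∑ k, C (w k) * dd k (P o0 o c s) =
      ∑ k ∈ s.image o, C (w k) * dd k (P o0 o c s) := by
    symm
    apply Finset.sum_subset (Finset.subset_univ _)
    intro k _ hk
    by_cases hk0 : k = o0
    · rw [hk0, hw0, C_0, zero_mul]
    · have : pderiv k (P o0 o c s) = 0 := by
        apply pderiv_P_zero _ _ _ _ _ hk0
        intro a ha hak
        exact hk (Finset.mem_image.2 ⟨a, ha, hak⟩)
      unfold dd
      rw [this, map_zero, mul_zero]
  rw [h1, Finset.sum_image (fun a _ b _ h => ho h)]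
  refine Finset.sum_congr rfl fun a ha => ?_
  rw [hw, C_1, one_mul, dd_P o0 o c ho h0 s a ha, smul_eq_C_mul]

theorem main (o0 : σ) (o : Fin m → σ) (c : Fin m → ℝ) (w x : σ → ℝ)
    (ho : Function.Injective o) (h0 : ∀ a, o a ≠ o0) (hw0 : w o0 = 0) (hw : ∀ a, w (o a) = 1)
    (hx0 : x o0 = 1) (hx : ∀ a, x (o a) = 0) (j : ℕ) : ∀ s : Finset (Fin m),
    eval x ((lap w)^[j] (P o0 o c s)) =
      j.factorial * ∑ t ∈ Finset.powersetCard j s, ∏ i ∈ t, (2 * c i ^ 2) := by
  induction j with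
  | zero =>
    intro s
    rw [Function.iterate_zero_apply, Finset.powersetCard_zero, Finset.sum_singleton,
      Finset.prod_empty, Nat.factorial_zero, Nat.cast_one, mul_one]
    unfold P
    rw [map_prod]
    refine Finset.prod_eq_one fun a _ => ?_
    simp [hx0, hx]
  | succ j ih =>
    intro s
    rw [Function.iterate_succ_apply, lap_P o0 o c w ho h0 hw0 hw, ← lapL_pow, map_sum, map_sum]
    have h1 : ∀ a ∈ s, eval x ((lapL w ^ j) ((2 * c a ^ 2) • P o0 o c (s.erase a))) =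
        j.factorial * ((2 * c a ^ 2) *
          ∑ t ∈ Finset.powersetCard j (s.erase a), ∏ i ∈ t, (2 * c i ^ 2)) := by
      intro a _
      rw [map_smul, smul_eval, lapL_pow, ih]
      ring
    rw [Finset.sum_congr rfl h1, ← Finset.mul_sum, dbl s (fun i => 2 * c i ^ 2) j,
      Nat.factorial_succ]
    push_cast
    ring

end ProdPAux

theorem prodP : N_Prod := by
  intro m σ _ _ o0 o w x c ho h0 hw0 hw hx0 hx j
  exact ProdPAux.main o0 o c w x ho h0 hw0 hw hx0 hx j Finset.univ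

end Pool.Agent.H783.HM
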