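import Pool.Agent.H783.HM.Stm3

/-!
# The fourth Gauss–Bonnet curvature of a family of symmetric forms (task HM3-2, helper996)
-/

set_option autoImplicit false

namespace Pool.Agent.H783.HM

namespace QuadH996

open Finset

/-- the square of a weighted sum, summed over a finite type -/
theorem sqs {κ ι : Type} [Fintype κ] [Fintype ι] (w : κ → ℝ) (S : κ → ι → ℝ) :
    ∑ x, (∑ o, w o * S o x) ^ 2 = ∑ o, ∑ o', w o * w o' * ∑ x, S o x * S o' x := by
  have h : ∀ x, (∑ o, w o * S o x) ^ 2 = ∑ o, ∑ o', w o * w o' * (S o x * S o' x) := by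
    intro x
    rw [sq, Finset.sum_mul_sum]
    refine sum_congr rfl fun o _ => sum_congr rfl fun o' _ => ?_
    ring
  rw [sum_congr rfl fun x _ => h x, Finset.sum_comm]
  refine sum_congr rfl fun o _ => ?_
  rw [Finset.sum_comm]
  refine sum_congr rfl fun o' _ => ?_
  rw [Finset.mul_sum]

variable {J : Type} [Fintype J]

theorem gen (A C : Matrix J J ℝ) (hC : ∀ i j, C i j = C j i) :
    (A * C).trace = ∑ i, ∑ j, A i j * C i j := by
  unfold Matrix.trace
  refine sum_congr rfl fun i _ => ?_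
  rw [Matrix.diag_apply, Matrix.mul_apply]
  refine sum_congr rfl fun j _ => ?_
  rw [hC i j]

theorem sq_symm (Y : Matrix J J ℝ) (hY : ∀ i j, Y i j = Y j i) (i j : J) :
    (Y * Y) i j = (Y * Y) j i := by
  rw [Matrix.mul_apply, Matrix.mul_apply]
  refine sum_congr rfl fun k _ => ?_
  rw [hY i k, hY k j]
  ring

theorem swap4 (f : J → J → J → J → ℝ) :
    ∑ i, ∑ j, ∑ k, ∑ l, f i j l k = ∑ i, ∑ j, ∑ k, ∑ l, f i j k l := by
  refine sum_congr rfl fun i _ => sum_congr rfl fun j _ => ?_
  rw [Finset.sum_comm]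

theorem i1 (X Y : Matrix J J ℝ) (hY : ∀ i j, Y i j = Y j i) :
    ∑ i, ∑ j, ∑ k, ∑ l, (X i k * X j l - X i l * X j k) * (Y i k * Y j l - Y i l * Y j k) =
      2 * (X * Y).trace ^ 2 - 2 * (X * Y * X * Y).trace := by
  have hA : ∑ i, ∑ j, ∑ k, ∑ l, X i k * X j l * (Y i k * Y j l) = (X * Y).trace ^ 2 := by
    rw [gen X Y hY, sq, Finset.sum_mul_sum]
    refine sum_congr rfl fun i _ => sum_congr rfl fun j _ => ?_
    rw [Finset.sum_mul_sum]
    refine sum_congr rfl fun k _ => sum_congr rfl fun l _ => ?_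
    ring
  have hB : ∑ i, ∑ j, ∑ k, ∑ l, X i k * X j l * (Y i l * Y j k) = (X * Y * X * Y).trace := by
    rw [Matrix.mul_assoc (X * Y) X Y]
    unfold Matrix.trace
    refine sum_congr rfl fun i _ => ?_
    rw [Matrix.diag_apply, Matrix.mul_apply]
    refine sum_congr rfl fun j _ => ?_
    rw [Matrix.mul_apply, Matrix.mul_apply, Finset.sum_mul_sum]
    refine sum_congr rfl fun k _ => sum_congr rfl fun l _ => ?_
    rw [hY k j, hY l i]
    ring
  have hA' : ∑ i, ∑ j, ∑ k, ∑ l, X i l * X j k * (Y i l * Y j k) = (X * Y).trace ^ 2 := by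
    rw [← hA]
    exact swap4 fun i j k l => X i k * X j l * (Y i k * Y j l)
  have hB' : ∑ i, ∑ j, ∑ k, ∑ l, X i l * X j k * (Y i k * Y j l) = (X * Y * X * Y).trace := by
    rw [← hB]
    exact swap4 fun i j k l => X i k * X j l * (Y i l * Y j k)
  have h : ∑ i, ∑ j, ∑ k, ∑ l, (X i k * X j l - X i l * X j k) * (Y i k * Y j l - Y i l * Y j k) =
      (∑ i, ∑ j, ∑ k, ∑ l, X i k * X j l * (Y i k * Y j l)) -
        (∑ i, ∑ j, ∑ k, ∑ l, X i k * X j l * (Y i l * Y j k)) -
        (∑ i, ∑ j, ∑ k, ∑ l, X i l * X j k * (Y i k * Y j l)) +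
        ∑ i, ∑ j, ∑ k, ∑ l, X i l * X j k * (Y i l * Y j k) := by
    simp only [← sum_sub_distrib, ← sum_add_distrib]
    refine sum_congr rfl fun i _ => sum_congr rfl fun j _ => sum_congr rfl fun k _ =>
      sum_congr rfl fun l _ => ?_
    ring
  rw [h, hA, hB, hA', hB']
  ring

theorem i2 (X Y : Matrix J J ℝ) (hY : ∀ i j, Y i j = Y j i) :
    ∑ j, ∑ l, (X.trace * X j l - (X * X) j l) * (Y.trace * Y j l - (Y * Y) j l) =
      X.trace * Y.trace * (X * Y).trace - X.trace * (X * Y * Y).trace -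
        Y.trace * (X * X * Y).trace + (X * X * Y * Y).trace := by
  rw [Matrix.mul_assoc X Y Y, Matrix.mul_assoc (X * X) Y Y, gen X Y hY, gen X (Y * Y) (sq_symm Y hY),
    gen (X * X) Y hY, gen (X * X) (Y * Y) (sq_symm Y hY)]
  simp only [mul_sum, ← sum_sub_distrib, ← sum_add_distrib]
  refine sum_congr rfl fun j _ => sum_congr rfl fun l _ => ?_
  ring

/-- the curvature of one form -/
noncomputable def Kf {κ : Type} (B : κ → J → J → ℝ) (o : κ) (i j k l : J) : ℝ :=
  B o i k * B o j l - B o i l * B o j k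

omit [Fintype J] in
theorem R4_eq {κ : Type} [Fintype κ] (w : κ → ℝ) (B : κ → J → J → ℝ) (i j k l : J) :
    R4 w B i j k l = -∑ o, w o * Kf B o i j k l := by
  unfold R4 Kf
  rw [← sum_sub_distrib]
  congr 1
  refine sum_congr rfl fun o _ => ?_
  ring

end QuadH996

open QuadH996 in
theorem quad : P_Quad := by
  intro κ J _ _ _ _ w B hB
  have hs : ∀ o, ∀ i j, (Matrix.of (B o)) i j = (Matrix.of (B o)) j i := fun o i j => hB o i j
  -- the full tensor
  have h1 : ∑ i, ∑ j, ∑ k, ∑ l, R4 w B i j k l ^ 2 =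
      ∑ o, ∑ o', w o * w o' * (2 * (Matrix.of (B o) * Matrix.of (B o')).trace ^ 2 -
        2 * (Matrix.of (B o) * Matrix.of (B o') * Matrix.of (B o) * Matrix.of (B o')).trace) := by
    have e := sqs w (fun (o : κ) (x : J × J × J × J) => Kf B o x.1 x.2.1 x.2.2.1 x.2.2.2)
    simp only [Fintype.sum_prod_type] at e
    have e1 : ∑ i, ∑ j, ∑ k, ∑ l, R4 w B i j k l ^ 2 =
        ∑ i, ∑ j, ∑ k, ∑ l, (∑ o, w o * Kf B o i j k l) ^ 2 := by
      refine Finset.sum_congr rfl fun i _ => Finset.sum_congr rfl fun j _ =>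
        Finset.sum_congr rfl fun k _ => Finset.sum_congr rfl fun l _ => ?_
      rw [R4_eq, neg_sq]
    rw [e1, e]
    refine Finset.sum_congr rfl fun o _ => Finset.sum_congr rfl fun o' _ => ?_
    rw [← i1 (Matrix.of (B o)) (Matrix.of (B o')) (hs o')]
    rfl
  -- the Ricci part
  have hS : ∀ o j l, ∑ i, Kf B o i j i l =
      (Matrix.of (B o)).trace * (Matrix.of (B o)) j l - (Matrix.of (B o) * Matrix.of (B o)) j l := by
    intro o j l
    unfold Kf
    rw [Finset.sum_sub_distrib, ← Finset.sum_mul, Matrix.mul_apply]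
    have e1 : ∑ i, B o i i = (Matrix.of (B o)).trace := rfl
    rw [e1]
    congr 1
    refine Finset.sum_congr rfl fun i _ => ?_
    show B o i l * B o j i = B o j i * B o i l
    ring
  have h2 : ∑ j, ∑ l, (∑ i, R4 w B i j i l) ^ 2 =
      ∑ o, ∑ o', w o * w o' * ((Matrix.of (B o)).trace * (Matrix.of (B o')).trace *
          (Matrix.of (B o) * Matrix.of (B o')).trace -
        (Matrix.of (B o)).trace * (Matrix.of (B o) * Matrix.of (B o') * Matrix.of (B o')).trace -
        (Matrix.of (B o')).trace * (Matrix.of (B o) * Matrix.of (B o) * Matrix.of (B o')).trace +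
        (Matrix.of (B o) * Matrix.of (B o) * Matrix.of (B o') * Matrix.of (B o')).trace) := by
    have e := sqs w (fun (o : κ) (x : J × J) => ∑ i, Kf B o i x.1 i x.2)
    simp only [Fintype.sum_prod_type] at e
    have e1 : ∑ j, ∑ l, (∑ i, R4 w B i j i l) ^ 2 =
        ∑ j, ∑ l, (∑ o, w o * ∑ i, Kf B o i j i l) ^ 2 := by
      refine Finset.sum_congr rfl fun j _ => Finset.sum_congr rfl fun l _ => ?_
      have e2 : ∑ i, R4 w B i j i l = -∑ o, w o * ∑ i, Kf B o i j i l := by
        simp only [R4_eq, Finset.sum_neg_distrib, Finset.mul_sum]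
        rw [Finset.sum_comm]
      rw [e2, neg_sq]
    rw [e1, e]
    refine Finset.sum_congr rfl fun o _ => Finset.sum_congr rfl fun o' _ => ?_
    rw [← i2 (Matrix.of (B o)) (Matrix.of (B o')) (hs o')]
    simp only [hS]
  -- the scalar part
  have h3 : (∑ i, ∑ j, R4 w B i j i j) ^ 2 =
      ∑ o, ∑ o', w o * w o' * (((Matrix.of (B o)).trace ^ 2 -
          (Matrix.of (B o) * Matrix.of (B o)).trace) *
        ((Matrix.of (B o')).trace ^ 2 - (Matrix.of (B o') * Matrix.of (B o')).trace)) := by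
    have e2 : ∑ i, ∑ j, R4 w B i j i j = -∑ o, w o * ((Matrix.of (B o)).trace ^ 2 -
          (Matrix.of (B o) * Matrix.of (B o)).trace) := by
      have e3 : ∀ o, ∑ i, ∑ j, Kf B o i j i j = (Matrix.of (B o)).trace ^ 2 -
          (Matrix.of (B o) * Matrix.of (B o)).trace := by
        intro o
        unfold Kf
        simp only [Finset.sum_sub_distrib]
        rw [gen (Matrix.of (B o)) (Matrix.of (B o)) (hs o)]
        congr 1
        · have e4 : (Matrix.of (B o)).trace = ∑ i, B o i i := rfl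
          rw [e4, sq, Finset.sum_mul_sum]
        · refine Finset.sum_congr rfl fun i _ => Finset.sum_congr rfl fun j _ => ?_
          show B o i j * B o j i = B o i j * B o i j
          rw [hB o j i]
      simp only [R4_eq, Finset.sum_neg_distrib]
      congr 1
      have e5 : ∀ i, ∑ j, ∑ o, w o * Kf B o i j i j = ∑ o, ∑ j, w o * Kf B o i j i j :=
        fun i => Finset.sum_comm
      simp only [e5]
      rw [Finset.sum_comm]
      refine Finset.sum_congr rfl fun o _ => ?_
      rw [← e3 o]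
      simp only [Finset.mul_sum]
    rw [e2, neg_sq, sq, Finset.sum_mul_sum]
    refine Finset.sum_congr rfl fun o _ => Finset.sum_congr rfl fun o' _ => ?_
    ring
  rw [h1, h2, h3]
  simp only [Finset.mul_sum, ← Finset.sum_sub_distrib, ← Finset.sum_add_distrib]
  refine Finset.sum_congr rfl fun o _ => Finset.sum_congr rfl fun o' _ => ?_
  unfold F4
  ring

end Pool.Agent.H783.HM
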