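import Pool.Agent.H783.HM.Stm2

/-!
# N1 of project HM2: roots and elementary symmetric functions (by helper195; the polynomial `Q` and its
properties are copied from `Uni`, by helper722)
-/

set_option autoImplicit false

open Polynomial

namespace Pool.Agent.H783.HM

namespace RootsL

/-- the polynomial -/
noncomputable def Q (m : ℕ) (C : ℕ → ℝ) : ℂ[X] :=
  ∑ j ∈ Finset.range (m + 1), Polynomial.C ((-1) ^ j * (C j : ℂ)) * X ^ (m - j)

theorem Q_coeff (m : ℕ) (C : ℕ → ℝ) {i : ℕ} (hi : i ≤ m) :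
    (Q m C).coeff (m - i) = (-1) ^ i * (C i : ℂ) := by
  unfold Q
  rw [Polynomial.finsetSum_coeff, Finset.sum_eq_single i]
  · rw [Polynomial.coeff_C_mul_X_pow, if_pos rfl]
  · intro j hj hne
    have hj' : j ≤ m := by
      have := Finset.mem_range.1 hj
      omega
    rw [Polynomial.coeff_C_mul_X_pow, if_neg (by omega)]
  · intro h
    exact absurd (Finset.mem_range.2 (by omega)) h

theorem Q_eval (m : ℕ) (C : ℕ → ℝ) (z : ℂ) :
    (Q m C).eval (z ^ 2) = ∑ j ∈ Finset.range (m + 1), (-1) ^ j * (C j : ℂ) * z ^ (2 * (m - j)) := by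
  unfold Q
  rw [Polynomial.eval_finsetSum]
  refine Finset.sum_congr rfl fun j _ => ?_
  rw [Polynomial.eval_mul, Polynomial.eval_C, Polynomial.eval_pow, Polynomial.eval_X, ← pow_mul]

theorem Q_natDegree (m : ℕ) (C : ℕ → ℝ) (h0 : 0 < C 0) : (Q m C).natDegree = m := by
  apply le_antisymm
  · unfold Q
    refine Polynomial.natDegree_sum_le_of_forall_le _ _ fun j _ => ?_
    exact (Polynomial.natDegree_C_mul_X_pow_le _ _).trans (Nat.sub_le _ _)
  · apply Polynomial.le_natDegree_of_ne_zero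
    have h := Q_coeff m C (Nat.zero_le m)
    rw [Nat.sub_zero, pow_zero, one_mul] at h
    rw [h]
    exact_mod_cast h0.ne'

end RootsL

open RootsL in
theorem roots : N_Roots := by
  intro m C h0 hz
  have hdeg := Q_natDegree m C h0
  have hlead : (Q m C).leadingCoeff = (C 0 : ℂ) := by
    rw [Polynomial.leadingCoeff, hdeg]
    have h := Q_coeff m C (Nat.zero_le m)
    rwa [Nat.sub_zero, pow_zero, one_mul] at h
  have hsp : (Q m C).Splits := IsAlgClosed.splits _
  have hcard : (Q m C).roots.card = m := hsp.natDegree_eq_card_roots.symm.trans hdeg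
  have hroot : ∀ y ∈ (Q m C).roots, ((y.re : ℝ) : ℂ) = y ∧ 0 ≤ y.re := by
    intro y hy
    obtain ⟨z, hzy⟩ := IsAlgClosed.exists_pow_nat_eq y (n := 2) (by norm_num)
    have hev : (Q m C).eval y = 0 := (Polynomial.mem_roots'.1 hy).2
    have him : z.im = 0 := by
      by_contra hne
      apply hz z hne
      rw [← Q_eval, hzy, hev]
    have hzr : z = (z.re : ℂ) := by
      apply Complex.ext <;> simp [him]
    have hy2 : y = ((z.re ^ 2 : ℝ) : ℂ) := by
      rw [← hzy, hzr]
      push_cast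
      simp
    rw [hy2]
    constructor
    · rw [Complex.ofReal_re]
    · rw [Complex.ofReal_re]
      positivity
  obtain ⟨s, hs⟩ : ∃ s : Multiset ℝ, s = (Q m C).roots.map Complex.re := ⟨_, rfl⟩
  have hs1 : (Q m C).roots = s.map (fun x : ℝ => (x : ℂ)) := by
    rw [hs, Multiset.map_map]
    conv_lhs => rw [← Multiset.map_id (Q m C).roots]
    exact Multiset.map_congr rfl fun y hy => (hroot y hy).1.symm
  have hs0 : ∀ x ∈ s, 0 ≤ x := by
    intro x hx
    rw [hs, Multiset.mem_map] at hx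
    obtain ⟨y, hy, rfl⟩ := hx
    exact (hroot y hy).2
  have hsc : s.card = m := by rw [hs, Multiset.card_map, hcard]
  -- Vieta
  have hV : ∀ j ≤ m, (C j : ℂ) = (C 0 : ℂ) * (Q m C).roots.esymm j := by
    intro j hj
    have h1 := Polynomial.coeff_eq_esymm_roots_of_card (p := Q m C) (hcard.trans hdeg.symm)
      (k := m - j) (by rw [hdeg]; exact Nat.sub_le _ _)
    rw [Q_coeff m C hj, hlead, hdeg, Nat.sub_sub_self hj] at h1
    have h4 : ((-1 : ℂ) ^ j) * (-1) ^ j = 1 := by rw [← mul_pow]; norm_num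
    calc (C j : ℂ) = ((-1 : ℂ) ^ j * (-1) ^ j) * C j := by rw [h4, one_mul]
      _ = (-1) ^ j * ((-1) ^ j * C j) := by ring
      _ = (-1) ^ j * ((C 0 : ℂ) * (-1) ^ j * (Q m C).roots.esymm j) := by rw [h1]
      _ = ((-1 : ℂ) ^ j * (-1) ^ j) * ((C 0 : ℂ) * (Q m C).roots.esymm j) := by ring
      _ = (C 0 : ℂ) * (Q m C).roots.esymm j := by rw [h4, one_mul]
  obtain ⟨r, hr⟩ : ∃ r : Fin m → ℝ, s = Finset.univ.val.map r := by
    subst hsc
    refine ⟨fun i => s.toList.get (i.cast (Multiset.length_toList s).symm), ?_⟩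
    rw [Fin.univ_val_map]
    conv_lhs => rw [← Multiset.coe_toList s]
    congr 1
    refine List.ext_get (by simp) fun n h1 h2 => ?_
    simp
  refine ⟨r, fun i => hs0 _ ?_, fun j hj => ?_⟩
  · rw [hr]
    exact Multiset.mem_map_of_mem r (Finset.mem_univ_val i)
  · have h1 : (Q m C).roots.esymm j = ((es r j : ℝ) : ℂ) := by
      rw [hs1, hr, Multiset.map_map, Finset.esymm_map_val]
      unfold es
      push_cast
      rfl
    have h2 := hV j hj
    rw [h1] at h2
    exact_mod_cast h2

end Pool.Agent.H783.HM
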