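import Pool.Agent.H783.HM.Stm

/-!
# The second derivative of the determinant at the identity
-/

set_option autoImplicit false

namespace Pool.Agent.H783.HM

namespace SD729

open Polynomial

variable {J : Type} [Fintype J] [DecidableEq J]

/-- the polynomial `det (1 + X M)` -/
noncomputable def gp (M : Matrix J J ℝ) : ℝ[X] := (1 + (X : ℝ[X]) • M.map C).det

theorem gp_eval (M : Matrix J J ℝ) (t : ℝ) : (gp M).eval t = (1 + t • M).det := by
  unfold gp
  have h : eval t ((1 + (X : ℝ[X]) • M.map C).det) =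
      evalRingHom t ((1 + (X : ℝ[X]) • M.map C).det) := rfl
  rw [h, RingHom.map_det]
  congr 1
  ext i j
  rw [RingHom.mapMatrix_apply, Matrix.map_apply, Matrix.add_apply, Matrix.add_apply,
    Matrix.smul_apply, Matrix.smul_apply, Matrix.map_apply, coe_evalRingHom, eval_add,
    smul_eq_mul, smul_eq_mul, eval_mul, eval_X, eval_C]
  congr 1
  by_cases hij : i = j
  · subst hij
    rw [Matrix.one_apply_eq, Matrix.one_apply_eq, eval_one]
  · rw [Matrix.one_apply_ne hij, Matrix.one_apply_ne hij, eval_zero]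

theorem gp_zero (M : Matrix J J ℝ) : (gp M).coeff 0 = 1 := by
  rw [coeff_zero_eq_eval_zero, gp_eval, zero_smul, add_zero, Matrix.det_one]

theorem gp_one (M : Matrix J J ℝ) : (gp M).coeff 1 = M.trace :=
  Matrix.coeff_det_one_add_X_smul_one M

theorem gp_neg (M : Matrix J J ℝ) : gp (-M) = (gp M).comp (-X) := by
  refine Polynomial.funext fun t => ?_
  rw [gp_eval, eval_comp, gp_eval, eval_neg, eval_X, smul_neg, neg_smul]

theorem gp_mul (M : Matrix J J ℝ) : gp M * gp (-M) = expand ℝ 2 (gp (-(M * M))) := by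
  refine Polynomial.funext fun t => ?_
  rw [eval_mul, gp_eval, gp_eval, expand_eval, gp_eval, ← Matrix.det_mul]
  congr 1
  rw [smul_neg, smul_neg, ← sub_eq_add_neg, ← sub_eq_add_neg, mul_sub, mul_one, add_mul, one_mul,
    smul_mul_smul_comm, ← pow_two t]
  abel

theorem gp_two (M : Matrix J J ℝ) : 2 * (gp M).coeff 2 = M.trace ^ 2 - (M * M).trace := by
  have h : (gp M * gp (-M)).coeff 2 = (expand ℝ 2 (gp (-(M * M)))).coeff 2 := by rw [gp_mul M]
  have e : (expand ℝ 2 (gp (-(M * M)))).coeff 2 = (gp (-(M * M))).coeff 1 := by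
    have := coeff_expand_mul (R := ℝ) (p := 2) (by norm_num) (gp (-(M * M))) 1
    rwa [one_mul] at this
  have e2 : (gp (-M)).coeff 2 = (gp M).coeff 2 := by
    have hx : (-X : ℝ[X]) = C (-1) * X := by
      rw [C_neg, C_1, neg_one_mul]
    rw [gp_neg, hx, comp_C_mul_X_coeff]
    norm_num
  rw [e, gp_one, coeff_mul, Finset.Nat.sum_antidiagonal_eq_sum_range_succ_mk,
    Finset.sum_range_succ, Finset.sum_range_succ, Finset.sum_range_one] at h
  have h21 : 2 - 1 = 1 := rfl
  have h20 : 2 - 0 = 2 := rfl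
  simp only [gp_zero, gp_one, e2, Matrix.trace_neg, h21, h20, Nat.sub_self] at h
  linarith

open Pool.Agent.H783.HL in
theorem de_single {κ : Type} [Fintype κ] [DecidableEq κ] (o : κ) (q : MvPolynomial κ ℝ) :
    de (Pi.single o (1 : ℝ)) q = MvPolynomial.pderiv o q := by
  unfold de
  rw [Finset.sum_eq_single o]
  · rw [Pi.single_eq_same, MvPolynomial.C_1, one_mul]
  · intro k _ hk
    rw [Pi.single_eq_of_ne hk, MvPolynomial.C_0, zero_mul]
  · intro h
    exact absurd (Finset.mem_univ o) h

open Pool.Agent.H783.HL in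
theorem slice_dpoly {κ : Type} [Fintype κ] [DecidableEq κ] (B : κ → J → J → ℝ) (e : κ → ℝ)
    (he : ∀ i j, ∑ o, e o * B o i j = if i = j then 1 else 0) (o : κ) :
    slice (Pi.single o (1 : ℝ)) e (dpoly B) = gp (Matrix.of (B o)) := by
  refine Polynomial.funext fun t => ?_
  rw [Slice2N.slice_eval, dpoly_eval, gp_eval]
  congr 1
  ext i j
  rw [Matrix.of_apply, Matrix.add_apply, Matrix.smul_apply, Matrix.of_apply, smul_eq_mul]
  have h1 : ∀ k, (e k + t * (Pi.single o (1 : ℝ) : κ → ℝ) k) * B k i j =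
      e k * B k i j + t * ((Pi.single o (1 : ℝ) : κ → ℝ) k * B k i j) := fun k => by ring
  rw [Finset.sum_congr rfl fun k _ => h1 k, Finset.sum_add_distrib, he i j, ← Finset.mul_sum]
  have h2 : ∑ k, (Pi.single o (1 : ℝ) : κ → ℝ) k * B k i j = B o i j := by
    rw [Finset.sum_eq_single o]
    · rw [Pi.single_eq_same, one_mul]
    · intro k _ hk
      rw [Pi.single_eq_of_ne hk, zero_mul]
    · intro h
      exact absurd (Finset.mem_univ o) h
  rw [h2, Matrix.one_apply]

end SD729

open Pool.Agent.H783.HL in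
theorem secondD : M_Second := by
  intro κ J _ _ _ _ B e he o
  have h1 : (Polynomial.derivative (Polynomial.derivative
      (slice (Pi.single o (1 : ℝ)) e (dpoly B)))).eval 0 = MvPolynomial.eval e (dd o (dpoly B)) := by
    rw [Slice2N.slice_deriv, Slice2N.slice_deriv, Slice2N.slice_eval, SD729.de_single,
      SD729.de_single]
    have h2 : (fun k => e k + 0 * (Pi.single o (1 : ℝ) : κ → ℝ) k) = e := by
      funext k
      rw [zero_mul, add_zero]
    rw [h2]
    rfl
  rw [← h1, SD729.slice_dpoly B e he o, ← Polynomial.coeff_zero_eq_eval_zero,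
    Polynomial.coeff_derivative, Polynomial.coeff_derivative]
  have h3 := SD729.gp_two (Matrix.of (B o))
  have h4 : (Matrix.of (B o)).trace = ∑ i, B o i i := rfl
  have h5 : (Matrix.of (B o) * Matrix.of (B o)).trace = ∑ i, ∑ j, B o i j * B o j i := rfl
  rw [h4, h5] at h3
  rw [← h3]
  push_cast
  ring

end Pool.Agent.H783.HM
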