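import Pool.Agent.H783.HM.Stm2
import Pool.Agent.H783.HL.StarQuad

/-!
# HM2-4: splitting off one variable (helper401 for helper783)
-/

set_option autoImplicit false

namespace Pool.Agent.H783.HM.SplitN401

open MvPolynomial
open Pool.Agent.H783.HL

variable {σ : Type} [Fintype σ] [DecidableEq σ]

/-- Euler's identity at a coordinate vector -/
theorem euler_single {o0 : σ} {q : MvPolynomial σ ℝ} {n : ℕ} (hq : q.IsHomogeneous n) :
    eval (Pi.single o0 1) (pderiv o0 q) = n * eval (Pi.single o0 1) q := by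
  have h1 := congrArg (eval (Pi.single o0 (1 : ℝ))) hq.sum_X_mul_pderiv
  rw [map_sum] at h1
  simp only [map_mul, eval_X] at h1
  rw [Finset.sum_eq_single o0] at h1
  · rw [Pi.single_eq_same, one_mul] at h1
    rw [h1, nsmul_eq_mul, map_mul, map_natCast]
  · intro b _ hb
    rw [Pi.single_eq_of_ne hb, zero_mul]
  · intro h
    exact absurd (Finset.mem_univ _) h

theorem dd_single {o0 : σ} {q : MvPolynomial σ ℝ} {n : ℕ} (hq : q.IsHomogeneous (n + 2)) :
    eval (Pi.single o0 1) (dd o0 q) = ((n : ℝ) + 2) * ((n : ℝ) + 1) * eval (Pi.single o0 1) q := by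
  unfold dd
  have h1 : (pderiv o0 q).IsHomogeneous (n + 1) := hq.pderiv
  rw [euler_single h1, euler_single hq]
  push_cast
  ring

theorem dd_hom {o0 : σ} {q : MvPolynomial σ ℝ} {n : ℕ} (hq : q.IsHomogeneous (n + 2)) :
    (dd o0 q).IsHomogeneous n := by
  unfold dd
  have h1 : (pderiv o0 q).IsHomogeneous (n + 1) := hq.pderiv
  exact h1.pderiv

/-- the second derivative as a linear map -/
noncomputable def DL (o0 : σ) : MvPolynomial σ ℝ →ₗ[ℝ] MvPolynomial σ ℝ where
  toFun := dd o0
  map_add' := fun p q => dd_add2 o0 p q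
  map_smul' := fun c p => dd_smul2 o0 c p

theorem DL_pow (o0 : σ) (k : ℕ) : ∀ q : MvPolynomial σ ℝ, q.IsHomogeneous (2 * k) →
    ((DL o0 ^ k) q).IsHomogeneous 0 ∧
      eval (Pi.single o0 1) ((DL o0 ^ k) q) =
        ((2 * k).factorial : ℝ) * eval (Pi.single o0 1) q := by
  induction k with
  | zero =>
    intro q hq
    rw [pow_zero, Module.End.one_apply]
    refine ⟨hq, ?_⟩
    simp
  | succ k ih =>
    intro q hq
    have hq' : q.IsHomogeneous (2 * k + 2) := hq
    obtain ⟨h1, h2⟩ := ih (dd o0 q) (dd_hom hq')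
    rw [pow_succ, Module.End.mul_apply]
    refine ⟨h1, ?_⟩
    change eval (Pi.single o0 1) ((DL o0 ^ k) (dd o0 q)) = _
    rw [h2, dd_single hq']
    have h3 : (2 * (k + 1)).factorial = (2 * k + 2) * ((2 * k + 1) * (2 * k).factorial) := by
      rw [show 2 * (k + 1) = 2 * k + 1 + 1 by ring, Nat.factorial_succ, Nat.factorial_succ]
    rw [h3]
    push_cast
    ring

theorem eval_const {q : MvPolynomial σ ℝ} (hq : q.IsHomogeneous 0) (x y : σ → ℝ) :
    eval x q = eval y q := by
  have h := totalDegree_eq_zero_iff_eq_C.1 (Nat.le_zero.1 hq.totalDegree_le)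
  rw [h, eval_C, eval_C]

theorem comm_pd (k o0 : σ) (q : MvPolynomial σ ℝ) : pderiv k (dd o0 q) = dd o0 (pderiv k q) := by
  unfold dd
  rw [sqComm2 (pderiv o0 q) o0 k, sqComm2 q o0 k]

theorem comm_dd (k o0 : σ) (q : MvPolynomial σ ℝ) : dd k (dd o0 q) = dd o0 (dd k q) := by
  change pderiv k (pderiv k (dd o0 q)) = dd o0 (pderiv k (pderiv k q))
  rw [comm_pd, comm_pd]

theorem comm_lap (w : σ → ℝ) (o0 : σ) (q : MvPolynomial σ ℝ) :
    lap w (dd o0 q) = dd o0 (lap w q) := by
  have h : dd o0 (lap w q) = ∑ k, dd o0 (C (w k) * dd k q) := by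
    unfold lap
    exact map_sum (DL o0) _ _
  rw [h]
  unfold lap
  refine Finset.sum_congr rfl fun k _ => ?_
  rw [comm_dd, ← smul_eq_C_mul, ← smul_eq_C_mul, dd_smul2]

theorem lap_iter_hom (w : σ → ℝ) (m j : ℕ) (q : MvPolynomial σ ℝ) (hq : q.IsHomogeneous (2 * m)) :
    ((lap w)^[j] q).IsHomogeneous (2 * (m - j)) := by
  induction j with
  | zero => exact hq
  | succ j ih =>
    rw [Function.iterate_succ_apply']
    have h1 := lap_hom w ih
    have h2 : 2 * (m - j) - 2 = 2 * (m - (j + 1)) := by omega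
    rwa [h2] at h1

theorem term (w : σ → ℝ) (o0 : σ) (s : ℝ) (p : MvPolynomial σ ℝ) (m j : ℕ) :
    (lapL w ^ j * (s • DL o0) ^ (m - j) *
      ((m.choose j : ℕ) : MvPolynomial σ ℝ →ₗ[ℝ] MvPolynomial σ ℝ)) p =
      (((m.choose j : ℕ) : ℝ) * s ^ (m - j)) • (DL o0 ^ (m - j)) ((lap w)^[j] p) := by
  have hc : Commute (lapL w) (DL o0) := by
    apply LinearMap.ext
    intro q
    exact comm_lap w o0 q
  have hc2 : lapL w ^ j * DL o0 ^ (m - j) = DL o0 ^ (m - j) * lapL w ^ j :=
    (hc.pow_pow j (m - j)).eq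
  rw [smul_pow, mul_smul_comm, hc2, Module.End.mul_apply, LinearMap.smul_apply,
    Module.End.natCast_apply, map_nsmul, Module.End.mul_apply, lapL_pow, mul_smul,
    Nat.cast_smul_eq_nsmul]
  rw [smul_comm]

end Pool.Agent.H783.HM.SplitN401

namespace Pool.Agent.H783.HM

open MvPolynomial
open Pool.Agent.H783.HL SplitN401

theorem splitN : N_Split := by
  intro m σ _ _ o0 w p s x hw hp
  have hL : lapL (fun o => w o + if o = o0 then s else 0) = lapL w + s • DL o0 := by
    apply LinearMap.ext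
    intro q
    change lap (fun o => w o + if o = o0 then s else 0) q = lap w q + s • dd o0 q
    unfold lap
    simp only [C_add, add_mul, Finset.sum_add_distrib]
    congr 1
    rw [Finset.sum_eq_single o0]
    · rw [if_pos rfl, smul_eq_C_mul]
    · intro b _ hb
      rw [if_neg hb, C_0, zero_mul]
    · intro h
      exact absurd (Finset.mem_univ _) h
  have hcomm : Commute (lapL w) (s • DL o0) := by
    refine Commute.smul_right ?_ s
    apply LinearMap.ext
    intro q
    exact comm_lap w o0 q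
  have hpow := hcomm.add_pow m
  rw [← lapL_pow, hL, hpow, LinearMap.sum_apply, map_sum]
  unfold gpoly
  rw [Finset.mul_sum]
  refine Finset.sum_congr rfl fun j hj => ?_
  have hj' : j ≤ m := Nat.lt_succ_iff.1 (Finset.mem_range.1 hj)
  obtain ⟨h1, h2⟩ := DL_pow o0 (m - j) _ (lap_iter_hom w m j p hp)
  rw [term, smul_eval, eval_const h1 x (Pi.single o0 1), h2]
  have h3 := Nat.choose_mul_factorial_mul_factorial hj'
  have h4 : (m.factorial : ℝ) = (m.choose j : ℝ) * (j.factorial : ℝ) * ((m - j).factorial : ℝ) := by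
    exact_mod_cast h3.symm
  have h5 : (j.factorial : ℝ) ≠ 0 := by exact_mod_cast Nat.factorial_ne_zero j
  have h6 : ((m - j).factorial : ℝ) ≠ 0 := by exact_mod_cast Nat.factorial_ne_zero (m - j)
  rw [h4]
  field_simp

end Pool.Agent.H783.HM
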