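import Pool.Agent.H783.HL.Core
import Pool.Agent.H783.HL.Link

/-!
# Upper bounds from real roots: statements
-/

set_option autoImplicit false

namespace Pool.Agent.H783.HM

open MvPolynomial
open Pool.Agent.H783.HL

/-- M1. Arithmetic-geometric mean inequality for an even real-rooted polynomial. -/
def M_Uni : Prop :=
  ∀ (m : ℕ) (C : ℕ → ℝ), 1 ≤ m → 0 < C 0 →
    (∀ z : ℂ, z.im ≠ 0 →
      ∑ j ∈ Finset.range (m + 1), (-1) ^ j * (C j : ℂ) * z ^ (2 * (m - j)) ≠ 0) →
    0 ≤ C 1 ∧ C m * (m : ℝ) ^ m * C 0 ^ (m - 1) ≤ C 1 ^ m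

/-- M2. The condition `Star` for the product of light cones, for every direction `e` of the product
and for weights `c_j ≥ 0` of the factors. -/
def M_Star : Prop :=
  ∀ (ι K : Type) [Fintype ι] [Fintype K] (c : ι → ℝ), (∀ j, 0 ≤ c j) →
    ∀ e ∈ PC ι K, Star (PC ι K) e (fun o => c o.1 * pw o)

/-- M3. The second derivative of the determinant at the identity: if `∑ e_o B_o` is the identity
matrix, then `∂_o² det (∑ X_o B_o)` at `e` is `(tr B_o)² - tr (B_o²)`. -/
def M_Second : Prop :=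
  ∀ (κ J : Type) [Fintype κ] [DecidableEq κ] [Fintype J] [DecidableEq J] (B : κ → J → J → ℝ)
    (e : κ → ℝ), (∀ i j, ∑ o, e o * B o i j = if i = j then 1 else 0) → ∀ o,
    eval e (dd o (dpoly B)) = (∑ i, B o i i) ^ 2 - ∑ i, ∑ j, B o i j * B o j i

end Pool.Agent.H783.HM
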