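import Pool.Agent.H783.HL.StarQuad
import Pool.Agent.H783.HL.Star2
import Pool.Agent.H783.HL.Deriv2
import Pool.Agent.H783.HM.Stm

/-!
# HM-2: the condition `Star` for weighted light cones, in every direction of the cone

`starC : M_Star` (helper972 for helper783).
-/

set_option autoImplicit false

namespace Pool.Agent.H783.HM

open MvPolynomial
open Pool.Agent.H783.HL

namespace StarC

/-- positivity on the cone -/
theorem posC {ι K : Type} [Fintype K]
    (B : (ι × Option K → ℝ) →ₗ[ℝ] (ι × Option K → ℝ) →ₗ[ℝ] ℝ)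
    (hs : ∀ v w, B v w = B w v)
    (H : ∀ x, ∀ v ∈ PC ι K, ¬ (B x x = B v v ∧ B x v = 0))
    (hp : 0 < B pe pe) : ∀ v ∈ PC ι K, 0 < B v v := by
  have hne : ∀ v ∈ PC ι K, B v v ≠ 0 := by
    intro v hv h0
    exact H 0 v hv ⟨by simp [h0], by simp⟩
  intro v hv
  by_contra hcon
  have hneg : B v v < 0 := lt_of_le_of_ne (not_lt.1 hcon) (hne v hv)
  have hcont : ContinuousOn (fun t : ℝ => (1 - t) ^ 2 * B pe pe + 2 * (t * (1 - t)) * B pe v +
      t ^ 2 * B v v) (Set.Icc 0 1) := by
    apply Continuous.continuousOn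
    fun_prop
  have h0 : (0 : ℝ) ∈ Set.Icc ((fun t : ℝ => (1 - t) ^ 2 * B pe pe +
      2 * (t * (1 - t)) * B pe v + t ^ 2 * B v v) 1) ((fun t : ℝ => (1 - t) ^ 2 * B pe pe +
      2 * (t * (1 - t)) * B pe v + t ^ 2 * B v v) 0) := by
    constructor
    · simp only
      nlinarith
    · simp only
      nlinarith
  obtain ⟨t, ht, h⟩ := intermediate_value_Icc' (zero_le_one : (0 : ℝ) ≤ 1) hcont h0
  simp only at h
  rcases eq_or_lt_of_le ht.1 with h1 | h1
  · rw [← h1] at h
    apply absurd h
    nlinarith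
  rcases eq_or_lt_of_le ht.2 with h2 | h2
  · rw [h2] at h
    apply absurd h
    nlinarith
  have hm : (1 - t) • pe + t • v ∈ PC ι K :=
    sqAdd2 (sqSmul2 sqPe2 (by linarith)) (sqSmul2 hv h1)
  apply hne _ hm
  simp only [map_add, map_smul, LinearMap.add_apply, LinearMap.smul_apply, smul_eq_mul]
  rw [hs v pe]
  linarith

/-- the quadratic case -/
theorem quadC (ι K : Type) [Fintype ι] [Fintype K] (c : ι → ℝ) (hc : ∀ j, 0 ≤ c j)
    (e : ι × Option K → ℝ) (he : e ∈ PC ι K) (q : MvPolynomial (ι × Option K) ℝ)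
    (hq : q.IsHomogeneous 2) (hst : StabOn (PC ι K) q) :
    0 ≤ eval e q * eval e (lap (fun o => c o.1 * pw o) q) := by
  classical
  obtain ⟨M, hM1, hM2, hM3⟩ := sqMat2 q hq
  have hB : ∀ v w : ι × Option K → ℝ, Matrix.toBilin' (Matrix.of M) v w =
      ∑ k, ∑ l, v k * M k l * w l := by
    intro v w
    rw [Matrix.toBilin'_apply]
    rfl
  have hsymm : ∀ v w, Matrix.toBilin' (Matrix.of M) v w = Matrix.toBilin' (Matrix.of M) w v := by
    intro v w
    rw [hB, hB, Finset.sum_comm]
    refine Finset.sum_congr rfl fun k _ => Finset.sum_congr rfl fun l _ => ?_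
    rw [hM1 l k]
    ring
  have hev : ∀ v, 2 * eval v q = Matrix.toBilin' (Matrix.of M) v v := by
    intro v
    have h := congrArg (eval v) hM3
    simp only [map_sum, map_mul, eval_X, eval_C, nsmul_eq_mul, Nat.cast_ofNat, map_ofNat] at h
    rw [h, hB]
    refine Finset.sum_congr rfl fun k _ => ?_
    rw [Finset.mul_sum]
    refine Finset.sum_congr rfl fun l _ => ?_
    ring
  have haev : ∀ x v, 2 * aeval (cp x v) q =
      ((Matrix.toBilin' (Matrix.of M) x x - Matrix.toBilin' (Matrix.of M) v v : ℝ) : ℂ) +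
      ((Matrix.toBilin' (Matrix.of M) x v + Matrix.toBilin' (Matrix.of M) v x : ℝ) : ℂ) *
        Complex.I := by
    intro x v
    have h := congrArg (aeval (cp x v)) hM3
    simp only [map_sum, map_mul, aeval_X, aeval_C, nsmul_eq_mul, Nat.cast_ofNat, map_ofNat,
      Complex.coe_algebraMap] at h
    rw [h]
    simp only [hB, ← Finset.sum_sub_distrib, ← Finset.sum_add_distrib, Complex.ofReal_sum,
      Finset.sum_mul, Finset.mul_sum]
    refine Finset.sum_congr rfl fun k _ => Finset.sum_congr rfl fun l _ => ?_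
    simp only [cp, Complex.ofReal_add, Complex.ofReal_sub, Complex.ofReal_mul]
    linear_combination ((v k : ℂ) * v l * M k l) * Complex.I_sq
  have hH : ∀ x, ∀ v ∈ PC ι K, ¬ (Matrix.toBilin' (Matrix.of M) x x =
      Matrix.toBilin' (Matrix.of M) v v ∧ Matrix.toBilin' (Matrix.of M) x v = 0) := by
    rintro x v hv ⟨h1, h2⟩
    apply hst x v hv
    have h3 := haev x v
    rw [hsymm v x, h1, h2] at h3
    simpa using h3
  have hdiag : ∀ k, Matrix.toBilin' (Matrix.of M) (Pi.single k 1) (Pi.single k 1) = M k k := by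
    intro k
    rw [Matrix.toBilin'_single]
    rfl
  have hlap : eval e (lap (fun o => c o.1 * pw o) q) = ∑ j : ι, c j * (M (j, none) (j, none) -
      ∑ b : K, M (j, some b) (j, some b)) := by
    simp only [lap, dd, hM2, map_sum, map_mul, eval_C]
    rw [Fintype.sum_prod_type]
    refine Finset.sum_congr rfl fun j _ => ?_
    rw [Fintype.sum_option]
    simp [pw, Finset.sum_neg_distrib, sub_eq_add_neg, mul_add, Finset.mul_sum]
  have h0 : Matrix.toBilin' (Matrix.of M) pe pe ≠ 0 := by
    intro h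
    exact hH 0 pe sqPe2 ⟨by simp [h], by simp⟩
  rw [hlap]
  rcases lt_or_gt_of_ne h0 with hneg | hpos
  · have hs' : ∀ v w, (-(Matrix.toBilin' (Matrix.of M))) v w =
        (-(Matrix.toBilin' (Matrix.of M))) w v := by
      intro v w
      simp only [LinearMap.neg_apply]
      rw [hsymm]
    have hH' : ∀ x, ∀ v ∈ PC ι K, ¬ ((-(Matrix.toBilin' (Matrix.of M))) x x =
        (-(Matrix.toBilin' (Matrix.of M))) v v ∧ (-(Matrix.toBilin' (Matrix.of M))) x v = 0) := by
      rintro x v hv ⟨h3, h4⟩
      simp only [LinearMap.neg_apply, neg_inj, neg_eq_zero] at h3 h4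
      exact hH x v hv ⟨h3, h4⟩
    have hp' : 0 < (-(Matrix.toBilin' (Matrix.of M))) pe pe := by
      simp only [LinearMap.neg_apply]
      linarith
    have h1 : ∑ j : ι, c j * (M (j, none) (j, none) -
        ∑ b : K, M (j, some b) (j, some b)) ≤ 0 := by
      apply Finset.sum_nonpos
      intro j _
      have h2 := sqCore2 (-(Matrix.toBilin' (Matrix.of M))) hs' hH' hp' j
      simp only [LinearMap.neg_apply, hdiag, Finset.sum_neg_distrib] at h2
      exact mul_nonpos_of_nonneg_of_nonpos (hc j) (by linarith)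
    have h3 : eval e q ≤ 0 := by
      have h4 := hev e
      have h5 := posC (-(Matrix.toBilin' (Matrix.of M))) hs' hH' hp' e he
      simp only [LinearMap.neg_apply] at h5
      linarith
    exact mul_nonneg_of_nonpos_of_nonpos h3 h1
  · have h1 : 0 ≤ ∑ j : ι, c j * (M (j, none) (j, none) -
        ∑ b : K, M (j, some b) (j, some b)) := by
      apply Finset.sum_nonneg
      intro j _
      have h2 := sqCore2 (Matrix.toBilin' (Matrix.of M)) hsymm hH hpos j
      simp only [hdiag] at h2
      exact mul_nonneg (hc j) h2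
    have h3 : 0 ≤ eval e q := by
      have h4 := hev e
      have h5 := posC (Matrix.toBilin' (Matrix.of M)) hsymm hH hpos e he
      linarith
    exact mul_nonneg h3 h1

end StarC

/-- **HM-2.** The condition `Star` for the product of light cones, for every direction of the
product and all nonnegative weights of the factors. -/
theorem starC : M_Star := by
  intro ι K _ _ c hc e he q m hm
  induction m, hm using Nat.le_induction generalizing q with
  | base => intro hq hs; exact StarC.quadC ι K c hc e he q hq hs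
  | succ m hm ih =>
    intro hq hs
    obtain ⟨h1, h2, h3⟩ := deriv2 _ (PC ι K) e q (m + 1) (pc_cone ι K) he (by omega) hq hs
    rw [Nat.add_sub_cancel] at h2
    have h4 := ih (de e q) h2 h1
    have h5 : eval e (lap (fun o => c o.1 * pw o) (de e q)) =
        ((m - 1 : ℕ) : ℝ) * eval e (lap (fun o => c o.1 * pw o) q) := by
      rw [← lap_de, euler2 (lap_hom _ hq)]
      have : m + 1 - 2 = m - 1 := by omega
      rw [this]
    rw [h3, h5] at h4
    have h6 : (0 : ℝ) < ((m + 1 : ℕ) : ℝ) := by positivity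
    have h7 : (0 : ℝ) < ((m - 1 : ℕ) : ℝ) := by exact_mod_cast (by omega : 0 < m - 1)
    have h8 : ((m + 1 : ℕ) : ℝ) * eval e q *
        (((m - 1 : ℕ) : ℝ) * eval e (lap (fun o => c o.1 * pw o) q)) =
        (((m + 1 : ℕ) : ℝ) * ((m - 1 : ℕ) : ℝ)) *
          (eval e q * eval e (lap (fun o => c o.1 * pw o) q)) := by ring
    rw [h8] at h4
    exact nonneg_of_mul_nonneg_right h4 (mul_pos h6 h7)

end Pool.Agent.H783.HM
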