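import Pool.Agent.H783.HM.Planes
import Pool.Agent.H783.HM.StarC
import Pool.Agent.H783.HM.SecondD
import Pool.Agent.H783.HM.Roots
import Pool.Agent.H783.HM.Closed
import Pool.Agent.H783.HM.SplitN
import Pool.Agent.H783.HM.ProdP
import Pool.Agent.H783.HM.Fourth
import Pool.Agent.H783.HM.Quad
import Pool.Agent.H783.HM.Newt

/-!
# The bounds by the scalar curvature
-/

set_option autoImplicit false
set_option linter.unusedSectionVars false
set_option linter.unusedVariables false

namespace Pool.Agent.H783.HM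

open Filter Topology MeasureTheory
open Pool.Agent.H783.HL
open Pool.Agent.W666.GB Pool.Agent.W669.HD Pool.Agent.Y519.HB

section point

variable {V : Type} [NormedAddCommGroup V] [InnerProductSpace ℝ V] {m : ℕ}

theorem spec_exists (hm : 1 ≤ m) (e : OrthonormalBasis (Fin m × Bool) ℝ V)
    {R : V → V → V → V → ℝ} (h : NegCone R) : ∃ r, Spec e R r :=
  cone_spec roots closedN splitN starC secondD fourth quad hm e h

theorem planes_spectrum (e : OrthonormalBasis (Fin m × Bool) ℝ V) {k : Fin m → ℝ}
    (hk : ∀ a, 0 ≤ k a) : Spec e (planes e k) fun a => 2 * k a :=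
  planes_spec prodP splitN secondD fourth quad e hk

theorem gpoly_zero (c : ℕ → ℝ) : gpoly m c 0 = c m := by
  unfold gpoly
  rw [Finset.sum_eq_single m]
  · simp
  · intro j hj hjm
    have h1 : m - j ≠ 0 := by
      have := Finset.mem_range.1 hj
      omega
    rw [zero_pow h1, mul_zero]
  · intro h
    exact absurd (Finset.mem_range.2 (Nat.lt_succ_self m)) h

theorem shiftT_zero (R : V → V → V → V → ℝ) : shiftT R 0 = R := by
  funext x y z w
  unfold shiftT
  ring

theorem shiftT_shiftT (R : V → V → V → V → ℝ) (t : ℝ) : shiftT (shiftT R t) (-t) = R := by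
  funext x y z w
  unfold shiftT
  ring

/-- the scalar curvature of a shifted tensor -/
theorem scal_shift (e : OrthonormalBasis (Fin m × Bool) ℝ V) (R : V → V → V → V → ℝ) (t : ℝ) :
    scal e (shiftT R t) = scal e R + 2 * m * (2 * m - 1) * t := by
  unfold scal shiftT
  simp only [Finset.sum_add_distrib]
  congr 1
  have h1 : ∀ i, ∑ j, t * unitT (e i) (e j) (e i) (e j) = (2 * m - 1) * t := by
    intro i
    simp only [cp_unit]
    unfold unitCurv
    rw [← Finset.mul_sum, Finset.sum_sub_distrib]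
    have h2 : ∑ j : Fin m × Bool, (if i = i then (1 : ℝ) else 0) * (if j = j then 1 else 0) =
        2 * m := by
      simp [Fintype.card_prod]
      ring
    have h3 : ∑ j : Fin m × Bool, (if i = j then (1 : ℝ) else 0) * (if j = i then 1 else 0) =
        1 := by
      rw [Finset.sum_eq_single i]
      · simp
      · intro j _ hj
        rw [if_neg hj, mul_zero]
      · simp
    rw [h2, h3]
    ring
  rw [Finset.sum_congr rfl fun i _ => h1 i, Finset.sum_const, Finset.card_univ, Fintype.card_prod,
    Fintype.card_fin, Fintype.card_bool, nsmul_eq_mul]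
  push_cast
  ring

/-- the integrand is the product of the spectrum -/
theorem Spec.gbc {e : OrthonormalBasis (Fin m × Bool) ℝ V} {R : V → V → V → V → ℝ}
    {r : Fin m → ℝ} (h : Spec e R r) :
    (-1) ^ m * gbc e R = (∏ i, r i) / (4 * Real.pi) ^ m := by
  have h1 := h.2.2.2 0
  rw [neg_zero, shiftT_zero, gpoly_zero, es_top] at h1
  exact h1

/-- **Products of planes.** -/
theorem planes_values (e : OrthonormalBasis (Fin m × Bool) ℝ V) {k : Fin m → ℝ}
    (hk : ∀ a, 0 ≤ k a) : NegCone (planes e k) ∧ scal e (planes e k) = - 2 * ∑ a, k a ∧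
      (-1) ^ m * gbc e (planes e k) = ∏ a, (k a / (2 * Real.pi)) := by
  have h := planes_spectrum e hk
  refine ⟨planes_cone e hk, ?_, ?_⟩
  · have h1 := h.2.1
    rw [es_one, ← Finset.mul_sum] at h1
    linarith
  · rw [h.gbc, Finset.prod_div_distrib, Finset.prod_mul_distrib, Finset.prod_const,
      Finset.prod_const, Finset.card_univ, Fintype.card_fin]
    have hpi := Real.pi_pos
    have h4 : (4 * Real.pi) ^ m = 2 ^ m * (2 * Real.pi) ^ m := by
      rw [← mul_pow]
      congr 1
      ring
    rw [h4]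
    field_simp

/-- **The spectrum theorem.** -/
theorem spectrum (hm : 1 ≤ m) (e : OrthonormalBasis (Fin m × Bool) ℝ V)
    {R : V → V → V → V → ℝ} (h : NegCone R) :
    ∃ k : Fin m → ℝ, (∀ a, 0 ≤ k a) ∧ scal e R = scal e (planes e k) ∧
      (2 ≤ m → normSq e R - 4 * ricSq e R =
        normSq e (planes e k) - 4 * ricSq e (planes e k)) ∧
      ∀ t, gbc e (shiftT R t) = gbc e (shiftT (planes e k) t) := by
  obtain ⟨r, hr⟩ := spec_exists hm e h
  have hk : ∀ a, 0 ≤ r a / 2 := fun a => by
    have := hr.1 a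
    positivity
  have h1 := planes_spectrum e hk
  have h2 : (fun a => 2 * (r a / 2)) = r := by
    funext a
    ring
  rw [h2] at h1
  have h5 : scal e R = scal e (planes e fun a => r a / 2) := by
    have h3 := hr.2.1
    have h4 := h1.2.1
    linarith
  refine ⟨fun a => r a / 2, hk, h5, fun h2m => ?_, fun t => ?_⟩
  · have h3 := hr.2.2.1 h2m
    have h4 := h1.2.2.1 h2m
    rw [h5] at h3
    linarith
  · have h3 := hr.2.2.2 (-t)
    have h4 := h1.2.2.2 (-t)
    rw [neg_neg] at h3 h4
    rw [← h4] at h3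
    have h5 : (-1 : ℝ) ^ m ≠ 0 := pow_ne_zero _ (by norm_num)
    exact mul_left_cancel₀ h5 h3

theorem gpoly_mono {c c' : ℕ → ℝ} {s : ℝ} (hs : 0 ≤ s) (h : ∀ j ≤ m, c j ≤ c' j) :
    gpoly m c s ≤ gpoly m c' s := by
  unfold gpoly
  refine Finset.sum_le_sum fun j hj => ?_
  have h1 := h j (Nat.lt_succ_iff.1 (Finset.mem_range.1 hj))
  have h2 : (0 : ℝ) ≤ (2 * (m - j)).factorial / (m - j).factorial := by positivity
  have h3 : (0 : ℝ) ≤ s ^ (m - j) := pow_nonneg hs _
  exact mul_le_mul_of_nonneg_right (mul_le_mul_of_nonneg_right h1 h2) h3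

theorem es_const (a : ℝ) (j : ℕ) : es (fun _ : Fin m => a) j = m.choose j * a ^ j := by
  unfold es
  have h1 : ∀ t ∈ Finset.powersetCard j (Finset.univ : Finset (Fin m)), ∏ _i ∈ t, a = a ^ j := by
    intro t ht
    rw [Finset.prod_const, (Finset.mem_powersetCard.1 ht).2]
  rw [Finset.sum_congr rfl h1, Finset.sum_const, Finset.card_powersetCard, Finset.card_univ,
    Fintype.card_fin, nsmul_eq_mul]

theorem upGB_planes (e : OrthonormalBasis (Fin m × Bool) ℝ V) {a : ℝ} (ha : 0 ≤ a) (δ : ℝ) :
    (-1) ^ m * gbc e (shiftT (planes e fun _ => a) (-δ)) = upGB m a δ := by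
  have h1 := (planes_spectrum e (k := fun _ => a) fun _ => ha).2.2.2 δ
  rw [h1]
  unfold upGB gpoly
  congr 1
  refine Finset.sum_congr rfl fun j _ => ?_
  rw [es_const]

theorem fact_ratio (hm : 1 ≤ m) : (((2 * m).factorial : ℕ) : ℝ) / (m.factorial : ℕ) =
    2 * (2 * m - 1) * ((2 * (m - 1)).factorial / (m - 1).factorial) := by
  obtain ⟨n, rfl⟩ : ∃ n, m = n + 1 := ⟨m - 1, by omega⟩
  have h1 : 2 * (n + 1) = (2 * n + 1) + 1 := by ring
  rw [Nat.add_sub_cancel, h1, Nat.factorial_succ (2 * n + 1), Nat.factorial_succ (2 * n),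
    Nat.factorial_succ n]
  push_cast
  field_simp
  ring

/-- **The comparison theorem.** -/
theorem comparison (hm : 1 ≤ m) (e : OrthonormalBasis (Fin m × Bool) ℝ V)
    {R : V → V → V → V → ℝ} {δ a : ℝ} (hδ : 0 ≤ δ) (h : NegCone (shiftT R δ))
    (ha : - scal e R = 2 * m * a + 2 * m * (2 * m - 1) * δ) :
    0 ≤ a ∧ lowGB m a δ ≤ (-1) ^ m * gbc e R ∧ (-1) ^ m * gbc e R ≤ upGB m a δ := by
  obtain ⟨r, hr⟩ := spec_exists hm e h
  have hpi := Real.pi_pos
  have hm0 : (0 : ℝ) < m := by exact_mod_cast hm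
  have hm1 : (1 : ℝ) ≤ m := by exact_mod_cast hm
  have h1 := hr.2.1
  rw [scal_shift] at h1
  have h2 : es r 1 = 2 * m * a := by linarith
  have h3 : 0 ≤ es r 1 := es_nonneg hr.1 1
  have h4 := hr.2.2.2 δ
  rw [shiftT_shiftT] at h4
  refine ⟨?_, ?_, ?_⟩
  · rw [h2] at h3
    exact nonneg_of_mul_nonneg_right h3 (by positivity)
  · rw [h4]
    have h5 : ((2 * m).factorial : ℝ) / m.factorial * δ ^ m +
        2 * m * a * ((2 * (m - 1)).factorial / (m - 1).factorial) * δ ^ (m - 1) ≤
        gpoly m (es r) δ := by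
      unfold gpoly
      have h6 : ∑ j ∈ ({0, 1} : Finset ℕ), es r j *
          (((2 * (m - j)).factorial : ℝ) / (m - j).factorial) * δ ^ (m - j) ≤
          ∑ j ∈ Finset.range (m + 1), es r j *
            (((2 * (m - j)).factorial : ℝ) / (m - j).factorial) * δ ^ (m - j) := by
        refine Finset.sum_le_sum_of_subset_of_nonneg ?_ ?_
        · intro j hj
          simp only [Finset.mem_insert, Finset.mem_singleton] at hj
          rw [Finset.mem_range]
          omega
        · intro j _ _
          exact mul_nonneg (mul_nonneg (es_nonneg hr.1 j) (by positivity)) (pow_nonneg hδ _)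
      rw [Finset.sum_pair (by norm_num), es_zero, h2, one_mul, Nat.sub_zero] at h6
      exact h6
    have h6 := fact_ratio hm
    have h7 : lowGB m a δ = (((2 * m).factorial : ℝ) / m.factorial * δ ^ m +
        2 * m * a * ((2 * (m - 1)).factorial / (m - 1).factorial) * δ ^ (m - 1)) /
          (4 * Real.pi) ^ m := by
      have h8 : δ ^ m = δ ^ (m - 1) * δ := by
        rw [← pow_succ]
        congr 1
        omega
      have h9 : (2 * (m : ℝ) - 1) ≠ 0 := by linarith
      have h10 : roundGB m 1 = ((2 * m).factorial : ℝ) / m.factorial / (4 * Real.pi) ^ m := by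
        unfold roundGB
        rw [one_pow, mul_one, div_div, mul_comm ((4 * Real.pi) ^ m)]
      unfold lowGB
      rw [h10, h6, h8]
      field_simp
    rw [h7]
    exact div_le_div_of_nonneg_right h5 (by positivity)
  · rw [h4]
    have h5 : gpoly m (es r) δ ≤ gpoly m (fun j => m.choose j * (2 * a) ^ j) δ := by
      refine gpoly_mono hδ fun j hj => ?_
      have h6 := macl m r hm hr.1 j hj
      have h7 : es r 1 / m = 2 * a := by
        rw [h2]
        field_simp
      rw [h7] at h6
      exact h6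
    unfold upGB
    exact div_le_div_of_nonneg_right h5 (by positivity)

theorem upGB_zero (hm : 1 ≤ m) (a : ℝ) : upGB m a 0 = (a / (2 * Real.pi)) ^ m := by
  unfold upGB
  have h1 := gpoly_zero (m := m) (fun j => m.choose j * (2 * a) ^ j)
  unfold gpoly at h1
  rw [h1, Nat.choose_self, Nat.cast_one, one_mul, ← div_pow]
  congr 1
  have hpi := Real.pi_pos
  field_simp
  ring

/-- **The bound for the norm of the curvature tensor.** -/
theorem norm_bound (hm : 1 ≤ m) (e : OrthonormalBasis (Fin m × Bool) ℝ V)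
    {R : V → V → V → V → ℝ} (h : NegCone R) (h2m : 2 ≤ m) :
    normSq e R ≤ 4 * ricSq e R - scal e R ^ 2 / m := by
  obtain ⟨r, hr⟩ := spec_exists hm e h
  have h1 := hr.2.2.1 h2m
  have h2 := newt m r hm
  have h3 := hr.2.1
  have hm0 : (0 : ℝ) < m := by exact_mod_cast hm
  rw [← h3, neg_sq] at h2
  have h4 : 2 * ((m - 1 : ℝ) / (2 * m) * scal e R ^ 2) = scal e R ^ 2 - scal e R ^ 2 / m := by
    field_simp
  linarith

/-- Einstein tensors: Ricci curvature -/
theorem einstein_ric (e : OrthonormalBasis (Fin m × Bool) ℝ V) {R : V → V → V → V → ℝ} {κ : ℝ}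
    (h : Einstein e R κ) : scal e R = 2 * m * (2 * m - 1) * κ ∧
      ricSq e R = 2 * m * ((2 * m - 1) * κ) ^ 2 := by
  have h2 : ∀ j l, ∑ i, R (e i) (e j) (e i) (e l) = (2 * m - 1) * κ * (if j = l then 1 else 0) := by
    intro j l
    rw [h (e j) (e l), orthonormal_iff_ite.mp e.orthonormal j l]
  constructor
  · unfold scal
    rw [Finset.sum_comm]
    simp only [h2, if_true, mul_one]
    rw [Finset.sum_const, Finset.card_univ, Fintype.card_prod, Fintype.card_fin,
      Fintype.card_bool, nsmul_eq_mul]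
    push_cast
    ring
  · unfold ricSq
    simp only [h2]
    have h3 : ∀ j : Fin m × Bool, ∑ l, ((2 * (m : ℝ) - 1) * κ * (if j = l then 1 else 0)) ^ 2 =
        ((2 * m - 1) * κ) ^ 2 := by
      intro j
      rw [Finset.sum_eq_single j]
      · rw [if_pos rfl, mul_one]
      · intro l _ hl
        rw [if_neg (Ne.symm hl), mul_zero, zero_pow two_ne_zero]
      · simp
    rw [Finset.sum_congr rfl fun j _ => h3 j, Finset.sum_const, Finset.card_univ,
      Fintype.card_prod, Fintype.card_fin, Fintype.card_bool, nsmul_eq_mul]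
    push_cast
    ring

end point

end Pool.Agent.H783.HM
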