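import Pool.Agent.H783.HM.Cone

/-!
# Products of planes
-/

set_option autoImplicit false
set_option linter.unusedSectionVars false
set_option linter.unusedVariables false

namespace Pool.Agent.H783.HM

open Filter Topology
open Pool.Agent.H783.HL
open Pool.Agent.W666.GB Pool.Agent.W669.HD Pool.Agent.Y519.HB

variable {V : Type} [NormedAddCommGroup V] [InnerProductSpace ℝ V] {m : ℕ}

/-- indicator of an index -/
noncomputable def dl (i j : Fin m × Bool) : ℝ := if i = j then 1 else 0

/-- the forms of a product of planes -/
noncomputable def plB (c : Fin m → ℝ) : Fin m × Option (Fin 0) → Fin m × Bool → Fin m × Bool → ℝ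
  | (a, none) => fun i j => c a * (dl (a, false) i * dl (a, false) j + dl (a, true) i * dl (a, true) j)
  | (_, some _) => fun _ _ => 0

theorem plB_sum (c : Fin m → ℝ) (i j k l : Fin m × Bool) :
    ∑ o, pw o * (plB c o i j * plB c o k l) =
      ∑ a, (c a * (dl (a, false) i * dl (a, false) j + dl (a, true) i * dl (a, true) j)) *
        (c a * (dl (a, false) k * dl (a, false) l + dl (a, true) k * dl (a, true) l)) := by
  rw [Fintype.sum_prod_type]
  refine Finset.sum_congr rfl fun a _ => ?_
  rw [Fintype.sum_option]
  simp [plB, pw]

theorem planes_forms (e : OrthonormalBasis (Fin m × Bool) ℝ V) {k : Fin m → ℝ}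
    (hk : ∀ a, 0 ≤ k a) (i j k' l : Fin m × Bool) :
    planes e k (e i) (e j) (e k') (e l) =
      -((∑ o, pw o * (plB (fun a => Real.sqrt (k a)) o i k' * plB (fun a => Real.sqrt (k a)) o j l)) -
        ∑ o, pw o * (plB (fun a => Real.sqrt (k a)) o i l *
          plB (fun a => Real.sqrt (k a)) o j k')) := by
  rw [plB_sum, plB_sum, ← Finset.sum_sub_distrib]
  unfold planes
  congr 1
  refine Finset.sum_congr rfl fun a _ => ?_
  have h1 : ∀ p q : Fin m × Bool, inner ℝ (e p) (e q) = dl p q := by
    intro p q
    rw [orthonormal_iff_ite.mp e.orthonormal p q]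
    rfl
  unfold sqDec
  simp only [h1]
  have h2 : Real.sqrt (k a) * Real.sqrt (k a) = k a := Real.mul_self_sqrt (hk a)
  linear_combination (-((dl (a, false) i * dl (a, true) j - dl (a, false) j * dl (a, true) i) *
    (dl (a, false) k' * dl (a, true) l - dl (a, false) l * dl (a, true) k'))) * h2

/-- the determinant of a product of planes -/
theorem pl_dpoly (c : Fin m → ℝ) : dpoly (optB (plB c)) =
    ∏ a, (MvPolynomial.X ((none, none) : Option (Fin m) × Option (Fin 0)) +
      MvPolynomial.C (c a) * MvPolynomial.X (some a, none)) ^ 2 := by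
  unfold dpoly
  have h1 : (Matrix.of fun i j => ∑ o, MvPolynomial.X o * MvPolynomial.C (optB (plB c) o i j)) =
      Matrix.diagonal fun i : Fin m × Bool =>
        (MvPolynomial.X ((none, none) : Option (Fin m) × Option (Fin 0)) +
          MvPolynomial.C (c i.1) * MvPolynomial.X (some i.1, none) :
            MvPolynomial (Option (Fin m) × Option (Fin 0)) ℝ) := by
    ext1 i j
    rw [Matrix.of_apply, Fintype.sum_prod_type, Fintype.sum_option, Fintype.sum_option]
    have h2 : ∀ a : Fin m, ∑ y : Option (Fin 0), MvPolynomial.X ((some a, y) :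
        Option (Fin m) × Option (Fin 0)) * MvPolynomial.C (optB (plB c) (some a, y) i j) =
        MvPolynomial.X (some a, none) * MvPolynomial.C (c a * (dl (a, false) i * dl (a, false) j +
          dl (a, true) i * dl (a, true) j)) := by
      intro a
      rw [Fintype.sum_option]
      simp [optB, plB]
    simp only [h2]
    rw [Finset.univ_eq_empty (α := Fin 0), Finset.sum_empty, add_zero]
    by_cases hij : i = j
    · subst hij
      rw [Matrix.diagonal_apply_eq, Finset.sum_eq_single i.1]
      · have h3 : dl (i.1, false) i * dl (i.1, false) i + dl (i.1, true) i * dl (i.1, true) i =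
            (1 : ℝ) := by
          obtain ⟨a, b⟩ := i
          cases b <;> simp [dl]
        rw [h3, mul_one]
        simp only [optB, if_true, MvPolynomial.C_1, mul_one]
        ring
      · intro a _ ha
        have h3 : ∀ b, dl (a, b) i = 0 := by
          intro b
          unfold dl
          rw [if_neg]
          rintro rfl
          exact ha rfl
        simp [h3]
      · simp
    · rw [Matrix.diagonal_apply_ne _ hij, Finset.sum_eq_zero]
      · simp [optB, hij]
      · intro a _
        have h3 : ∀ b, dl (a, b) i * dl (a, b) j = 0 := by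
          intro b
          unfold dl
          by_cases h4 : (a, b) = i
          · rw [if_neg (fun h5 => hij (h4.symm.trans h5)), mul_zero]
          · rw [if_neg h4, zero_mul]
        simp [h3]
  rw [h1, Matrix.det_diagonal, Fintype.prod_prod_type]
  refine Finset.prod_congr rfl fun a _ => ?_
  rw [Fintype.prod_bool, sq]

/-- **The spectrum of a product of planes.** -/
theorem planes_spec (hQ : N_Prod) (hP : N_Split) (hD : M_Second) (hF : P_Fourth) (hQ4 : P_Quad)
    (e : OrthonormalBasis (Fin m × Bool) ℝ V) {k : Fin m → ℝ} (hk : ∀ a, 0 ≤ k a) :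
    Spec e (planes e k) fun a => 2 * k a := by
  have h0 : ∀ j, MvPolynomial.eval (opte 0) ((lap (fun o => optc o.1 * pw o))^[j]
      (dpoly (optB (plB fun a => Real.sqrt (k a))))) = j.factorial * es (fun a => 2 * k a) j := by
    intro j
    rw [pl_dpoly]
    have h1 := hQ m (Option (Fin m) × Option (Fin 0)) (none, none) (fun a => (some a, none))
      (fun o => optc o.1 * pw o) (opte 0) (fun a => Real.sqrt (k a))
      (fun a b h => by simpa using h) (fun a => by simp) (by simp [optc]) (fun a => by
        simp [optc, pw]) rfl (fun a => rfl) j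
    have h2 : (fun a => 2 * Real.sqrt (k a) ^ 2) = fun a => 2 * k a := by
      funext a
      rw [Real.sq_sqrt (hk a)]
    rw [h2] at h1
    exact h1
  refine spec_of_forms e _ (plB fun a => Real.sqrt (k a)) (planes_forms e hk)
    (fun i => by have := hk i; positivity) ?_ (fun _ => ?_) fun s => ?_
  · have h1 := h0 1
    rw [Function.iterate_one, (optB_zero hD _).1] at h1
    simpa using h1
  · have h1 := h0 2
    rw [optB_two hF hQ4 _ ?_, Nat.factorial_two] at h1
    · push_cast at h1
      exact h1
    · rintro ⟨a, o⟩ i j
      cases o with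
      | none =>
        simp only [plB]
        ring
      | some b => rfl
  · rw [YY_eq hP]
    congr 1
    unfold gpoly
    refine Finset.sum_congr rfl fun j _ => ?_
    beta_reduce
    rw [h0]
    have : (j.factorial : ℝ) ≠ 0 := by positivity
    field_simp

/-- products of planes lie in the cone -/
theorem planes_cone (e : OrthonormalBasis (Fin m × Bool) ℝ V) {k : Fin m → ℝ}
    (hk : ∀ a, 0 ≤ k a) : NegCone (planes e k) := by
  refine ⟨m, fun a x y z w => -(k a * sqDec (e (a, false)) (e (a, true)) x y z w), fun a => ?_,
    fun x y z w => ?_⟩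
  · left
    refine ⟨0, fun x y => Real.sqrt (k a) * (inner ℝ (e (a, false)) x * inner ℝ (e (a, false)) y +
      inner ℝ (e (a, true)) x * inner ℝ (e (a, true)) y), fun q => q.elim0, ⟨?_, ?_, ?_⟩,
      fun q => q.elim0, fun x => ⟨?_, ?_⟩, fun x y z w => ?_⟩
    · intro x y
      ring
    · intro x x' y
      simp only [inner_add_right]
      ring
    · intro t x y
      simp only [inner_smul_right]
      ring
    · have h1 := Real.sqrt_nonneg (k a)
      have h2 : 0 ≤ inner ℝ (e (a, false)) x * inner ℝ (e (a, false)) x +
          inner ℝ (e (a, true)) x * inner ℝ (e (a, true)) x :=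
        add_nonneg (mul_self_nonneg _) (mul_self_nonneg _)
      exact mul_nonneg h1 h2
    · simp only [Finset.univ_eq_empty, Finset.sum_empty]
      positivity
    · beta_reduce
      simp only [Finset.univ_eq_empty, Finset.sum_empty, zero_sub]
      have h2 : Real.sqrt (k a) * Real.sqrt (k a) = k a := Real.mul_self_sqrt (hk a)
      unfold sqDec
      linear_combination ((inner ℝ (e (a, false)) x * inner ℝ (e (a, true)) y -
        inner ℝ (e (a, false)) y * inner ℝ (e (a, true)) x) *
        (inner ℝ (e (a, false)) z * inner ℝ (e (a, true)) w -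
          inner ℝ (e (a, false)) w * inner ℝ (e (a, true)) z)) * h2
  · unfold planes
    rw [Finset.sum_neg_distrib]

end Pool.Agent.H783.HM
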