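import Pool.Agent.H783.HM.Ein

/-!
# Products of planes: Einstein condition and equality cases
-/

set_option autoImplicit false
set_option linter.unusedSectionVars false
set_option linter.unusedVariables false

namespace Pool.Agent.H783.HM

open Pool.Agent.H783.HL
open Pool.Agent.W666.GB Pool.Agent.W669.HD Pool.Agent.Y519.HB

variable {V : Type} [NormedAddCommGroup V] [InnerProductSpace ℝ V] {m : ℕ}

/-- products of planes of curvature `-(2 m - 1) κ` are Einstein, with `Ric = -(2 m - 1) κ` -/
theorem planes_einstein (e : OrthonormalBasis (Fin m × Bool) ℝ V) (κ : ℝ) :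
    Einstein e (planes e fun _ => (2 * m - 1) * κ) (-κ) := by
  intro y w
  have h1 : ∀ p q : Fin m × Bool, inner ℝ (e p) (e q) = if p = q then (1 : ℝ) else 0 := by
    intro p q
    rw [orthonormal_iff_ite.mp e.orthonormal p q]
  have h2 : ∀ a : Fin m, ∑ i, sqDec (e (a, false)) (e (a, true)) (e i) y (e i) w =
      inner ℝ (e (a, false)) y * inner ℝ (e (a, false)) w +
        inner ℝ (e (a, true)) y * inner ℝ (e (a, true)) w := by
    intro a
    have h3 : ∀ i, sqDec (e (a, false)) (e (a, true)) (e i) y (e i) w =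
        (if (a, false) = i then inner ℝ (e (a, true)) y * inner ℝ (e (a, true)) w else 0) +
        (if (a, true) = i then inner ℝ (e (a, false)) y * inner ℝ (e (a, false)) w else 0) := by
      intro i
      unfold sqDec
      rw [h1, h1]
      by_cases h4 : (a, false) = i
      · have h5 : (a, true) ≠ i := by
          rw [← h4]
          simp
        rw [if_pos h4, if_neg h5, if_pos h4, if_neg h5]
        ring
      · by_cases h5 : (a, true) = i
        · rw [if_neg h4, if_pos h5, if_neg h4, if_pos h5]
          ring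
        · rw [if_neg h4, if_neg h5, if_neg h4, if_neg h5]
          ring
    rw [Finset.sum_congr rfl fun i _ => h3 i, Finset.sum_add_distrib, Finset.sum_ite_eq,
      Finset.sum_ite_eq, if_pos (Finset.mem_univ _), if_pos (Finset.mem_univ _)]
    ring
  unfold planes
  rw [Finset.sum_neg_distrib, Finset.sum_comm]
  have h4 : ∑ a, ∑ i, (2 * (m : ℝ) - 1) * κ * sqDec (e (a, false)) (e (a, true)) (e i) y (e i) w =
      (2 * m - 1) * κ * inner ℝ y w := by
    simp only [← Finset.mul_sum, h2]
    congr 1
    rw [← e.sum_inner_mul_inner y w, Fintype.sum_prod_type]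
    refine Finset.sum_congr rfl fun a _ => ?_
    rw [Fintype.sum_bool, real_inner_comm (e (a, true)) y, real_inner_comm (e (a, false)) y]
    ring
  rw [h4]
  ring

/-- equality in the bound for the norm -/
theorem planes_norm (hm : 2 ≤ m) (e : OrthonormalBasis (Fin m × Bool) ℝ V) {a : ℝ} (ha : 0 ≤ a) :
    normSq e (planes e fun _ => a) = 4 * ricSq e (planes e fun _ => a) -
      scal e (planes e fun _ => a) ^ 2 / m := by
  have h1 := planes_spectrum e (k := fun _ => a) fun _ => ha
  have h2 := h1.2.2.1 hm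
  have h3 := h1.2.1
  rw [es_const] at h2 h3
  rw [Nat.choose_one_right, pow_one] at h3
  have h4 : ((m.choose 2 : ℕ) : ℝ) = m * (m - 1) / 2 := Nat.cast_choose_two ℝ m
  rw [h4] at h2
  have hm0 : (0 : ℝ) < m := by
    have : 0 < m := by omega
    exact_mod_cast this
  have h5 : scal e (planes e fun _ => a) = - (m * (2 * a)) := by linarith
  rw [h5] at h2 ⊢
  have h6 : (-(m * (2 * a))) ^ 2 / (m : ℝ) = 4 * m * a ^ 2 := by
    field_simp
    ring
  rw [h6]
  nlinarith [h2]

/-- equality in the bound for the Weyl curvature -/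
theorem planes_weyl (hm : 2 ≤ m) (e : OrthonormalBasis (Fin m × Bool) ℝ V) {κ δ : ℝ}
    (hκ : δ ≤ κ) :
    Einstein e (shiftT (planes e fun _ => (2 * m - 1) * (κ - δ)) (-δ)) (-κ) ∧
    NegCone (shiftT (shiftT (planes e fun _ => (2 * m - 1) * (κ - δ)) (-δ)) δ) ∧
    normSq e (shiftT (shiftT (planes e fun _ => (2 * m - 1) * (κ - δ)) (-δ)) κ) =
      8 * m * (m - 1) * (2 * m - 1) * (κ - δ) ^ 2 := by
  have hm1 : (1 : ℝ) ≤ m := by
    have : 1 ≤ m := by omega
    exact_mod_cast this
  have ha : 0 ≤ (2 * m - 1) * (κ - δ) := mul_nonneg (by linarith) (by linarith)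
  have hE := planes_einstein e (κ - δ)
  have hN := planes_norm hm e ha
  obtain ⟨h2, h3⟩ := einstein_ric e hE
  have h0 : shiftT (shiftT (planes e fun _ => (2 * m - 1) * (κ - δ)) (-δ)) δ =
      planes e fun _ => (2 * m - 1) * (κ - δ) := by
    funext x y z w
    unfold shiftT
    ring
  have hC := planes_cone e (k := fun _ => (2 * m - 1) * (κ - δ)) fun _ => ha
  refine ⟨?_, ?_, ?_⟩
  · have h1 := einstein_shift e hE (-δ)
    have h4 : -(κ - δ) + -δ = -κ := by ring
    rw [h4] at h1
    exact h1
  · rw [h0]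
    exact hC
  · have h5 := norm_shift e hC.curv (κ - δ)
    have h6 : shiftT (shiftT (planes e fun _ => (2 * m - 1) * (κ - δ)) (-δ)) κ =
        shiftT (planes e fun _ => (2 * m - 1) * (κ - δ)) (κ - δ) := by
      funext x y z w
      unfold shiftT
      ring
    rw [h6, h5, h2, hN, h2, h3]
    have h7 : (2 * m * (2 * m - 1) * (-(κ - δ))) ^ 2 / (m : ℝ) =
        4 * m * ((2 * m - 1) * (-(κ - δ))) ^ 2 := by
      field_simp
      ring
    rw [h7]
    ring

/-- The Weyl curvature of Einstein tensors of positive scalar curvature. -/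
theorem weyl_bound_pos (hm : 2 ≤ m) (e : OrthonormalBasis (Fin m × Bool) ℝ V)
    {R : V → V → V → V → ℝ} {κ δ : ℝ} (h : NegCone (shiftT (negT R) δ)) (hE : Einstein e R κ) :
    normSq e (shiftT R (-κ)) ≤ 8 * m * (m - 1) * (2 * m - 1) * (κ - δ) ^ 2 := by
  have h1 := weyl_bound hm e h (einstein_negT e hE)
  have h2 : normSq e (shiftT R (-κ)) = normSq e (shiftT (negT R) κ) := by
    unfold normSq shiftT negT
    refine Finset.sum_congr rfl fun i _ => Finset.sum_congr rfl fun j _ =>
      Finset.sum_congr rfl fun k _ => Finset.sum_congr rfl fun l _ => ?_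
    ring
  rw [h2]
  exact h1

end Pool.Agent.H783.HM
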