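import Pool.Agent.H783.HM.Bound
import Pool.Agent.H783.HL.Causal

/-!
# The bound for families with values in products of light cones
-/

set_option autoImplicit false
set_option linter.unusedSectionVars false

namespace Pool.Agent.H783.HM

open MvPolynomial Filter Topology
open Pool.Agent.H783.HL
open Pool.Agent.H783.Hopf (qf)
open Pool.Agent.W666.GB (sn MD Yf)

section strict

variable {ι K : Type} [Fintype ι] [Fintype K] [DecidableEq ι] [DecidableEq K] {m : ℕ}

/-- the strict case, in any direction of the cone -/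
theorem strict_bound (hU : M_Uni) (hS : M_Star) [Nonempty ι]
    (B : ι × Option K → Fin m × Bool → Fin m × Bool → ℝ) (hm : 1 ≤ m)
    (hs : ∀ o i j, B o i j = B o j i) {ε : ℝ} (hε : 0 < ε)
    (hc : ∀ (j : ι) (y : EuclideanSpace ℝ (Fin m × Bool)),
      Real.sqrt (∑ b, qf (B (j, some b)) y ^ 2) + ε * ‖y‖ ^ 2 ≤ qf (B (j, none)) y)
    (c : ι → ℝ) (hc0 : ∀ j, 0 ≤ c j) (e : ι × Option K → ℝ) (he : e ∈ PC ι K) :
    0 ≤ eval e (lap (fun o => c o.1 * pw o) (dpoly B)) ∧
      Yf (fun a b a' b' => ∑ o : ι × Option K, (c o.1 * pw o) * (B o a b * B o a' b')) /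
          m.factorial * (m : ℝ) ^ m * eval e (dpoly B) ^ (m - 1) ≤
        eval e (lap (fun o => c o.1 * pw o) (dpoly B)) ^ m := by
  have hcard : Fintype.card (Fin m × Bool) = 2 * m := by
    rw [Fintype.card_prod, Fintype.card_fin, Fintype.card_bool, mul_comm]
  have hlow : ∀ (v : ι × Option K → ℝ), (∀ j, 0 ≤ v (j, none) ∧
      ∑ b : K, v (j, some b) ^ 2 ≤ v (j, none) ^ 2) → ∀ y : EuclideanSpace ℝ (Fin m × Bool),
      (ε * ∑ j, v (j, none)) * ‖y‖ ^ 2 ≤ qf (fun i j => ∑ o, v o * B o i j) y := by
    intro v hv y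
    rw [qf_lin, Fintype.sum_prod_type]
    have h1 : (ε * ∑ j, v (j, none)) * ‖y‖ ^ 2 = ∑ j, v (j, none) * (ε * ‖y‖ ^ 2) := by
      rw [← Finset.sum_mul]
      ring
    rw [h1]
    refine Finset.sum_le_sum fun j _ => ?_
    rw [Fintype.sum_option]
    obtain ⟨h2, h3⟩ := hv j
    have h4 := Finset.sum_mul_sq_le_sq_mul_sq Finset.univ (fun b : K => v (j, some b))
      (fun b : K => qf (B (j, some b)) y)
    have h5 : (∑ b : K, v (j, some b) * qf (B (j, some b)) y) ^ 2 ≤
        (v (j, none) * Real.sqrt (∑ b, qf (B (j, some b)) y ^ 2)) ^ 2 := by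
      refine h4.trans ?_
      rw [mul_pow, Real.sq_sqrt (Finset.sum_nonneg fun _ _ => sq_nonneg _)]
      exact mul_le_mul_of_nonneg_right h3 (Finset.sum_nonneg fun _ _ => sq_nonneg _)
    have h6 := (abs_le_of_sq_le_sq' h5 (by positivity)).1
    have h7 := mul_le_mul_of_nonneg_left (hc j y) h2
    linarith
  have hbox := hm_bound hU (ι × Option K) (PC ι K) e (fun o => c o.1 * pw o) (dpoly B) m hm
    (hl_star ι K).1 he zero_notMem_PC (hS ι K c hc0 e he)
    (by rw [← hcard]; exact dpoly_hom B) ?_ ?_
  · rw [lap_dpoly pair] at hbox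
    exact hbox
  · intro x s hs'
    rw [dpoly_aeval]
    have h1 : (Matrix.of fun i j => ∑ o, cp x (fun k => s * e k) o * (B o i j : ℂ)) =
        Matrix.of fun i j => (((∑ o, x o * B o i j : ℝ)) : ℂ) +
          (((∑ o, (s * e o) * B o i j : ℝ)) : ℂ) * Complex.I := by
      ext i j
      simp only [Matrix.of_apply, cp]
      push_cast
      rw [Finset.sum_mul, ← Finset.sum_add_distrib]
      refine Finset.sum_congr rfl fun o _ => ?_
      ring
    rw [h1]
    have hv : (fun o => s * e o) ∈ PC ι K := (hl_star ι K).1.cone s hs' e he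
    refine det_stab (p := ε * ∑ j : ι, s * e (j, none)) ?_ ?_ ?_ ?_
    · intro i j
      exact Finset.sum_congr rfl fun o _ => by rw [hs]
    · intro i j
      exact Finset.sum_congr rfl fun o _ => by rw [hs]
    · have : 0 < ∑ j : ι, s * e (j, none) :=
        Finset.sum_pos (fun j _ => (hv j).1) Finset.univ_nonempty
      positivity
    · intro y
      exact hlow (fun o => s * e o) (fun j => ⟨(hv j).1.le, (hv j).2.le⟩) y
  · intro v hv hv0
    rw [dpoly_eval]
    have hv' := closure_PC hv
    have hsum : 0 < ∑ j, v (j, none) := by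
      refine lt_of_le_of_ne (Finset.sum_nonneg fun j _ => (hv' j).1) ?_
      intro h0
      apply hv0
      have h1 : ∀ j, v (j, none) = 0 := fun j =>
        (Finset.sum_eq_zero_iff_of_nonneg (fun j _ => (hv' j).1)).1 h0.symm j (Finset.mem_univ j)
      funext o
      obtain ⟨j, o⟩ := o
      cases o with
      | none => exact h1 j
      | some b =>
        have h2 := (hv' j).2
        rw [h1 j, zero_pow two_ne_zero] at h2
        have h3 : v (j, some b) ^ 2 ≤ ∑ b : K, v (j, some b) ^ 2 :=
          Finset.single_le_sum (f := fun b => v (j, some b) ^ 2) (fun _ _ => sq_nonneg _)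
            (Finset.mem_univ b)
        have h4 : v (j, some b) ^ 2 = 0 := le_antisymm (h3.trans h2) (sq_nonneg _)
        simpa using pow_eq_zero_iff two_ne_zero |>.1 h4
    refine det_pos_of_qf ?_ (mul_pos hε hsum) (hlow v hv')
    intro i j
    exact Finset.sum_congr rfl fun o _ => by rw [hs]

/-- the family with the identity matrix added -/
noncomputable def optB (B : ι × Option K → Fin m × Bool → Fin m × Bool → ℝ) :
    Option ι × Option K → Fin m × Bool → Fin m × Bool → ℝ
  | (none, none) => fun i j => if i = j then 1 else 0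
  | (none, some _) => fun _ _ => 0
  | (some j, o) => B (j, o)

/-- the weights of the blocks -/
def optc : Option ι → ℝ
  | none => 0
  | some _ => 1

/-- the direction `(1, η, …, η)` -/
noncomputable def opte (η : ℝ) : Option ι × Option K → ℝ
  | (none, none) => 1
  | (some _, none) => η
  | (_, some _) => 0

/-- minus the scalar curvature of the family -/
noncomputable def S1 (B : ι × Option K → Fin m × Bool → Fin m × Bool → ℝ) : ℝ :=
  ∑ o, pw o * ((∑ i, B o i i) ^ 2 - ∑ i, ∑ j, B o i j * B o j i)

theorem optB_Yf (B : ι × Option K → Fin m × Bool → Fin m × Bool → ℝ) :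
    (fun a b a' b' => ∑ o : Option ι × Option K, (optc o.1 * pw o) * (optB B o a b * optB B o a' b'))
      = fun a b a' b' => ∑ o, pw o * (B o a b * B o a' b') := by
  funext a b a' b'
  rw [Fintype.sum_prod_type, Fintype.sum_option, Fintype.sum_prod_type]
  have h1 : ∑ y : Option K, optc (none : Option ι) * pw ((none, y) : Option ι × Option K) *
      (optB B (none, y) a b * optB B (none, y) a' b') = 0 := by
    refine Finset.sum_eq_zero fun y _ => ?_
    simp [optc]
  rw [h1, zero_add]
  refine Finset.sum_congr rfl fun j _ => Finset.sum_congr rfl fun o _ => ?_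
  show (1 : ℝ) * pw (j, o) * (B (j, o) a b * B (j, o) a' b') = _
  rw [one_mul]

theorem optB_zero (hD : M_Second) (B : ι × Option K → Fin m × Bool → Fin m × Bool → ℝ) :
    eval (opte 0) (lap (fun o => optc o.1 * pw o) (dpoly (optB B))) = S1 B ∧
      eval (opte 0) (dpoly (optB B)) = 1 := by
  have h0 : ∀ i j, ∑ o, opte (ι := ι) (K := K) 0 o * optB B o i j = if i = j then 1 else 0 := by
    intro i j
    rw [Fintype.sum_prod_type, Fintype.sum_option, Fintype.sum_option]
    have h1 : ∑ x : K, opte (ι := ι) 0 (none, some x) * optB B (none, some x) i j = 0 :=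
      Finset.sum_eq_zero fun x _ => by simp [opte]
    have h2 : ∑ x : ι, ∑ y : Option K, opte (ι := ι) 0 (some x, y) * optB B (some x, y) i j = 0 := by
      refine Finset.sum_eq_zero fun x _ => Finset.sum_eq_zero fun y _ => ?_
      cases y <;> simp [opte]
    rw [h1, h2]
    simp [opte, optB]
  constructor
  · unfold lap S1
    rw [map_sum, Fintype.sum_prod_type, Fintype.sum_option, Fintype.sum_prod_type]
    have h1 : ∑ y : Option K, eval (opte 0) (C (optc (none : Option ι) * pw
        ((none, y) : Option ι × Option K)) * dd (none, y) (dpoly (optB B))) = 0 := by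
      refine Finset.sum_eq_zero fun y _ => ?_
      simp [optc]
    rw [h1, zero_add]
    refine Finset.sum_congr rfl fun j _ => Finset.sum_congr rfl fun o _ => ?_
    rw [map_mul, eval_C, hD _ _ _ _ h0]
    show (1 : ℝ) * pw (j, o) * _ = _
    rw [one_mul]
    rfl
  · rw [dpoly_eval]
    have h1 : (Matrix.of fun i j => ∑ o, opte (ι := ι) (K := K) 0 o * optB B o i j) = 1 := by
      ext i j
      rw [Matrix.of_apply, h0, Matrix.one_apply]
    rw [h1, Matrix.det_one]

theorem opte_mem {η : ℝ} (hη : 0 < η) : (opte η : Option ι × Option K → ℝ) ∈ PC (Option ι) K := by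
  intro j
  cases j with
  | none => simp [opte]
  | some j =>
    simp only [opte]
    refine ⟨hη, ?_⟩
    simp
    positivity

theorem opte_cont (p : MvPolynomial (Option ι × Option K) ℝ) :
    Continuous fun η : ℝ => eval (opte η) p := by
  have h1 : Continuous fun v : Option ι × Option K → ℝ => eval v p := p.continuous_eval
  refine h1.comp (continuous_pi fun o => ?_)
  obtain ⟨a, b⟩ := o
  cases b with
  | none =>
    cases a with
    | none => exact continuous_const
    | some a => exact continuous_id
  | some b =>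
    cases a with
    | none => exact continuous_const
    | some a => exact continuous_const

/-- the strict case -/
theorem strict_two (hU : M_Uni) (hS : M_Star) (hD : M_Second)
    (B : ι × Option K → Fin m × Bool → Fin m × Bool → ℝ) (hm : 1 ≤ m)
    (hs : ∀ o i j, B o i j = B o j i) {ε : ℝ} (hε : 0 < ε)
    (hc : ∀ (j : ι) (y : EuclideanSpace ℝ (Fin m × Bool)),
      Real.sqrt (∑ b, qf (B (j, some b)) y ^ 2) + ε * ‖y‖ ^ 2 ≤ qf (B (j, none)) y) :
    0 ≤ S1 B ∧ Yf (fun a b a' b' => ∑ o, pw o * (B o a b * B o a' b')) / m.factorial *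
      (m : ℝ) ^ m ≤ S1 B ^ m := by
  have h1 : ∀ η : ℝ, 0 < η → _ := fun η hη => strict_bound hU hS (optB B) hm
    (ε := min ε 1) ?_ (lt_min hε one_pos) ?_ optc ?_ (opte η) (opte_mem hη)
  · obtain ⟨h2, h3⟩ := optB_zero hD B
    have h4 := ((opte_cont (lap (fun o => optc o.1 * pw o) (dpoly (optB B)))).tendsto
      0).mono_left (nhdsWithin_le_nhds (s := Set.Ioi (0 : ℝ)))
    have h5 := ((opte_cont (dpoly (optB B))).tendsto
      0).mono_left (nhdsWithin_le_nhds (s := Set.Ioi (0 : ℝ)))
    rw [h2] at h4
    rw [h3] at h5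
    refine ⟨ge_of_tendsto h4 (eventually_nhdsWithin_of_forall fun η hη => (h1 η hη).1), ?_⟩
    have h6 := le_of_tendsto_of_tendsto ((h5.pow (m - 1)).const_mul _) (h4.pow m)
      (eventually_nhdsWithin_of_forall fun η hη => (h1 η hη).2)
    rw [optB_Yf, one_pow, mul_one] at h6
    exact h6
  · rintro ⟨a, o⟩ i j
    cases a with
    | none =>
      cases o with
      | none => simp only [optB, eq_comm]
      | some b => rfl
    | some a => exact hs _ _ _
  · intro a y
    cases a with
    | none =>
      have h2 : qf (fun i j : Fin m × Bool => if i = j then (1 : ℝ) else 0) y = ‖y‖ ^ 2 := by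
        have h3 := qf_add_diag (fun _ _ => 0) 1 y
        simp only [zero_add, one_mul] at h3
        rw [h3]
        unfold Hopf.qf
        simp
      have h3 : qf (fun _ _ : Fin m × Bool => (0 : ℝ)) y = 0 := by
        unfold Hopf.qf
        simp
      show Real.sqrt (∑ b : K, qf (fun _ _ => 0) y ^ 2) + min ε 1 * ‖y‖ ^ 2 ≤
        qf (fun i j => if i = j then 1 else 0) y
      rw [h2, h3]
      simp only [ne_eq, OfNat.ofNat_ne_zero, not_false_eq_true, zero_pow, Finset.sum_const_zero,
        Real.sqrt_zero, zero_add]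
      have h4 : min ε 1 ≤ 1 := min_le_right _ _
      nlinarith [sq_nonneg ‖y‖]
    | some a =>
      have h4 : min ε 1 ≤ ε := min_le_left _ _
      refine le_trans ?_ (hc a y)
      exact add_le_add le_rfl (mul_le_mul_of_nonneg_right h4 (sq_nonneg _))
  · intro j
    cases j with
    | none => exact le_rfl
    | some j => exact zero_le_one

theorem S1_shift_cont (B : ι × Option K → Fin m × Bool → Fin m × Bool → ℝ) :
    Continuous fun ε : ℝ => S1 (shiftB B ε) := by
  unfold S1 shiftB
  fun_prop

/-- **The bound for causal families.** -/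
theorem causal_bound (hU : M_Uni) (hS : M_Star) (hD : M_Second)
    (B : ι × Option K → Fin m × Bool → Fin m × Bool → ℝ) (hm : 1 ≤ m)
    (hs : ∀ o i j, B o i j = B o j i)
    (hc : ∀ (j : ι) (y : EuclideanSpace ℝ (Fin m × Bool)),
      0 ≤ qf (B (j, none)) y ∧ ∑ b, qf (B (j, some b)) y ^ 2 ≤ qf (B (j, none)) y ^ 2) :
    0 ≤ S1 B ∧ Yf (fun a b a' b' => ∑ o, pw o * (B o a b * B o a' b')) / m.factorial *
      (m : ℝ) ^ m ≤ S1 B ^ m := by
  have h1 : ∀ ε : ℝ, 0 < ε → 0 ≤ S1 (shiftB B ε) ∧
      Yf (fun a b a' b' => ∑ o, pw o * (shiftB B ε o a b * shiftB B ε o a' b')) / m.factorial *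
        (m : ℝ) ^ m ≤ S1 (shiftB B ε) ^ m := by
    intro ε hε
    refine strict_two hU hS hD (shiftB B ε) hm ?_ hε ?_
    · intro o i j
      unfold shiftB
      rw [hs]
      obtain ⟨a, o⟩ := o
      cases o with
      | none => simp only [Option.elim_none, eq_comm]
      | some b => rfl
    · intro j y
      have h2 : shiftB B ε (j, none) = fun i k => B (j, none) i k + ε * (if i = k then 1 else 0) :=
        rfl
      have h3 : ∀ b, shiftB B ε (j, some b) = B (j, some b) := by
        intro b
        funext i k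
        show B (j, some b) i k + ε * 0 = B (j, some b) i k
        ring
      simp only [h2, h3, qf_add_diag]
      obtain ⟨h4, h5⟩ := hc j y
      have h6 := Real.sqrt_le_sqrt h5
      rw [Real.sqrt_sq h4] at h6
      linarith
  have h2 := ((Yf_shift_cont B).tendsto 0).mono_left (nhdsWithin_le_nhds (s := Set.Ioi (0 : ℝ)))
  have h4 := ((S1_shift_cont B).tendsto 0).mono_left (nhdsWithin_le_nhds (s := Set.Ioi (0 : ℝ)))
  have h3 : shiftB B 0 = B := by
    funext o i j
    unfold shiftB
    rw [zero_mul, add_zero]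
  rw [h3] at h2 h4
  refine ⟨ge_of_tendsto h4 (eventually_nhdsWithin_of_forall fun ε hε => (h1 ε hε).1), ?_⟩
  exact le_of_tendsto_of_tendsto ((h2.div_const _).mul_const _) (h4.pow m)
    (eventually_nhdsWithin_of_forall fun ε hε => (h1 ε hε).2)

end strict

end Pool.Agent.H783.HM
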