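import Pool.Agent.H783.HM.Stm3
import Pool.Agent.H783.HM.Strict

/-!
# The spectrum of a family with values in products of light cones
-/

set_option autoImplicit false
set_option linter.unusedSectionVars false

namespace Pool.Agent.H783.HM

open MvPolynomial Filter Topology
open Pool.Agent.H783.HL
open Pool.Agent.H783.Hopf (qf)
open Pool.Agent.W666.GB (sn MD Yf)

section es

variable {m : ℕ}

theorem es_zero (r : Fin m → ℝ) : es r 0 = 1 := by
  unfold es
  simp

theorem es_one (r : Fin m → ℝ) : es r 1 = ∑ i, r i := by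
  unfold es
  rw [Finset.powersetCard_one, Finset.sum_map]
  simp

theorem es_top (r : Fin m → ℝ) : es r m = ∏ i, r i := by
  unfold es
  have h := Finset.powersetCard_self (Finset.univ : Finset (Fin m))
  rw [Finset.card_univ, Fintype.card_fin] at h
  rw [h, Finset.sum_singleton]

theorem es_nonneg {r : Fin m → ℝ} (hr : ∀ i, 0 ≤ r i) (j : ℕ) : 0 ≤ es r j :=
  Finset.sum_nonneg fun _ _ => Finset.prod_nonneg fun i _ => hr i

theorem es_cont (j : ℕ) : Continuous fun r : Fin m → ℝ => es r j := by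
  unfold es
  fun_prop

theorem le_es_one {r : Fin m → ℝ} (hr : ∀ i, 0 ≤ r i) (i : Fin m) : r i ≤ es r 1 := by
  rw [es_one]
  exact Finset.single_le_sum (f := r) (fun i _ => hr i) (Finset.mem_univ i)

theorem gpoly_cont (s : ℝ) : Continuous fun r : Fin m → ℝ => gpoly m (es r) s := by
  unfold gpoly
  refine continuous_finsetSum _ fun j _ => ?_
  have := es_cont (m := m) j
  fun_prop

end es

section engine

theorem roots_pre (hR : N_Roots) {σ : Type} [Fintype σ] (e w : σ → ℝ) (p : MvPolynomial σ ℝ)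
    (m : ℕ) (a : ℝ) (hp : p.IsHomogeneous (2 * m)) (hpos : 0 < eval e p)
    (hstab : Stab (flow2 e w (2 * m) a 1 1 p) e) :
    ∃ r : Fin m → ℝ, (∀ i, 0 ≤ r i) ∧ ∀ j ≤ m,
      cj m (fun i k => eval e (g2 e w p i k)) a j = eval e p * es r j := by
  have h0 : cj m (fun i k => eval e (g2 e w p i k)) a 0 = eval e p := cj_c0 _ _ _
  have hz : ∀ z : ℂ, z.im ≠ 0 → ∑ j ∈ Finset.range (m + 1), (-1) ^ j *
      (cj m (fun i k => eval e (g2 e w p i k)) a j : ℂ) * z ^ (2 * (m - j)) ≠ 0 := by
    intro z hz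
    have key : ∀ u : ℂ, 0 < u.im → ∑ j ∈ Finset.range (m + 1), (-1) ^ j *
        (cj m (fun i k => eval e (g2 e w p i k)) a j : ℂ) * u ^ (2 * (m - j)) ≠ 0 := by
      intro u hu
      rw [← flow_line e w p m a hp u]
      have h1 := hstab (fun k => u.re * e k) u.im hu
      have h2 : (cp (fun k => u.re * e k) fun k => u.im * e k : σ → ℂ) =
          fun k => u * ((e k : ℝ) : ℂ) := by
        funext k
        simp only [cp]
        push_cast
        conv_rhs => rw [← Complex.re_add_im u]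
        ring
      rw [h2] at h1
      exact h1
    rcases lt_or_gt_of_ne hz with h | h
    · have h1 := key (-z) (by simpa using h)
      have h2 : ∀ j, (-z) ^ (2 * (m - j)) = z ^ (2 * (m - j)) := fun j =>
        (even_two_mul _).neg_pow z
      simp only [h2] at h1
      exact h1
    · exact key z h
  obtain ⟨r, hr, h⟩ := hR m (cj m (fun i k => eval e (g2 e w p i k)) a) (by rw [h0]; exact hpos) hz
  exact ⟨r, hr, fun j hj => by rw [h j hj, h0]⟩

/-- **The spectrum of a stable polynomial.** -/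
theorem spec_poly (hR' : N_Roots) (hN : N_Closed) {σ : Type} [Fintype σ] (Ω : Set (σ → ℝ))
    (e w : σ → ℝ) (p : MvPolynomial σ ℝ) (m : ℕ) (hm : 1 ≤ m) (hΩ : OCone Ω) (he : e ∈ Ω)
    (h0Ω : (0 : σ → ℝ) ∉ Ω) (hstar : Star Ω e w) (hp : p.IsHomogeneous (2 * m)) (hst : Stab p e)
    (hpos : ∀ v ∈ closure Ω, v ≠ 0 → 0 < eval v p) :
    ∃ r : Fin m → ℝ, (∀ i, 0 ≤ r i) ∧ ∀ j ≤ m,
      eval e ((lap w)^[j] p) / j.factorial = eval e p * es r j := by
  have hene : ∃ k, e k ≠ 0 := by
    by_contra hcon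
    push Not at hcon
    apply h0Ω
    have : e = 0 := funext hcon
    rw [← this]
    exact he
  have he0 : e ≠ 0 := by
    rintro rfl
    exact h0Ω he
  obtain ⟨hR1, hR2, hR4, hR3⟩ :=
    (reg2 slice2 rrSub rrSimple (rrExp rrSub uniLower)) σ e w p (2 * m) hene hp hst
  obtain ⟨hC1, hC2⟩ := regCont2 σ e p (2 * m)
  have hc0 : 0 < eval e p := hpos e (subset_closure he) he0
  -- positivity on the cone for small parameters
  have hcpt : IsCompact (closure Ω ∩ Metric.sphere (0 : σ → ℝ) 1) :=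
    (isCompact_sphere 0 1).inter_left isClosed_closure
  have hev : ∀ᶠ δ : ℝ in 𝓝 0, ∀ v ∈ closure Ω ∩ Metric.sphere (0 : σ → ℝ) 1,
      0 < eval v (reg e (2 * m) δ p) := by
    refine hcpt.eventually_forall_of_forall_eventually
      (P := fun δ v => 0 < eval v (reg e (2 * m) δ p)) ?_
    intro v hv
    have h1 : 0 < eval v (reg e (2 * m) 0 p) := by
      rw [reg_zero]
      refine hpos v hv.1 ?_
      rintro rfl
      simpa using hv.2
    exact hC2.continuousAt.eventually (lt_mem_nhds h1)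
  have hposΩ : ∀ᶠ δ : ℝ in 𝓝 0, ∀ v ∈ Ω, 0 < eval v (reg e (2 * m) δ p) := by
    filter_upwards [hev] with δ hδ v hv
    have hv0 : v ≠ 0 := by
      rintro rfl
      exact h0Ω hv
    have hn : 0 < ‖v‖ := norm_pos_iff.2 hv0
    have h1 := hδ (fun k => ‖v‖⁻¹ * v k) ⟨subset_closure (hΩ.cone _ (inv_pos.2 hn) v hv), ?_⟩
    · have h2 := eval_scale (hR1 δ) ‖v‖ (fun k => ‖v‖⁻¹ * v k)
      have h3 : (fun k => ‖v‖ * (‖v‖⁻¹ * v k)) = v := by
        funext k
        field_simp
      rw [h3] at h2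
      rw [h2]
      positivity
    · have h2 : (fun k => ‖v‖⁻¹ * v k) = ‖v‖⁻¹ • v := rfl
      rw [h2, mem_sphere_zero_iff_norm, norm_smul, norm_inv, norm_norm]
      exact inv_mul_cancel₀ hn.ne'
  -- passage to the limit: a bound for the roots
  have hbd : ∀ {r : Fin m → ℝ} {c1 M : ℝ}, (∀ i, 0 ≤ r i) → c1 = eval e p * es r 1 →
      c1 ≤ M → ∀ i, 0 ≤ r i ∧ r i ≤ M / eval e p := by
    intro r c1 M hr h1 h2 i
    refine ⟨hr i, (le_es_one hr i).trans ?_⟩
    rw [le_div_iff₀ hc0]
    linarith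
  -- the statement for small positive parameters
  have hbox : ∀ᶠ δ : ℝ in 𝓝[>] 0, ∃ r : Fin m → ℝ, (∀ i, 0 ≤ r i) ∧ ∀ j : Fin (m + 1),
      eval e ((lap w)^[(j : ℕ)] (reg e (2 * m) δ p)) / (j : ℕ).factorial =
        eval e p * es r (j : ℕ) := by
    filter_upwards [hposΩ.filter_mono nhdsWithin_le_nhds, self_mem_nhdsWithin] with δ hδ hδ0
    have hδ0' : (0 : ℝ) < δ := hδ0
    have hstab : ∀ a : ℝ, 0 < a →
        Stab (flow2 e w (2 * m) a 1 1 (reg e (2 * m) δ p)) e := fun a ha =>
      hl_main σ Ω e w _ (2 * m) a hΩ he hstar ha (hR1 δ) hδ (hR4 δ hδ0')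
        (fun τ => hR3 δ a τ hδ0'.le ha.le) 1 zero_le_one 1
    have hsum := fun (a : ℝ) (ha : 0 < a) =>
      roots_pre hR' e w (reg e (2 * m) δ p) m a (hR1 δ) (hδ e he) (hstab a ha)
    have hlim : ∀ j : Fin (m + 1), Tendsto
        (fun a => cj m (fun i k => eval e (g2 e w (reg e (2 * m) δ p) i k)) a (j : ℕ)) (𝓝[>] 0)
        (𝓝 (eval e ((lap w)^[(j : ℕ)] (reg e (2 * m) δ p)) / (j : ℕ).factorial)) := by
      intro j
      have h1 := ((cj_cont m (fun i k => eval e (g2 e w (reg e (2 * m) δ p) i k)) (j : ℕ)).tendsto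
        0).mono_left (nhdsWithin_le_nhds (s := Set.Ioi (0 : ℝ)))
      rw [cj_zero m _ (Nat.lt_succ_iff.1 j.2)] at h1
      exact h1
    have h1 := hlim ⟨1, by omega⟩
    refine hN m ℝ (Fin (m + 1)) (𝓝[>] 0) (fun j r => eval e p * es r (j : ℕ))
      (fun a j => cj m (fun i k => eval e (g2 e w (reg e (2 * m) δ p) i k)) a (j : ℕ))
      _ ((eval e ((lap w)^[1] (reg e (2 * m) δ p)) / (1 : ℕ).factorial + 1) / eval e p)
      (fun j => (es_cont _).const_mul _) hlim ?_
    filter_upwards [h1.eventually (gt_mem_nhds (lt_add_one _)), self_mem_nhdsWithin] with a ha ha0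
    obtain ⟨r, hr, h2⟩ := hsum a ha0
    rw [hR2] at h2
    exact ⟨r, hbd hr (h2 1 hm) ha.le, fun j => h2 j (Nat.lt_succ_iff.1 j.2)⟩
  have hlim : ∀ j : Fin (m + 1), Tendsto (fun δ => eval e ((lap w)^[(j : ℕ)]
      (reg e (2 * m) δ p)) / (j : ℕ).factorial) (𝓝[>] 0)
      (𝓝 (eval e ((lap w)^[(j : ℕ)] p) / (j : ℕ).factorial)) := by
    intro j
    have hL := hC1 ((aeval e : MvPolynomial σ ℝ →ₐ[ℝ] ℝ).toLinearMap ∘ₗ (lapL w ^ (j : ℕ)))
    have hL2 : ∀ δ, ((aeval e : MvPolynomial σ ℝ →ₐ[ℝ] ℝ).toLinearMap ∘ₗ (lapL w ^ (j : ℕ)))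
        (reg e (2 * m) δ p) = eval e ((lap w)^[(j : ℕ)] (reg e (2 * m) δ p)) := by
      intro δ
      rw [LinearMap.comp_apply, lapL_pow, AlgHom.toLinearMap_apply]
      exact congrFun (congrArg DFunLike.coe (coe_aeval_eq_eval e)) _
    simp only [hL2] at hL
    have h1 : Tendsto (fun δ => eval e ((lap w)^[(j : ℕ)] (reg e (2 * m) δ p))) (𝓝[>] 0)
        (𝓝 (eval e ((lap w)^[(j : ℕ)] (reg e (2 * m) 0 p)))) :=
      (hL.tendsto 0).mono_left nhdsWithin_le_nhds
    rw [reg_zero] at h1
    exact h1.div_const _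
  have h1 := hlim ⟨1, by omega⟩
  obtain ⟨r, hr, h2⟩ := hN m ℝ (Fin (m + 1)) (𝓝[>] 0) (fun j r => eval e p * es r (j : ℕ))
    (fun δ j => eval e ((lap w)^[(j : ℕ)] (reg e (2 * m) δ p)) / (j : ℕ).factorial)
    _ ((eval e ((lap w)^[1] p) / (1 : ℕ).factorial + 1) / eval e p)
    (fun j => (es_cont _).const_mul _) hlim (by
      filter_upwards [h1.eventually (gt_mem_nhds (lt_add_one _)), hbox] with δ hδ hδ0
      obtain ⟨r, hr, h2⟩ := hδ0
      exact ⟨r, hbd hr (h2 ⟨1, by omega⟩) hδ.le, h2⟩)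
  exact ⟨r, hr, fun j hj => h2 ⟨j, Nat.lt_succ_of_le hj⟩⟩

end engine

section strict

variable {ι K : Type} [Fintype ι] [Fintype K] [DecidableEq ι] [DecidableEq K] {m : ℕ}

/-- the strict case, in any direction of the cone -/
theorem strict_spec (hR' : N_Roots) (hN : N_Closed) (hS : M_Star) [Nonempty ι]
    (B : ι × Option K → Fin m × Bool → Fin m × Bool → ℝ) (hm : 1 ≤ m)
    (hs : ∀ o i j, B o i j = B o j i) {ε : ℝ} (hε : 0 < ε)
    (hc : ∀ (j : ι) (y : EuclideanSpace ℝ (Fin m × Bool)),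
      Real.sqrt (∑ b, qf (B (j, some b)) y ^ 2) + ε * ‖y‖ ^ 2 ≤ qf (B (j, none)) y)
    (c : ι → ℝ) (hc0 : ∀ j, 0 ≤ c j) (e : ι × Option K → ℝ) (he : e ∈ PC ι K) :
    0 < eval e (dpoly B) ∧ ∃ r : Fin m → ℝ, (∀ i, 0 ≤ r i) ∧ ∀ j ≤ m,
      eval e ((lap (fun o => c o.1 * pw o))^[j] (dpoly B)) / j.factorial =
        eval e (dpoly B) * es r j := by
  have hcard : Fintype.card (Fin m × Bool) = 2 * m := by
    rw [Fintype.card_prod, Fintype.card_fin, Fintype.card_bool, mul_comm]
  have hlow : ∀ (v : ι × Option K → ℝ), (∀ j, 0 ≤ v (j, none) ∧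
      ∑ b : K, v (j, some b) ^ 2 ≤ v (j, none) ^ 2) → ∀ y : EuclideanSpace ℝ (Fin m × Bool),
      (ε * ∑ j, v (j, none)) * ‖y‖ ^ 2 ≤ qf (fun i j => ∑ o, v o * B o i j) y := by
    intro v hv y
    rw [qf_lin, Fintype.sum_prod_type]
    have h1 : (ε * ∑ j, v (j, none)) * ‖y‖ ^ 2 = ∑ j, v (j, none) * (ε * ‖y‖ ^ 2) := by
      rw [← Finset.sum_mul]
      ring
    rw [h1]
    refine Finset.sum_le_sum fun j _ => ?_
    rw [Fintype.sum_option]
    obtain ⟨h2, h3⟩ := hv j
    have h4 := Finset.sum_mul_sq_le_sq_mul_sq Finset.univ (fun b : K => v (j, some b))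
      (fun b : K => qf (B (j, some b)) y)
    have h5 : (∑ b : K, v (j, some b) * qf (B (j, some b)) y) ^ 2 ≤
        (v (j, none) * Real.sqrt (∑ b, qf (B (j, some b)) y ^ 2)) ^ 2 := by
      refine h4.trans ?_
      rw [mul_pow, Real.sq_sqrt (Finset.sum_nonneg fun _ _ => sq_nonneg _)]
      exact mul_le_mul_of_nonneg_right h3 (Finset.sum_nonneg fun _ _ => sq_nonneg _)
    have h6 := (abs_le_of_sq_le_sq' h5 (by positivity)).1
    have h7 := mul_le_mul_of_nonneg_left (hc j y) h2
    linarith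
  have hdet : ∀ v ∈ closure (PC ι K), v ≠ 0 → 0 < eval v (dpoly B) := by
    intro v hv hv0
    rw [dpoly_eval]
    have hv' := closure_PC hv
    have hsum : 0 < ∑ j, v (j, none) := by
      refine lt_of_le_of_ne (Finset.sum_nonneg fun j _ => (hv' j).1) ?_
      intro h0
      apply hv0
      have h1 : ∀ j, v (j, none) = 0 := fun j =>
        (Finset.sum_eq_zero_iff_of_nonneg (fun j _ => (hv' j).1)).1 h0.symm j (Finset.mem_univ j)
      funext o
      obtain ⟨j, o⟩ := o
      cases o with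
      | none => exact h1 j
      | some b =>
        have h2 := (hv' j).2
        rw [h1 j, zero_pow two_ne_zero] at h2
        have h3 : v (j, some b) ^ 2 ≤ ∑ b : K, v (j, some b) ^ 2 :=
          Finset.single_le_sum (f := fun b => v (j, some b) ^ 2) (fun _ _ => sq_nonneg _)
            (Finset.mem_univ b)
        have h4 : v (j, some b) ^ 2 = 0 := le_antisymm (h3.trans h2) (sq_nonneg _)
        simpa using pow_eq_zero_iff two_ne_zero |>.1 h4
    refine det_pos_of_qf ?_ (mul_pos hε hsum) (hlow v hv')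
    intro i j
    exact Finset.sum_congr rfl fun o _ => by rw [hs]
  have he0 : e ≠ 0 := by
    rintro rfl
    exact zero_notMem_PC he
  refine ⟨hdet e (subset_closure he) he0, ?_⟩
  refine spec_poly hR' hN (PC ι K) e (fun o => c o.1 * pw o) (dpoly B) m hm
    (hl_star ι K).1 he zero_notMem_PC (hS ι K c hc0 e he)
    (by rw [← hcard]; exact dpoly_hom B) ?_ hdet
  intro x s hs'
  rw [dpoly_aeval]
  have h1 : (Matrix.of fun i j => ∑ o, cp x (fun k => s * e k) o * (B o i j : ℂ)) =
      Matrix.of fun i j => (((∑ o, x o * B o i j : ℝ)) : ℂ) +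
        (((∑ o, (s * e o) * B o i j : ℝ)) : ℂ) * Complex.I := by
    ext i j
    simp only [Matrix.of_apply, cp]
    push_cast
    rw [Finset.sum_mul, ← Finset.sum_add_distrib]
    refine Finset.sum_congr rfl fun o _ => ?_
    ring
  rw [h1]
  have hv : (fun o => s * e o) ∈ PC ι K := (hl_star ι K).1.cone s hs' e he
  refine det_stab (p := ε * ∑ j : ι, s * e (j, none)) ?_ ?_ ?_ ?_
  · intro i j
    exact Finset.sum_congr rfl fun o _ => by rw [hs]
  · intro i j
    exact Finset.sum_congr rfl fun o _ => by rw [hs]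
  · have : 0 < ∑ j : ι, s * e (j, none) :=
      Finset.sum_pos (fun j _ => (hv j).1) Finset.univ_nonempty
    positivity
  · intro y
    exact hlow (fun o => s * e o) (fun j => ⟨(hv j).1.le, (hv j).2.le⟩) y

/-- the strict case at the identity -/
theorem strict_spec2 (hR' : N_Roots) (hN : N_Closed) (hS : M_Star) (hD : M_Second)
    (B : ι × Option K → Fin m × Bool → Fin m × Bool → ℝ) (hm : 1 ≤ m)
    (hs : ∀ o i j, B o i j = B o j i) {ε : ℝ} (hε : 0 < ε)
    (hc : ∀ (j : ι) (y : EuclideanSpace ℝ (Fin m × Bool)),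
      Real.sqrt (∑ b, qf (B (j, some b)) y ^ 2) + ε * ‖y‖ ^ 2 ≤ qf (B (j, none)) y) :
    ∃ r : Fin m → ℝ, (∀ i, 0 ≤ r i) ∧ ∀ j ≤ m,
      eval (opte 0) ((lap (fun o => optc o.1 * pw o))^[j] (dpoly (optB B))) / j.factorial =
        es r j := by
  have h1 : ∀ η : ℝ, 0 < η → _ := fun η hη => strict_spec hR' hN hS (optB B) hm
    (ε := min ε 1) ?_ (lt_min hε one_pos) ?_ optc ?_ (opte η) (opte_mem hη)
  · obtain ⟨h2, h3⟩ := optB_zero hD B
    have hlim : ∀ j : Fin (m + 1), Tendsto (fun η : ℝ => eval (opte η)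
        ((lap (fun o => optc o.1 * pw o))^[(j : ℕ)] (dpoly (optB B))) / (j : ℕ).factorial /
          eval (opte η) (dpoly (optB B))) (𝓝[>] 0) (𝓝 (eval (opte 0)
        ((lap (fun o => optc o.1 * pw o))^[(j : ℕ)] (dpoly (optB B))) / (j : ℕ).factorial)) := by
      intro j
      have h4 := ((opte_cont ((lap (fun o => optc o.1 * pw o))^[(j : ℕ)]
        (dpoly (optB B)))).tendsto 0).mono_left (nhdsWithin_le_nhds (s := Set.Ioi (0 : ℝ)))
      have h5 := ((opte_cont (dpoly (optB B))).tendsto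
        0).mono_left (nhdsWithin_le_nhds (s := Set.Ioi (0 : ℝ)))
      rw [h3] at h5
      have h6 := (h4.div_const ((j : ℕ).factorial : ℝ)).div h5 one_ne_zero
      rw [div_one] at h6
      exact h6
    have h4 := hlim ⟨1, by omega⟩
    obtain ⟨r, hr, h5⟩ := hN m ℝ (Fin (m + 1)) (𝓝[>] 0) (fun j r => es r (j : ℕ))
      (fun η j => eval (opte η) ((lap (fun o => optc o.1 * pw o))^[(j : ℕ)] (dpoly (optB B))) /
        (j : ℕ).factorial / eval (opte η) (dpoly (optB B)))
      _ (eval (opte 0) ((lap (fun o => optc o.1 * pw o))^[1] (dpoly (optB B))) /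
        (1 : ℕ).factorial + 1)
      (fun j => es_cont _) hlim (by
        filter_upwards [h4.eventually (gt_mem_nhds (lt_add_one _)), self_mem_nhdsWithin] with η hη
          hη0
        obtain ⟨hp, r, hr, h6⟩ := h1 η hη0
        have h7 : ∀ j : Fin (m + 1), eval (opte η) ((lap (fun o => optc o.1 * pw o))^[(j : ℕ)]
            (dpoly (optB B))) / (j : ℕ).factorial / eval (opte η) (dpoly (optB B)) =
              es r (j : ℕ) := by
          intro j
          rw [h6 j (Nat.lt_succ_iff.1 j.2)]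
          field_simp
        refine ⟨r, fun i => ⟨hr i, (le_es_one hr i).trans ?_⟩, h7⟩
        rw [← h7 ⟨1, by omega⟩]
        exact hη.le)
    exact ⟨r, hr, fun j hj => h5 ⟨j, Nat.lt_succ_of_le hj⟩⟩
  · rintro ⟨a, o⟩ i j
    cases a with
    | none =>
      cases o with
      | none => simp only [optB, eq_comm]
      | some b => rfl
    | some a => exact hs _ _ _
  · intro a y
    cases a with
    | none =>
      have h2 : qf (fun i j : Fin m × Bool => if i = j then (1 : ℝ) else 0) y = ‖y‖ ^ 2 := by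
        have h3 := qf_add_diag (fun _ _ => 0) 1 y
        simp only [zero_add, one_mul] at h3
        rw [h3]
        unfold Hopf.qf
        simp
      have h3 : qf (fun _ _ : Fin m × Bool => (0 : ℝ)) y = 0 := by
        unfold Hopf.qf
        simp
      show Real.sqrt (∑ b : K, qf (fun _ _ => 0) y ^ 2) + min ε 1 * ‖y‖ ^ 2 ≤
        qf (fun i j => if i = j then 1 else 0) y
      rw [h2, h3]
      simp only [ne_eq, OfNat.ofNat_ne_zero, not_false_eq_true, zero_pow, Finset.sum_const_zero,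
        Real.sqrt_zero, zero_add]
      have h4 : min ε 1 ≤ 1 := min_le_right _ _
      nlinarith [sq_nonneg ‖y‖]
    | some a =>
      have h4 : min ε 1 ≤ ε := min_le_left _ _
      refine le_trans ?_ (hc a y)
      exact add_le_add le_rfl (mul_le_mul_of_nonneg_right h4 (sq_nonneg _))
  · intro j
    cases j with
    | none => exact le_rfl
    | some j => exact zero_le_one

/-- the double alternating form with `s` times the identity added -/
noncomputable def YY (B : ι × Option K → Fin m × Bool → Fin m × Bool → ℝ) (s : ℝ) : ℝ :=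
  Yf (fun a b a' b' : Fin m × Bool => (∑ o, pw o * (B o a b * B o a' b')) +
    s * ((if a = b then 1 else 0) * (if a' = b' then 1 else 0)))

theorem opte_single : (opte 0 : Option ι × Option K → ℝ) = Pi.single (none, none) 1 := by
  funext o
  obtain ⟨a, b⟩ := o
  cases a with
  | none =>
    cases b with
    | none => simp [opte]
    | some b => simp [opte]
  | some a =>
    cases b with
    | none => simp [opte]
    | some b => simp [opte]

theorem YY_eq (hP : N_Split) (B : ι × Option K → Fin m × Bool → Fin m × Bool → ℝ) (s : ℝ) :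
    YY B s = m.factorial * gpoly m (fun j => eval (opte 0)
      ((lap (fun o => optc o.1 * pw o))^[j] (dpoly (optB B))) / j.factorial) s := by
  have hcard : Fintype.card (Fin m × Bool) = 2 * m := by
    rw [Fintype.card_prod, Fintype.card_fin, Fintype.card_bool, mul_comm]
  have h1 := hP m (Option ι × Option K) (none, none) (fun o => optc o.1 * pw o) (dpoly (optB B)) s
    (opte 0) (by simp [optc]) (by rw [← hcard]; exact dpoly_hom _)
  rw [← opte_single] at h1
  rw [← h1, lap_dpoly pair]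
  unfold YY
  congr 1
  funext a b a' b'
  simp only [add_mul, Finset.sum_add_distrib]
  congr 1
  · exact (congrFun (congrFun (congrFun (congrFun (optB_Yf B) a) b) a') b').symm
  · rw [Finset.sum_eq_single ((none, none) : Option ι × Option K)]
    · simp [optB]
    · intro o _ ho
      rw [if_neg ho, zero_mul]
    · simp

/-- `|R|² - 4 |Ric|² + scal²` of a family -/
noncomputable def H4 (B : ι × Option K → Fin m × Bool → Fin m × Bool → ℝ) : ℝ :=
  (∑ i, ∑ j, ∑ k, ∑ l, R4 pw B i j k l ^ 2) - 4 * (∑ j, ∑ l, (∑ i, R4 pw B i j i l) ^ 2) +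
    (∑ i, ∑ j, R4 pw B i j i j) ^ 2

theorem optB_two (hF : P_Fourth) (hQ : P_Quad)
    (B : ι × Option K → Fin m × Bool → Fin m × Bool → ℝ) (hs : ∀ o i j, B o i j = B o j i) :
    eval (opte 0) ((lap (fun o => optc o.1 * pw o))^[2] (dpoly (optB B))) = H4 B := by
  have h0 : ∀ i j, ∑ o, opte (ι := ι) (K := K) 0 o * optB B o i j = if i = j then 1 else 0 := by
    intro i j
    rw [Fintype.sum_prod_type, Fintype.sum_option, Fintype.sum_option]
    have h1 : ∑ x : K, opte (ι := ι) 0 (none, some x) * optB B (none, some x) i j = 0 :=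
      Finset.sum_eq_zero fun x _ => by simp [opte]
    have h2 : ∑ x : ι, ∑ y : Option K, opte (ι := ι) 0 (some x, y) * optB B (some x, y) i j = 0 := by
      refine Finset.sum_eq_zero fun x _ => Finset.sum_eq_zero fun y _ => ?_
      cases y <;> simp [opte]
    rw [h1, h2]
    simp [opte, optB]
  have hs' : ∀ o i j, optB B o i j = optB B o j i := by
    rintro ⟨a, o⟩ i j
    cases a with
    | none =>
      cases o with
      | none => simp only [optB, eq_comm]
      | some b => rfl
    | some a => exact hs _ _ _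
  have h1 : eval (opte 0) ((lap (fun o => optc o.1 * pw o))^[2] (dpoly (optB B))) =
      ∑ o : Option ι × Option K, ∑ o' : Option ι × Option K, (optc o.1 * pw o) *
        (optc o'.1 * pw o') * F4 (Matrix.of (optB B o)) (Matrix.of (optB B o')) := by
    show eval (opte 0) (lap _ (lap _ (dpoly (optB B)))) = _
    have h2 : lap (fun o : Option ι × Option K => optc o.1 * pw o)
        (lap (fun o => optc o.1 * pw o) (dpoly (optB B))) =
        ∑ o : Option ι × Option K, lap (fun o => optc o.1 * pw o)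
          (C (optc o.1 * pw o) * dd o (dpoly (optB B))) := by
      conv_lhs => rw [show lap (fun o : Option ι × Option K => optc o.1 * pw o)
        (dpoly (optB B)) = ∑ o, C (optc o.1 * pw o) * dd o (dpoly (optB B)) from rfl]
      have h3 := map_sum (lapL (fun o : Option ι × Option K => optc o.1 * pw o))
        (fun o => C (optc o.1 * pw o) * dd o (dpoly (optB B))) Finset.univ
      exact h3
    rw [h2, map_sum, Finset.sum_comm]
    refine Finset.sum_congr rfl fun o _ => ?_
    have h3 := lap_iter_C (fun o : Option ι × Option K => optc o.1 * pw o) 1 (optc o.1 * pw o)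
      (dd o (dpoly (optB B)))
    rw [Function.iterate_one] at h3
    rw [h3, map_mul, eval_C]
    unfold lap
    rw [map_sum, Finset.mul_sum]
    refine Finset.sum_congr rfl fun o' _ => ?_
    rw [map_mul, eval_C, hF _ _ _ _ h0 hs']
    ring
  rw [h1, hQ _ _ _ _ hs']
  have h2 : R4 (fun o : Option ι × Option K => optc o.1 * pw o) (optB B) = R4 pw B := by
    funext i j k l
    have h3 := congrFun (congrFun (congrFun (congrFun (optB_Yf B) i) k) j) l
    have h4 := congrFun (congrFun (congrFun (congrFun (optB_Yf B) i) l) j) k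
    unfold R4
    beta_reduce at h3 h4
    rw [h3, h4]
  rw [h2]
  rfl

/-- the spectrum of a strict family -/
theorem strict_YY (hR' : N_Roots) (hN : N_Closed) (hP : N_Split) (hS : M_Star) (hD : M_Second)
    (hF : P_Fourth) (hQ : P_Quad)
    (B : ι × Option K → Fin m × Bool → Fin m × Bool → ℝ) (hm : 1 ≤ m)
    (hs : ∀ o i j, B o i j = B o j i) {ε : ℝ} (hε : 0 < ε)
    (hc : ∀ (j : ι) (y : EuclideanSpace ℝ (Fin m × Bool)),
      Real.sqrt (∑ b, qf (B (j, some b)) y ^ 2) + ε * ‖y‖ ^ 2 ≤ qf (B (j, none)) y) :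
    ∃ r : Fin m → ℝ, (∀ i, 0 ≤ r i) ∧ S1 B = es r 1 ∧ (2 ≤ m → H4 B = 2 * es r 2) ∧
      ∀ s, YY B s = m.factorial * gpoly m (es r) s := by
  obtain ⟨r, hr, h1⟩ := strict_spec2 hR' hN hS hD B hm hs hε hc
  refine ⟨r, hr, ?_, fun h2m => ?_, fun s => ?_⟩
  · have h2 := h1 1 hm
    rw [Function.iterate_one, (optB_zero hD B).1] at h2
    simpa using h2
  · have h2 := h1 2 h2m
    rw [optB_two hF hQ B hs, Nat.factorial_two] at h2
    push_cast at h2
    linarith
  · rw [YY_eq hP]
    congr 1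
    unfold gpoly
    refine Finset.sum_congr rfl fun j hj => ?_
    have h2 := h1 j (Nat.lt_succ_iff.1 (Finset.mem_range.1 hj))
    beta_reduce
    rw [h2]

theorem YY_shift_cont (B : ι × Option K → Fin m × Bool → Fin m × Bool → ℝ) (s : ℝ) :
    Continuous fun ε : ℝ => YY (shiftB B ε) s := by
  unfold YY Yf shiftB
  fun_prop

theorem H4_shift_cont (B : ι × Option K → Fin m × Bool → Fin m × Bool → ℝ) :
    Continuous fun ε : ℝ => H4 (shiftB B ε) := by
  unfold H4 R4 shiftB
  fun_prop

/-- **The spectrum of a causal family.** -/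
theorem causal_YY (hR' : N_Roots) (hN : N_Closed) (hP : N_Split) (hS : M_Star) (hD : M_Second)
    (hF : P_Fourth) (hQ : P_Quad)
    (B : ι × Option K → Fin m × Bool → Fin m × Bool → ℝ) (hm : 1 ≤ m)
    (hs : ∀ o i j, B o i j = B o j i)
    (hc : ∀ (j : ι) (y : EuclideanSpace ℝ (Fin m × Bool)),
      0 ≤ qf (B (j, none)) y ∧ ∑ b, qf (B (j, some b)) y ^ 2 ≤ qf (B (j, none)) y ^ 2) :
    ∃ r : Fin m → ℝ, (∀ i, 0 ≤ r i) ∧ S1 B = es r 1 ∧ (2 ≤ m → H4 B = 2 * es r 2) ∧
      ∀ s, YY B s = m.factorial * gpoly m (es r) s := by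
  have h1 : ∀ ε : ℝ, 0 < ε → ∃ r : Fin m → ℝ, (∀ i, 0 ≤ r i) ∧ S1 (shiftB B ε) = es r 1 ∧
      (2 ≤ m → H4 (shiftB B ε) = 2 * es r 2) ∧
      ∀ s, YY (shiftB B ε) s = m.factorial * gpoly m (es r) s := by
    intro ε hε
    refine strict_YY hR' hN hP hS hD hF hQ (shiftB B ε) hm ?_ hε ?_
    · intro o i j
      unfold shiftB
      rw [hs]
      obtain ⟨a, o⟩ := o
      cases o with
      | none => simp only [Option.elim_none, eq_comm]
      | some b => rfl
    · intro j y
      have h2 : shiftB B ε (j, none) = fun i k => B (j, none) i k + ε * (if i = k then 1 else 0) :=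
        rfl
      have h3 : ∀ b, shiftB B ε (j, some b) = B (j, some b) := by
        intro b
        funext i k
        show B (j, some b) i k + ε * 0 = B (j, some b) i k
        ring
      simp only [h2, h3, qf_add_diag]
      obtain ⟨h4, h5⟩ := hc j y
      have h6 := Real.sqrt_le_sqrt h5
      rw [Real.sqrt_sq h4] at h6
      linarith
  have h3 : shiftB B 0 = B := by
    funext o i j
    unfold shiftB
    rw [zero_mul, add_zero]
  have h4 := ((S1_shift_cont B).tendsto 0).mono_left (nhdsWithin_le_nhds (s := Set.Ioi (0 : ℝ)))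
  rw [h3] at h4
  have h5 := ((H4_shift_cont B).tendsto 0).mono_left (nhdsWithin_le_nhds (s := Set.Ioi (0 : ℝ)))
  rw [h3] at h5
  have g1 : ∀ x : Option (Option ℝ), Continuous fun r : Fin m → ℝ =>
      (x.elim (es r 1) fun y => y.elim (if 2 ≤ m then 2 * es r 2 else 0) fun s =>
        (m.factorial : ℝ) * gpoly m (es r) s : ℝ) := by
    intro x
    rcases x with _ | _ | s
    · exact es_cont 1
    · simp only [Option.elim_some, Option.elim_none]
      split_ifs
      · exact (es_cont 2).const_mul _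
      · exact continuous_const
    · exact (gpoly_cont s).const_mul _
  have g2 : ∀ x : Option (Option ℝ), Tendsto (fun ε : ℝ =>
      (x.elim (S1 (shiftB B ε)) fun y => y.elim (if 2 ≤ m then H4 (shiftB B ε) else 0) fun s =>
        YY (shiftB B ε) s : ℝ)) (𝓝[>] 0)
        (𝓝 (x.elim (S1 B) fun y => y.elim (if 2 ≤ m then H4 B else 0) fun s => YY B s)) := by
    intro x
    rcases x with _ | _ | s
    · exact h4
    · simp only [Option.elim_some, Option.elim_none]
      split_ifs
      · exact h5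
      · exact tendsto_const_nhds
    · have h2 := ((YY_shift_cont B s).tendsto 0).mono_left
        (nhdsWithin_le_nhds (s := Set.Ioi (0 : ℝ)))
      rw [h3] at h2
      exact h2
  have g3 : ∀ᶠ ε : ℝ in 𝓝[>] 0, ∃ r : Fin m → ℝ, (∀ i, 0 ≤ r i ∧ r i ≤ S1 B + 1) ∧
      ∀ x : Option (Option ℝ),
        (x.elim (S1 (shiftB B ε)) fun y => y.elim (if 2 ≤ m then H4 (shiftB B ε) else 0) fun s =>
          YY (shiftB B ε) s : ℝ) =
        x.elim (es r 1) fun y => y.elim (if 2 ≤ m then 2 * es r 2 else 0) fun s =>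
          (m.factorial : ℝ) * gpoly m (es r) s := by
    filter_upwards [h4.eventually (gt_mem_nhds (lt_add_one _)), self_mem_nhdsWithin] with ε hε hε0
    obtain ⟨r, hr, h6, h8, h7⟩ := h1 ε hε0
    refine ⟨r, fun i => ⟨hr i, (le_es_one hr i).trans ?_⟩, fun x => ?_⟩
    · rw [← h6]
      exact hε.le
    · rcases x with _ | _ | s
      · exact h6
      · simp only [Option.elim_some, Option.elim_none]
        split_ifs with h9
        · exact h8 h9
        · rfl
      · exact h7 s
  obtain ⟨r, hr, h6⟩ := hN m ℝ (Option (Option ℝ)) (𝓝[>] 0) _ _ _ (S1 B + 1) g1 g2 g3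
  refine ⟨r, hr, h6 none, fun h2m => ?_, fun s => h6 (some (some s))⟩
  have h7 := h6 (some none)
  simp only [Option.elim_some, Option.elim_none, if_pos h2m] at h7
  exact h7

end strict

end Pool.Agent.H783.HM
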