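import Pool.Agent.H783.HM.Stm
import Pool.Agent.H783.HL.Star2
import Pool.Agent.H783.HL.Box2

/-!
# Gauss–Bonnet curvatures and elementary symmetric functions: statements
-/

set_option autoImplicit false

namespace Pool.Agent.H783.HM

open MvPolynomial Filter Topology
open Pool.Agent.H783.HL

/-- elementary symmetric functions -/
noncomputable def es {m : ℕ} (r : Fin m → ℝ) (j : ℕ) : ℝ :=
  ∑ t ∈ Finset.powersetCard j Finset.univ, ∏ i ∈ t, r i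

/-- the polynomial with the coefficients `c_j (2m - 2j)! / (m - j)!` -/
noncomputable def gpoly (m : ℕ) (c : ℕ → ℝ) (s : ℝ) : ℝ :=
  ∑ j ∈ Finset.range (m + 1), c j * ((2 * (m - j)).factorial / (m - j).factorial) * s ^ (m - j)

/-- N1. Roots. -/
def N_Roots : Prop :=
  ∀ (m : ℕ) (C : ℕ → ℝ), 0 < C 0 →
    (∀ z : ℂ, z.im ≠ 0 →
      ∑ j ∈ Finset.range (m + 1), (-1) ^ j * (C j : ℂ) * z ^ (2 * (m - j)) ≠ 0) →
    ∃ r : Fin m → ℝ, (∀ i, 0 ≤ r i) ∧ ∀ j ≤ m, C j = C 0 * es r j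

/-- N2. The product of planes. -/
def N_Prod : Prop :=
  ∀ (m : ℕ) (σ : Type) [Fintype σ] [DecidableEq σ] (o0 : σ) (o : Fin m → σ) (w x : σ → ℝ)
    (c : Fin m → ℝ), Function.Injective o → (∀ a, o a ≠ o0) → w o0 = 0 → (∀ a, w (o a) = 1) →
    x o0 = 1 → (∀ a, x (o a) = 0) → ∀ j,
    eval x ((lap w)^[j] (∏ a, (X o0 + C (c a) * X (o a)) ^ 2)) =
      j.factorial * es (fun a => 2 * c a ^ 2) j

/-- N3. Limits of points with nonnegative coordinates. -/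
def N_Closed : Prop :=
  ∀ (m : ℕ) (α X : Type) (F : Filter α) [F.NeBot] (Φ : X → (Fin m → ℝ) → ℝ)
    (g : α → X → ℝ) (g0 : X → ℝ) (M : ℝ), (∀ x, Continuous (Φ x)) →
    (∀ x, Tendsto (fun a => g a x) F (𝓝 (g0 x))) →
    (∀ᶠ a in F, ∃ r : Fin m → ℝ, (∀ i, 0 ≤ r i ∧ r i ≤ M) ∧ ∀ x, g a x = Φ x r) →
    ∃ r : Fin m → ℝ, (∀ i, 0 ≤ r i) ∧ ∀ x, g0 x = Φ x r

/-- N4. Splitting off one variable. -/
def N_Split : Prop :=
  ∀ (m : ℕ) (σ : Type) [Fintype σ] [DecidableEq σ] (o0 : σ) (w : σ → ℝ) (p : MvPolynomial σ ℝ)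
    (s : ℝ) (x : σ → ℝ), w o0 = 0 → p.IsHomogeneous (2 * m) →
    eval x ((lap (fun o => w o + if o = o0 then s else 0))^[m] p) =
      m.factorial * gpoly m (fun j => eval (Pi.single o0 1) ((lap w)^[j] p) / j.factorial) s

end Pool.Agent.H783.HM
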