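import Pool.Agent.H783.HM.Stm2

/-!
# The fourth Gauss–Bonnet curvature: statements
-/

set_option autoImplicit false

namespace Pool.Agent.H783.HM

open MvPolynomial
open Pool.Agent.H783.HL

/-- the coefficient `4 [s² t²] det (1 + s X + t Y)` in terms of traces -/
noncomputable def F4 {J : Type} [Fintype J] (X Y : Matrix J J ℝ) : ℝ :=
  X.trace ^ 2 * Y.trace ^ 2 - X.trace ^ 2 * (Y * Y).trace - Y.trace ^ 2 * (X * X).trace -
    4 * (X.trace * Y.trace * (X * Y).trace) + (X * X).trace * (Y * Y).trace +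
    2 * (X * Y).trace ^ 2 + 4 * (X.trace * (X * Y * Y).trace) + 4 * (Y.trace * (X * X * Y).trace) -
    4 * (X * X * Y * Y).trace - 2 * (X * Y * X * Y).trace

/-- P1. Fourth derivatives of the determinant at the identity. -/
def P_Fourth : Prop :=
  ∀ (κ J : Type) [Fintype κ] [DecidableEq κ] [Fintype J] [DecidableEq J] (B : κ → J → J → ℝ)
    (e : κ → ℝ), (∀ i j, ∑ o, e o * B o i j = if i = j then 1 else 0) →
    (∀ o i j, B o i j = B o j i) → ∀ o o',
    eval e (dd o (dd o' (dpoly B))) = F4 (Matrix.of (B o)) (Matrix.of (B o'))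

/-- the curvature tensor of a family of forms, in coordinates -/
noncomputable def R4 {κ J : Type} [Fintype κ] (w : κ → ℝ) (B : κ → J → J → ℝ) (i j k l : J) : ℝ :=
  -((∑ o, w o * (B o i k * B o j l)) - ∑ o, w o * (B o i l * B o j k))

/-- P2. The sum of the `F4` is `|R|² - 4 |Ric|² + scal²`. -/
def P_Quad : Prop :=
  ∀ (κ J : Type) [Fintype κ] [DecidableEq κ] [Fintype J] [DecidableEq J] (w : κ → ℝ)
    (B : κ → J → J → ℝ), (∀ o i j, B o i j = B o j i) →
    ∑ o, ∑ o', w o * w o' * F4 (Matrix.of (B o)) (Matrix.of (B o')) =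
      (∑ i, ∑ j, ∑ k, ∑ l, R4 w B i j k l ^ 2) - 4 * (∑ j, ∑ l, (∑ i, R4 w B i j i l) ^ 2) +
        (∑ i, ∑ j, R4 w B i j i j) ^ 2

/-- P3. Newton's inequality. -/
def P_Newton : Prop :=
  ∀ (m : ℕ) (r : Fin m → ℝ), 1 ≤ m →
    es r 2 ≤ (m - 1 : ℝ) / (2 * m) * es r 1 ^ 2

/-- P4. Maclaurin's inequality. -/
def P_Maclaurin : Prop :=
  ∀ (m : ℕ) (r : Fin m → ℝ), 1 ≤ m → (∀ i, 0 ≤ r i) → ∀ j ≤ m,
    es r j ≤ m.choose j * (es r 1 / m) ^ j

end Pool.Agent.H783.HM
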